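import Mathlib
import Pool.Agent.Helper472.Lat_Chars

/-! # Continuous characters separate the points of a locally compact Hausdorff abelian group -/

set_option autoImplicit false
set_option linter.unusedSectionVars false

namespace Pool.Agent.R746.LCA

open Topology Set Filter Pointwise

universe u

/-- recurrence of powers -/
lemma recur {S : Type*} [Group S] [TopologicalSpace S] [IsTopologicalGroup S]
    (x : S) (K : Set S) (hK : IsCompact K)
    (hinf : {k : ℤ | x ^ k ∈ K}.Infinite) (W : Set S) (hW : W ∈ 𝓝 (1 : S)) (N0 : ℤ) :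
    ∃ n : ℤ, N0 ≤ n ∧ x ^ n ∈ W := by
  obtain ⟨V, hV, hVW⟩ := exists_nhds_split_inv hW
  have hU : ∀ s ∈ K, {y : S | y * s⁻¹ ∈ V} ∈ 𝓝 s := by
    intro s _
    have hc : ContinuousAt (fun y : S => y * s⁻¹) s := by fun_prop
    apply hc
    simpa using hV
  obtain ⟨t, -, ht⟩ := hK.elim_nhds_subcover _ hU
  have hex : ∃ s ∈ t, {k : ℤ | x ^ k * s⁻¹ ∈ V}.Infinite := by
    by_contra hcon
    push Not at hcon
    apply hinf
    refine (Set.Finite.biUnion t.finite_toSet (t := fun s => {k : ℤ | x ^ k * s⁻¹ ∈ V}) ?_).subset ?_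
    · intro s hs
      exact hcon s hs
    · intro k hk
      have := ht hk
      simpa using this
  obtain ⟨s, -, hs⟩ := hex
  obtain ⟨k', hk'⟩ := hs.nonempty
  have : ({k : ℤ | x ^ k * s⁻¹ ∈ V} \ Set.Icc (k' - |N0|) (k' + |N0|)).Nonempty := by
    apply Set.Infinite.nonempty
    exact hs.sdiff (Set.finite_Icc _ _)
  obtain ⟨k, hk, hkn⟩ := this
  have key : ∀ a b : ℤ, x ^ a * s⁻¹ ∈ V → x ^ b * s⁻¹ ∈ V → x ^ (a - b) ∈ W := by
    intro a b ha hb
    have := hVW _ ha _ hb
    have e : x ^ a * s⁻¹ / (x ^ b * s⁻¹) = x ^ (a - b) := by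
      rw [zpow_sub, div_eq_mul_inv, mul_inv_rev]; group
    rwa [e] at this
  rcases lt_or_ge k k' with h | h
  · refine ⟨k' - k, ?_, key _ _ hk' hk⟩
    by_contra hlt
    apply hkn
    constructor
    · have := le_abs_self N0; omega
    · have := abs_nonneg N0; omega
  · refine ⟨k - k', ?_, key _ _ hk hk'⟩
    by_contra hlt
    apply hkn
    constructor
    · have := abs_nonneg N0; omega
    · have := le_abs_self N0; omega

/-- powers with exponent at least one approximate inverses of elements of the closure -/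
lemma dense_pos {S : Type*} [Group S] [TopologicalSpace S] [IsTopologicalGroup S]
    (x : S) (K : Set S) (hK : IsCompact K)
    (hinf : {k : ℤ | x ^ k ∈ K}.Infinite) (g : S)
    (hg : g ∈ (Subgroup.zpowers x).topologicalClosure) (W : Set S) (hW : W ∈ 𝓝 (1 : S)) :
    (∃ n : ℕ, 0 < n ∧ x ^ n * g ∈ W) ∧ (∃ n : ℕ, 0 < n ∧ (x ^ n)⁻¹ * g ∈ W) := by
  obtain ⟨V, hV, hV1, hVW⟩ := exists_open_nhds_one_mul_subset hW
  have hVn : V ∈ 𝓝 (1 : S) := hV.mem_nhds hV1
  have hnh : {y : S | y⁻¹ * g ∈ V} ∈ 𝓝 g := by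
    have hc : ContinuousAt (fun y : S => y⁻¹ * g) g := by fun_prop
    apply hc
    simpa using hVn
  have hg' : g ∈ closure ((Subgroup.zpowers x : Subgroup S) : Set S) := hg
  obtain ⟨y, hy1, hy2⟩ := mem_closure_iff_nhds.1 hg' _ hnh
  obtain ⟨m, rfl⟩ := Subgroup.mem_zpowers_iff.1 hy2
  have hy1 : (x ^ m)⁻¹ * g ∈ V := hy1
  constructor
  · obtain ⟨n, hn, hxn⟩ := recur x K hK hinf V hVn (|m| + 1)
    refine ⟨(n - m).toNat, ?_, ?_⟩
    · have := le_abs_self m; omega
    · have h0 : 0 ≤ n - m := by have := le_abs_self m; omega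
      have e : x ^ (n - m).toNat * g = x ^ n * ((x ^ m)⁻¹ * g) := by
        have : x ^ (n - m).toNat = x ^ (n - m) := by
          rw [← zpow_natCast, Int.toNat_of_nonneg h0]
        rw [this, zpow_sub]; group
      rw [e]
      exact hVW (Set.mul_mem_mul hxn hy1)
  · obtain ⟨n, hn, hxn⟩ := recur x K hK hinf V⁻¹ (inv_mem_nhds_one S hVn) (|m| + 1)
    refine ⟨(n + m).toNat, ?_, ?_⟩
    · have := neg_abs_le m; omega
    · have h0 : 0 ≤ n + m := by have := neg_abs_le m; omega
      have e : (x ^ (n + m).toNat)⁻¹ * g = (x ^ n)⁻¹ * ((x ^ m)⁻¹ * g) := by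
        have : x ^ (n + m).toNat = x ^ (n + m) := by
          rw [← zpow_natCast, Int.toNat_of_nonneg h0]
        rw [this, add_comm, zpow_add]; group
      rw [e]
      exact hVW (Set.mul_mem_mul hxn hy1)

/-- monothetic dichotomy -/
lemma lemB {S : Type*} [Group S] [TopologicalSpace S] [IsTopologicalGroup S]
    [LocallyCompactSpace S] (x : S) (K : Set S) (hK : IsCompact K)
    (hinf : {k : ℤ | x ^ k ∈ K}.Infinite) :
    IsCompact ((Subgroup.zpowers x).topologicalClosure : Set S) := by
  classical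
  obtain ⟨U, hUc, hU⟩ := exists_compact_mem_nhds (1 : S)
  set Z := (Subgroup.zpowers x).topologicalClosure with hZ
  have hZc : IsClosed (Z : Set S) := Subgroup.isClosed_topologicalClosure _
  have hxZ : ∀ n : ℕ, x ^ n ∈ Z := fun n =>
    Subgroup.le_topologicalClosure _ (Subgroup.pow_mem _ (Subgroup.mem_zpowers x) n)
  have hch : ∀ u : S, ∃ n : ℕ, u ∈ Z → (0 < n ∧ x ^ n * u ∈ interior U) := by
    intro u
    by_cases hu : u ∈ Z
    · obtain ⟨n, h1, h2⟩ := (dense_pos x K hK hinf u hu (interior U) (interior_mem_nhds.2 hU)).1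
      exact ⟨n, fun _ => ⟨h1, h2⟩⟩
    · exact ⟨0, fun h => absurd h hu⟩
  choose nu hnu using hch
  have hUZ : IsCompact (U ∩ (Z : Set S)) := hUc.inter_right hZc
  obtain ⟨t, htm, ht⟩ := hUZ.elim_nhds_subcover (fun u => {y : S | x ^ (nu u) * y ∈ interior U}) (by
    intro u hu
    have hop : IsOpen {y : S | x ^ (nu u) * y ∈ interior U} :=
      isOpen_interior.preimage (continuous_const.mul continuous_id)
    exact hop.mem_nhds (hnu u hu.2).2)
  set B := t.sup nu with hB
  have hcov : (Z : Set S) ⊆ ⋃ n ∈ Finset.range (B + 1), (fun y => x ^ n * y) '' U := by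
    intro g hg
    have hex := (dense_pos x K hK hinf g hg U hU).2
    have hspec := Nat.find_spec hex
    set n := Nat.find hex with hn
    have hmem : (x ^ n)⁻¹ * g ∈ U ∩ (Z : Set S) :=
      ⟨hspec.2, Z.mul_mem (Z.inv_mem (hxZ n)) hg⟩
    have h3 := ht hmem
    simp only [Set.mem_iUnion] at h3
    obtain ⟨u, hut, hu2⟩ := h3
    have hle : n ≤ nu u := by
      by_contra hlt
      push Not at hlt
      have : ¬ (0 < n - nu u ∧ (x ^ (n - nu u))⁻¹ * g ∈ U) :=
        Nat.find_min hex (m := n - nu u) (by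
          have := (hnu u (htm u hut).2).1; omega)
      apply this
      refine ⟨by omega, ?_⟩
      have e : (x ^ (n - nu u))⁻¹ * g = x ^ (nu u) * ((x ^ n)⁻¹ * g) := by
        rw [pow_sub x hlt.le]; group
      rw [e]
      exact interior_subset hu2
    have hnB : n < B + 1 := by
      have : nu u ≤ B := Finset.le_sup hut
      omega
    refine Set.mem_biUnion (Finset.mem_coe.2 (Finset.mem_range.2 hnB)) ?_
    exact ⟨(x ^ n)⁻¹ * g, hspec.2, by simp⟩
  refine IsCompact.of_isClosed_subset ?_ hZc hcov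
  refine (Finset.range (B + 1)).finite_toSet.isCompact_biUnion ?_
  intro n _
  exact hUc.image (continuous_const.mul continuous_id)


/-- the circle is divisible -/
noncomputable instance circleDiv : DivisibleBy (Additive Circle) ℤ :=
  divisibleByOfSMulRightSurj (Additive Circle) ℤ (by
    intro n hn z
    have ht := Circle.exp_arg (Additive.toMul z)
    refine ⟨Additive.ofMul (Circle.exp (Complex.arg (Additive.toMul z : Circle) / n)), ?_⟩
    show Additive.ofMul ((Circle.exp (Complex.arg (Additive.toMul z : Circle) / n)) ^ n) = z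
    rw [← Circle.exp_zsmul, zsmul_eq_mul, mul_div_cancel₀ _ (Int.cast_ne_zero.2 hn), ht]
    rfl)

/-- extension of characters -/
theorem extend_char {A : Type u} [CommGroup A] (N : Subgroup A) (χ : N →* Circle) :
    ∃ ψ : A →* Circle, ∀ x : N, ψ x = χ x := by
  let ψ0 : Additive N →+ Additive Circle := MonoidHom.toAdditive χ
  let ι : Additive N →+ Additive A := MonoidHom.toAdditive N.subtype
  obtain ⟨g, hg⟩ := (Module.Baer.of_divisible (Additive Circle)).extension_property_addMonoidHom ι
    (fun x y hxy => by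
      have : (Additive.toMul x).1 = (Additive.toMul y).1 := hxy
      exact Additive.toMul.injective (Subtype.ext this)) ψ0
  refine ⟨AddMonoidHom.toMultiplicative g, fun x => ?_⟩
  exact DFunLike.congr_fun hg (Additive.ofMul x)

section step

variable {A : Type u} [CommGroup A] [TopologicalSpace A] [IsTopologicalGroup A]
  [LocallyCompactSpace A] [T2Space A]

/-- the closure of the subgroup generated by `x` is compact -/
def Cp (x : A) : Prop := IsCompact (closure (Subgroup.zpowers x : Set A))

theorem cp_of_infinite {x : A} {K : Set A} (hK : IsCompact K)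
    (hinf : {k : ℤ | x ^ k ∈ K}.Infinite) : Cp x := by
  have := lemB x K hK hinf
  rwa [Subgroup.topologicalClosure_coe] at this

theorem exists_compact_closure (F : Finset A) (hF : ∀ f ∈ F, Cp f) :
    ∃ C : Set A, IsCompact C ∧ (Subgroup.closure (F : Set A) : Set A) ⊆ C := by
  classical
  induction F using Finset.induction_on with
  | empty =>
    refine ⟨{1}, isCompact_singleton, ?_⟩
    rw [Finset.coe_empty, Subgroup.closure_empty]
    exact subset_rfl
  | insert f F hf ih =>
    obtain ⟨C, hC, hFC⟩ := ih fun g hg => hF g (Finset.mem_insert_of_mem hg)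
    refine ⟨closure (Subgroup.zpowers f : Set A) * C,
      (hF f (Finset.mem_insert_self _ _)).mul hC, ?_⟩
    intro y hy
    rw [Finset.coe_insert, Set.insert_eq, Subgroup.closure_union, SetLike.mem_coe,
      Subgroup.mem_sup] at hy
    obtain ⟨a, ha, b, hb, rfl⟩ := hy
    rw [← Subgroup.zpowers_eq_closure] at ha
    exact Set.mul_mem_mul (subset_closure ha) (hFC hb)

theorem step_zero (F : Finset A) (U : Set A) (hU : IsCompact U)
    (hFU : ∀ x : A, ∃ f ∈ Subgroup.closure (F : Set A), ∃ u ∈ U, f * u = x)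
    (hF : ∀ f ∈ F, Cp f) (a : A) (ha : a ≠ 1) : ∃ χ : A →* Circle, Continuous χ ∧ χ a ≠ 1 := by
  obtain ⟨C, hC, hFC⟩ := exists_compact_closure F hF
  have hcomp : CompactSpace A := by
    refine ⟨?_⟩
    have h1 : (Set.univ : Set A) ⊆ C * U := by
      intro x _
      obtain ⟨f, hf, u, hu, rfl⟩ := hFU x
      exact Set.mul_mem_mul (hFC hf) hu
    rw [← Set.eq_univ_of_univ_subset h1]
    exact hC.mul hU
  obtain ⟨χ, hχ⟩ := Pool.LatH472.chars a ha
  exact ⟨χ.toMonoidHom, χ.continuous_toFun, hχ⟩

theorem closed_of_finite (D : Subgroup A) (hD : ∀ K : Set A, IsCompact K → ((D : Set A) ∩ K).Finite) :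
    IsClosed (D : Set A) := by
  rw [← closure_subset_iff_isClosed]
  intro y hy
  obtain ⟨K, hK, hyK⟩ := exists_compact_mem_nhds y
  have h1 : y ∈ closure ((D : Set A) ∩ K) := by
    rw [mem_closure_iff_nhds]
    intro V hV
    obtain ⟨z, hz1, hz2⟩ := mem_closure_iff_nhds.1 hy (V ∩ K) (Filter.inter_mem hV hyK)
    exact ⟨z, hz1.1, hz2, hz1.2⟩
  rw [(hD K hK).isClosed.closure_eq] at h1
  exact h1.1

end step

theorem step (k : ℕ) : ∀ (A : Type u) [CommGroup A] [TopologicalSpace A] [IsTopologicalGroup A]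
    [LocallyCompactSpace A] [T2Space A] (F : Finset A) (N : Finset A) (U : Set A), IsCompact U →
    (∀ x : A, ∃ f ∈ Subgroup.closure (F : Set A), ∃ u ∈ U, f * u = x) →
    (∀ f ∈ F, f ∉ N → Cp f) → N.card ≤ k →
    ∀ a : A, a ≠ 1 → ∃ χ : A →* Circle, Continuous χ ∧ χ a ≠ 1 := by
  classical
  induction k with
  | zero =>
    intro A _ _ _ _ _ F N U hU hFU hF hN a ha
    have hN0 : N = ∅ := Finset.card_eq_zero.1 (Nat.le_zero.1 hN)
    exact step_zero F U hU hFU (fun f hf => hF f hf (by rw [hN0]; exact Finset.notMem_empty f)) a ha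
  | succ k ih =>
    intro A _ _ _ _ _ F N U hU hFU hF hN a ha
    by_cases hall : ∀ f ∈ F, Cp f
    · exact step_zero F U hU hFU hall a ha
    push Not at hall
    obtain ⟨x, hxF, hx⟩ := hall
    have hxN : x ∈ N := by
      by_contra h
      exact hx (hF x hxF h)
    have hfin : ∀ K : Set A, IsCompact K → {k : ℤ | x ^ k ∈ K}.Finite := by
      intro K hK
      by_contra h
      exact hx (cp_of_infinite hK h)
    have hfin2 : ∀ n : ℤ, ∀ K : Set A, IsCompact K →
        ((Subgroup.zpowers (x ^ n) : Set A) ∩ K).Finite := by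
      intro n K hK
      refine ((hfin K hK).image fun k : ℤ => x ^ k).subset ?_
      rintro y ⟨hy, hyK⟩
      obtain ⟨j, rfl⟩ := Subgroup.mem_zpowers_iff.1 hy
      rw [← zpow_mul] at hyK ⊢
      exact ⟨n * j, hyK, rfl⟩
    have hord : ∀ l : ℤ, x ^ l = 1 → l = 0 := by
      intro l hl
      by_contra hl0
      have h1 : (Set.range fun j : ℤ => l * j).Infinite :=
        Set.infinite_range_of_injective fun i j hij => mul_left_cancel₀ hl0 hij
      apply h1
      refine (hfin {1} isCompact_singleton).subset ?_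
      rintro _ ⟨j, rfl⟩
      show x ^ (l * j) ∈ ({1} : Set A)
      rw [zpow_mul, hl, one_zpow]
      rfl
    obtain ⟨n, hn, han⟩ : ∃ n : ℤ, n ≠ 0 ∧ a ∉ Subgroup.zpowers (x ^ n) := by
      by_cases hax : a ∈ Subgroup.zpowers x
      · obtain ⟨m, rfl⟩ := Subgroup.mem_zpowers_iff.1 hax
        have hm : m ≠ 0 := by
          rintro rfl
          exact ha (zpow_zero x)
        refine ⟨|m| + 1, by positivity, fun h => ?_⟩
        obtain ⟨j, hj⟩ := Subgroup.mem_zpowers_iff.1 h
        rw [← zpow_mul] at hj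
        have h1 : (|m| + 1) * j - m = 0 := by
          apply hord
          rw [zpow_sub, hj, mul_inv_cancel]
        have h2 : (|m| + 1) * |j| = |m| := by
          have h3 : |(|m| + 1) * j| = |m| := by rw [sub_eq_zero.1 h1]
          rwa [abs_mul, abs_of_pos (by positivity : (0 : ℤ) < |m| + 1)] at h3
        have h3 : 0 < |m| := abs_pos.2 hm
        have h4 : 0 < |j| := by
          rw [abs_pos]
          rintro rfl
          rw [abs_zero, mul_zero] at h2
          omega
        nlinarith
      · exact ⟨1, one_ne_zero, by rwa [zpow_one]⟩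
    set D := Subgroup.zpowers (x ^ n) with hD
    have hDc : IsClosed (D : Set A) := closed_of_finite D (hfin2 n)
    let π : A →* A ⧸ D := QuotientGroup.mk' D
    have hπ : Continuous π := QuotientGroup.continuous_mk
    have hπs : Function.Surjective π := QuotientGroup.mk'_surjective D
    have hcpπ : ∀ f : A, Cp f → Cp (π f) := by
      intro f hf
      have h1 : IsCompact (π '' closure (Subgroup.zpowers f : Set A)) := hf.image hπ
      refine h1.of_isClosed_subset isClosed_closure ?_
      apply closure_minimal _ h1.isClosed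
      intro y hy
      obtain ⟨j, rfl⟩ := Subgroup.mem_zpowers_iff.1 hy
      exact ⟨f ^ j, subset_closure (Subgroup.zpow_mem_zpowers f j), map_zpow π f j⟩
    have hcpx : Cp (π x) := by
      have h1 : (π x) ^ n = 1 := by
        rw [← map_zpow]
        exact (QuotientGroup.eq_one_iff (x ^ n)).2 (Subgroup.mem_zpowers _)
      have h2 : (Subgroup.zpowers (π x) : Set (A ⧸ D)).Finite := by
        have h3 : IsOfFinOrder (π x) := isOfFinOrder_iff_zpow_eq_one.2 ⟨n, hn, h1⟩
        exact h3.finite_zpowers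
      show IsCompact (closure _)
      rw [h2.isClosed.closure_eq]
      exact h2.isCompact
    obtain ⟨χ, hχc, hχa⟩ := ih (A ⧸ D) (F.image π) ((N.erase x).image π) (π '' U) (hU.image hπ) (by
      intro y
      obtain ⟨y, rfl⟩ := hπs y
      obtain ⟨f, hf, v, hv, rfl⟩ := hFU y
      refine ⟨π f, ?_, π v, ⟨v, hv, rfl⟩, (map_mul π f v).symm⟩
      rw [Finset.coe_image, ← MonoidHom.map_closure]
      exact ⟨f, hf, rfl⟩) (by
      intro y hy hyN
      obtain ⟨f, hf, rfl⟩ := Finset.mem_image.1 hy
      by_cases hfx : f = x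
      · rw [hfx]
        exact hcpx
      · apply hcpπ
        apply hF f hf
        intro hfN
        exact hyN (Finset.mem_image_of_mem π (Finset.mem_erase.2 ⟨hfx, hfN⟩))) (by
      refine Finset.card_image_le.trans ?_
      rw [Finset.card_erase_of_mem hxN]
      omega) (π a) (by
      intro h
      exact han ((QuotientGroup.eq_one_iff a).1 h))
    exact ⟨χ.comp π, hχc.comp hπ, hχa⟩

/-- **Continuous characters separate the points of a locally compact Hausdorff abelian group.** -/
theorem lca_chars {A : Type u} [CommGroup A] [TopologicalSpace A] [IsTopologicalGroup A]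
    [LocallyCompactSpace A] [T2Space A] (a : A) (ha : a ≠ 1) :
    ∃ χ : A →* Circle, Continuous χ ∧ χ a ≠ 1 := by
  classical
  obtain ⟨U0, hU0, hU0n⟩ := exists_compact_mem_nhds (1 : A)
  set U1 := U0 ∪ {a} with hU1
  have hU1c : IsCompact U1 := hU0.union isCompact_singleton
  set V := U1 ∪ U1⁻¹ with hV
  have hVc : IsCompact V := hU1c.union hU1c.inv
  have hVn : V ∈ 𝓝 (1 : A) :=
    Filter.mem_of_superset hU0n (Set.subset_union_left.trans Set.subset_union_left)
  have hVinv : ∀ v ∈ V, v⁻¹ ∈ V := by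
    rintro v (hv | hv)
    · exact Or.inr (by simpa using hv)
    · exact Or.inl hv
  have haV : a ∈ V := Or.inl (Or.inr rfl)
  have h1V : (1 : A) ∈ V := mem_of_mem_nhds hVn
  set A0 := Subgroup.closure V with hA0
  have hVA : V ⊆ A0 := Subgroup.subset_closure
  have hopen : IsOpen (A0 : Set A) :=
    Subgroup.isOpen_of_mem_nhds A0 (Filter.mem_of_superset hVn hVA)
  -- the finite set
  obtain ⟨F, hFV, hF⟩ := (hVc.mul hVc).elim_nhds_subcover (fun f => (fun y => f⁻¹ * y) ⁻¹' V)
    (by
      intro f _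
      have hc : ContinuousAt (fun y : A => f⁻¹ * y) f := by fun_prop
      apply hc
      simpa using hVn)
  have hFV' : (F : Set A) ⊆ A0 := by
    intro f hf
    obtain ⟨v, hv, w, hw, rfl⟩ := hFV f hf
    exact A0.mul_mem (hVA hv) (hVA hw)
  have hgen : ∀ y ∈ A0, ∃ f ∈ Subgroup.closure (F : Set A), ∃ v ∈ V, f * v = y := by
    intro y hy
    rw [hA0] at hy
    induction hy using Subgroup.closure_induction with
    | mem v hv => exact ⟨1, one_mem _, v, hv, one_mul v⟩
    | one => exact ⟨1, one_mem _, 1, h1V, one_mul 1⟩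
    | mul y z _ _ hy hz =>
      obtain ⟨f, hf, v, hv, rfl⟩ := hy
      obtain ⟨g, hg, w, hw, rfl⟩ := hz
      have h1 := hF (Set.mul_mem_mul hv hw)
      simp only [Set.mem_iUnion] at h1
      obtain ⟨e, heF, he⟩ := h1
      refine ⟨f * g * e, mul_mem (mul_mem hf hg) (Subgroup.subset_closure heF), e⁻¹ * (v * w), he,
        ?_⟩
      rw [mul_assoc, mul_inv_cancel_left, mul_mul_mul_comm]
    | inv y _ hy =>
      obtain ⟨f, hf, v, hv, rfl⟩ := hy
      exact ⟨f⁻¹, inv_mem hf, v⁻¹, hVinv v hv, by rw [mul_inv]⟩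
  have hlc : LocallyCompactSpace A0 := hopen.locallyCompactSpace
  let F0 : Finset A0 := F.preimage Subtype.val Subtype.val_injective.injOn
  have hF0 : Subtype.val '' (F0 : Set A0) = (F : Set A) := by
    rw [Finset.coe_preimage, Set.image_preimage_eq_inter_range, Subtype.range_coe]
    exact Set.inter_eq_left.2 hFV'
  let V0 : Set A0 := Subtype.val ⁻¹' V
  have hV0 : IsCompact V0 := by
    rw [Topology.IsEmbedding.subtypeVal.isCompact_iff, Set.image_preimage_eq_inter_range,
      Subtype.range_coe]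
    have : V ∩ (A0 : Set A) = V := Set.inter_eq_left.2 hVA
    rw [this]
    exact hVc
  obtain ⟨χ0, hχ0c, hχ0a⟩ := step F0.card A0 F0 F0 V0 hV0 (by
    intro y
    obtain ⟨f, hf, v, hv, hfv⟩ := hgen y y.2
    have h1 : f ∈ (Subgroup.closure (F0 : Set A0)).map A0.subtype := by
      rw [MonoidHom.map_closure]
      have : (A0.subtype : A0 → A) '' (F0 : Set A0) = (F : Set A) := hF0
      rw [this]
      exact hf
    obtain ⟨f0, hf0, hf0f⟩ := h1
    refine ⟨f0, hf0, ⟨v, hVA hv⟩, hv, ?_⟩
    apply Subtype.ext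
    show (f0 : A) * v = y
    rw [← hfv]
    congr 1) (fun f hf hfn => absurd hf hfn) le_rfl ⟨a, hVA haV⟩ (by
    intro h
    exact ha (congrArg Subtype.val h))
  obtain ⟨χ, hχ⟩ := extend_char A0 χ0
  refine ⟨χ, ?_, ?_⟩
  · apply continuous_of_continuousAt_one χ
    have h1 : ContinuousOn χ (A0 : Set A) := by
      rw [continuousOn_iff_continuous_domRestrict]
      have : (A0 : Set A).domRestrict χ = χ0 := funext hχ
      rw [this]
      exact hχ0c
    exact h1.continuousAt (hopen.mem_nhds A0.one_mem)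
  · have := hχ ⟨a, hVA haV⟩
    rw [this]
    exact hχ0a

end Pool.Agent.R746.LCA
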