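import Mathlib
import Pool.Agent.R121.SemiBaxter

/-!
# Ascent sequences avoiding 210: the generating tree
(adapted from the weak ascent sequences of `Results/MP_5aad23_co/Weak210.lean`)
-/

namespace Pool.Agent.R746.AS

open Finset Pool.Agent.R121 Pool.Agent.R121.SB

/-- The number of ascents among the first `i` entries of the sequence `a`. -/
def asc {n : ℕ} (a : Fin n → ℕ) (i : ℕ) : ℕ :=
  ∑ j : Fin n, if 0 < j.1 ∧ j.1 < i ∧ a ⟨j.1 - 1, by omega⟩ < a j then 1 else 0

/-- Ascent sequences of length `n`, indices counted from `0`. -/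
def IsAscentSeq {n : ℕ} (a : Fin n → ℕ) : Prop :=
  ∀ i : Fin n, (i.1 = 0 → a i = 0) ∧ (0 < i.1 → a i ≤ 1 + asc a i.1)

/-- `a` avoids the pattern `210`. -/
def Avoids210 {n : ℕ} (a : Fin n → ℕ) : Prop :=
  ¬ ∃ i j k : Fin n, i < j ∧ j < k ∧ a k < a j ∧ a j < a i

attribute [local instance] Classical.propDecidable

/-- the transfer operator of the generating tree -/
def TA (f : ℕ → ℕ → ℕ) (h k : ℕ) : ℕ :=
  f h k + ∑ i ∈ Icc 1 (h - 1), f i (k + 1) + ∑ j ∈ Icc 1 k, f (h + j) (k + 1 - j)

/-! ### ascent sequences -/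

/-- number of weak ascents -/
def wa {n : ℕ} (a : Fin n → ℕ) : ℕ := asc a n

/-- the largest entry which is smaller than a previous entry -/
noncomputable def lo {n : ℕ} (a : Fin n → ℕ) : ℕ :=
  (univ.filter fun j : Fin n => ∃ i, i < j ∧ a j < a i).sup a

lemma snc_mk {n : ℕ} (a : Fin n → ℕ) (v i : ℕ) (h : i < n) (h' : i < n + 1) :
    (Fin.snoc (α := fun _ => ℕ) a v : Fin (n + 1) → ℕ) ⟨i, h'⟩ = a ⟨i, h⟩ := by
  have : (⟨i, h'⟩ : Fin (n + 1)) = (⟨i, h⟩ : Fin n).castSucc := rfl
  rw [this, Fin.snoc_castSucc]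

lemma asc_snoc_le {n : ℕ} (a : Fin n → ℕ) (v : ℕ) {i : ℕ} (hi : i ≤ n) :
    asc (Fin.snoc (α := fun _ => ℕ) a v : Fin (n + 1) → ℕ) i = asc a i := by
  unfold asc
  rw [Fin.sum_univ_castSucc, if_neg (by simp; omega), add_zero]
  apply sum_congr rfl
  intro j _
  have h1 : (Fin.snoc (α := fun _ => ℕ) a v : Fin (n + 1) → ℕ) j.castSucc = a j := by rw [Fin.snoc_castSucc]
  have h2 : (Fin.snoc (α := fun _ => ℕ) a v : Fin (n + 1) → ℕ) ⟨j.castSucc.1 - 1, by omega⟩ = a ⟨j.1 - 1, by omega⟩ :=
    snc_mk a v _ (by simp only [Fin.val_castSucc]; omega) _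
  rw [h1, h2]
  rfl

lemma wa_snoc {m : ℕ} (a : Fin (m + 1) → ℕ) (v : ℕ) :
    wa (Fin.snoc (α := fun _ => ℕ) a v : Fin (m + 2) → ℕ) = wa a + if a (Fin.last m) < v then 1 else 0 := by
  unfold wa asc
  rw [Fin.sum_univ_castSucc]
  congr 1
  · apply sum_congr rfl
    intro j _
    have h1 : (Fin.snoc (α := fun _ => ℕ) a v : Fin (m + 2) → ℕ) j.castSucc = a j := by rw [Fin.snoc_castSucc]
    have h2 : (Fin.snoc (α := fun _ => ℕ) a v : Fin (m + 2) → ℕ) ⟨j.castSucc.1 - 1, by omega⟩ = a ⟨j.1 - 1, by omega⟩ :=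
      snc_mk a v _ (by omega) _
    rw [h1, h2]
    have := j.2
    simp only [Fin.val_castSucc]
    congr 1
    apply propext
    constructor
    · rintro ⟨h3, h4, h5⟩
      exact ⟨h3, by omega, h5⟩
    · rintro ⟨h3, h4, h5⟩
      exact ⟨h3, by omega, h5⟩
  · have h1 : (Fin.snoc (α := fun _ => ℕ) a v : Fin (m + 2) → ℕ) (Fin.last (m + 1)) = v := by rw [Fin.snoc_last]
    have h2 : (Fin.snoc (α := fun _ => ℕ) a v : Fin (m + 2) → ℕ) ⟨(Fin.last (m + 1)).1 - 1, by omega⟩ = a (Fin.last m) :=
      snc_mk a v _ (by simp) _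
    rw [h1, h2]
    simp

lemma was_snoc {m : ℕ} (a : Fin (m + 1) → ℕ) (v : ℕ) :
    IsAscentSeq (Fin.snoc (α := fun _ => ℕ) a v : Fin (m + 2) → ℕ) ↔ IsAscentSeq a ∧ v ≤ 1 + wa a := by
  constructor
  · intro H
    constructor
    · intro i
      have := H i.castSucc
      rw [Fin.snoc_castSucc, Fin.val_castSucc, asc_snoc_le _ _ (by omega)] at this
      exact this
    · have := (H (Fin.last (m + 1))).2 (by simp)
      rw [Fin.snoc_last, Fin.val_last, asc_snoc_le _ _ le_rfl] at this
      exact this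
  · rintro ⟨H, hv⟩ i
    induction i using Fin.lastCases with
    | last =>
      rw [Fin.snoc_last, Fin.val_last, asc_snoc_le _ _ le_rfl]
      exact ⟨by omega, fun _ => hv⟩
    | cast i =>
      rw [Fin.snoc_castSucc, Fin.val_castSucc, asc_snoc_le _ _ (by omega)]
      exact H i

lemma av_snoc {n : ℕ} (a : Fin n → ℕ) (v : ℕ) :
    Avoids210 (Fin.snoc (α := fun _ => ℕ) a v : Fin (n + 1) → ℕ) ↔ Avoids210 a ∧ lo a ≤ v := by
  constructor
  · intro H
    constructor
    · rintro ⟨i, j, k, h1, h2, h3, h4⟩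
      exact H ⟨i.castSucc, j.castSucc, k.castSucc, by simpa using h1, by simpa using h2,
        by simpa using h3, by simpa using h4⟩
    · apply Finset.sup_le
      intro j hj
      simp only [mem_filter, mem_univ, true_and] at hj
      obtain ⟨i, h1, h2⟩ := hj
      by_contra hlt
      apply H
      refine ⟨i.castSucc, j.castSucc, Fin.last n, by simpa using h1, Fin.castSucc_lt_last j, ?_, ?_⟩
      · rw [Fin.snoc_last, Fin.snoc_castSucc]
        omega
      · rw [Fin.snoc_castSucc, Fin.snoc_castSucc]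
        exact h2
  · rintro ⟨H, hv⟩ ⟨i, j, k, h1, h2, h3, h4⟩
    induction j using Fin.lastCases with
    | last => exact absurd (lt_of_lt_of_le h2 (Fin.le_last _)) (lt_irrefl _)
    | cast j =>
      induction i using Fin.lastCases with
      | last => exact absurd (lt_of_lt_of_le h1 (Fin.le_last _)) (lt_irrefl _)
      | cast i =>
        rw [Fin.snoc_castSucc, Fin.snoc_castSucc] at h4
        induction k using Fin.lastCases with
        | last =>
          rw [Fin.snoc_last, Fin.snoc_castSucc] at h3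
          have : a j ≤ lo a := by
            unfold lo
            apply Finset.le_sup (f := a)
            simp only [mem_filter, mem_univ, true_and]
            exact ⟨i, by simpa using h1, h4⟩
          omega
        | cast k =>
          rw [Fin.snoc_castSucc, Fin.snoc_castSucc] at h3
          exact H ⟨i, j, k, by simpa using h1, by simpa using h2, h3, h4⟩

lemma lo_snoc {m : ℕ} (a : Fin (m + 1) → ℕ) (v : ℕ) :
    lo (Fin.snoc (α := fun _ => ℕ) a v : Fin (m + 2) → ℕ) = if v < mx a then max (lo a) v else lo a := by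
  have hle : ∀ i, a i ≤ mx a := le_mx a
  apply le_antisymm
  · apply Finset.sup_le
    intro j hj
    simp only [mem_filter, mem_univ, true_and] at hj
    obtain ⟨i, h1, h2⟩ := hj
    induction i using Fin.lastCases with
    | last => exact absurd (lt_of_lt_of_le h1 (Fin.le_last _)) (lt_irrefl _)
    | cast i =>
      rw [Fin.snoc_castSucc] at h2
      induction j using Fin.lastCases with
      | last =>
        rw [Fin.snoc_last] at h2 ⊢
        rw [if_pos (lt_of_lt_of_le h2 (hle i))]
        exact le_max_right _ _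
      | cast j =>
        rw [Fin.snoc_castSucc] at h2 ⊢
        have h3 : a j ≤ lo a := by
          unfold lo
          apply Finset.le_sup (f := a)
          simp only [mem_filter, mem_univ, true_and]
          exact ⟨i, by simpa using h1, h2⟩
        split_ifs
        · exact h3.trans (le_max_left _ _)
        · exact h3
  · have h3 : lo a ≤ lo (Fin.snoc (α := fun _ => ℕ) a v : Fin (m + 2) → ℕ) := by
      apply Finset.sup_le
      intro j hj
      simp only [mem_filter, mem_univ, true_and] at hj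
      obtain ⟨i, h1, h2⟩ := hj
      have h4 : (Fin.snoc (α := fun _ => ℕ) a v : Fin (m + 2) → ℕ) j.castSucc ≤ lo (Fin.snoc (α := fun _ => ℕ) a v : Fin (m + 2) → ℕ) := by
        unfold lo
        apply Finset.le_sup (f := (Fin.snoc (α := fun _ => ℕ) a v : Fin (m + 2) → ℕ))
        simp only [mem_filter, mem_univ, true_and]
        refine ⟨i.castSucc, by simpa using h1, ?_⟩
        rw [Fin.snoc_castSucc, Fin.snoc_castSucc]
        exact h2
      rwa [Fin.snoc_castSucc] at h4
    split_ifs with h5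
    · apply max_le h3
      obtain ⟨i, hi⟩ := exists_mx a
      have h4 : (Fin.snoc (α := fun _ => ℕ) a v : Fin (m + 2) → ℕ) (Fin.last (m + 1)) ≤
          lo (Fin.snoc (α := fun _ => ℕ) a v : Fin (m + 2) → ℕ) := by
        unfold lo
        apply Finset.le_sup (f := (Fin.snoc (α := fun _ => ℕ) a v : Fin (m + 2) → ℕ))
        simp only [mem_filter, mem_univ, true_and]
        refine ⟨i.castSucc, Fin.castSucc_lt_last i, ?_⟩
        rw [Fin.snoc_castSucc, Fin.snoc_last, hi]
        exact h5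
      rwa [Fin.snoc_last] at h4
    · exact h3

/-- the first label -/
noncomputable def wh {m : ℕ} (a : Fin (m + 1) → ℕ) : ℕ :=
  if a (Fin.last m) = mx a then mx a - lo a + 1 else mx a - lo a

/-- the second label -/
noncomputable def wk {m : ℕ} (a : Fin (m + 1) → ℕ) : ℕ :=
  if a (Fin.last m) = mx a then wa a + 1 - mx a else wa a + 2 - mx a

/-- invariants -/
def Inv {m : ℕ} (a : Fin (m + 1) → ℕ) : Prop :=
  mx a ≤ wa a ∧ lo a ≤ mx a ∧ (a (Fin.last m) ≠ mx a → a (Fin.last m) = lo a ∧ lo a < mx a)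

lemma inv_snoc {m : ℕ} (a : Fin (m + 1) → ℕ) (v : ℕ) (h : Inv a) (h1 : lo a ≤ v)
    (h2 : v ≤ 1 + wa a) : Inv (Fin.snoc (α := fun _ => ℕ) a v : Fin (m + 2) → ℕ) := by
  obtain ⟨h3, h4, h5⟩ := h
  have hlast := le_mx a (Fin.last m)
  unfold Inv
  rw [mx_snoc, lo_snoc, wa_snoc, Fin.snoc_last]
  by_cases h6 : v < mx a
  · rw [if_pos h6, max_eq_left h6.le, max_eq_right h1]
    refine ⟨by omega, h6.le, fun _ => ⟨rfl, h6⟩⟩
  · rw [if_neg h6, max_eq_right (by omega)]
    refine ⟨?_, by omega, fun h => absurd rfl h⟩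
    split_ifs <;> omega

lemma stepW {m : ℕ} (a : Fin (m + 1) → ℕ) (hI : Inv a) (hwm : wa a ≤ m) (f : ℕ → ℕ → ℕ) :
    ∑ v ∈ range (m + 2), (if lo a ≤ v ∧ v ≤ 1 + wa a then
      f (wh (Fin.snoc (α := fun _ => ℕ) a v : Fin (m + 2) → ℕ)) (wk (Fin.snoc (α := fun _ => ℕ) a v : Fin (m + 2) → ℕ)) else 0) =
      TA f (wh a) (wk a) := by
  obtain ⟨h3, h4, h5⟩ := hI
  have hlast := le_mx a (Fin.last m)
  set M := mx a with hM
  set b := lo a with hb
  set w := wa a with hw
  have hlow : ∀ v, b ≤ v → v < M → wh (Fin.snoc (α := fun _ => ℕ) a v : Fin (m + 2) → ℕ) = M - v ∧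
      wk (Fin.snoc (α := fun _ => ℕ) a v : Fin (m + 2) → ℕ) = w + (if a (Fin.last m) < v then 1 else 0) + 2 - M := by
    intro v h6 h7
    unfold wh wk
    rw [mx_snoc, lo_snoc, wa_snoc, Fin.snoc_last, ← hM, ← hb, ← hw, if_pos h7, max_eq_left h7.le,
      max_eq_right h6, if_neg (by omega), if_neg (by omega)]
    exact ⟨rfl, rfl⟩
  have htop : ∀ v, M ≤ v → wh (Fin.snoc (α := fun _ => ℕ) a v : Fin (m + 2) → ℕ) = v - b + 1 ∧
      wk (Fin.snoc (α := fun _ => ℕ) a v : Fin (m + 2) → ℕ) =
        w + (if a (Fin.last m) < v then 1 else 0) + 1 - v := by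
    intro v h6
    unfold wh wk
    rw [mx_snoc, lo_snoc, wa_snoc, Fin.snoc_last, ← hM, ← hb, ← hw, max_eq_right h6, if_pos rfl,
      if_pos rfl, if_neg (show ¬ v < M by omega)]
    exact ⟨rfl, rfl⟩
  rw [← sum_filter]
  have hset : (range (m + 2)).filter (fun v => b ≤ v ∧ v ≤ 1 + w) =
      Ico b M ∪ Ico M (w + 2) := by
    ext v
    simp only [mem_filter, mem_range, mem_union, mem_Ico]
    omega
  rw [hset, sum_union (by
    rw [Finset.disjoint_left]
    intro u
    simp only [mem_Ico]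
    omega)]
  by_cases h6 : a (Fin.last m) = M
  · -- top
    have l1 : wh a = M - b + 1 := by unfold wh; rw [if_pos h6]
    have l2 : wk a = w + 1 - M := by unfold wk; rw [if_pos h6]
    rw [l1, l2]
    have s1 : ∑ v ∈ Ico b M, f (wh (Fin.snoc (α := fun _ => ℕ) a v : Fin (m + 2) → ℕ)) (wk (Fin.snoc (α := fun _ => ℕ) a v : Fin (m + 2) → ℕ)) =
        ∑ i ∈ Icc 1 (M - b), f i (w + 1 - M + 1) := by
      refine Finset.sum_bij' (fun v _ => M - v) (fun i _ => M - i) ?_ ?_ ?_ ?_ ?_
      · intro v hv; simp only [mem_Ico, mem_Icc] at hv ⊢; omega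
      · intro v hv; simp only [mem_Ico, mem_Icc] at hv ⊢; omega
      · intro v hv; simp only [mem_Ico] at hv; omega
      · intro v hv; simp only [mem_Icc] at hv; omega
      · intro v hv
        rw [mem_Ico] at hv
        obtain ⟨h7, h8⟩ := hlow v hv.1 hv.2
        rw [h7, h8, if_neg (by omega)]
        congr 1
        omega
    have s2 : ∑ v ∈ Ico M (w + 2), f (wh (Fin.snoc (α := fun _ => ℕ) a v : Fin (m + 2) → ℕ))
        (wk (Fin.snoc (α := fun _ => ℕ) a v : Fin (m + 2) → ℕ)) =
        f (M - b + 1) (w + 1 - M) +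
          ∑ i ∈ Icc 1 (w + 1 - M), f (M - b + 1 + i) (w + 1 - M + 1 - i) := by
      rw [Finset.sum_eq_sum_Ico_succ_bot (by omega)]
      obtain ⟨h7, h8⟩ := htop M le_rfl
      rw [h7, h8, if_neg (by omega), Nat.add_zero]
      congr 1
      refine Finset.sum_bij' (fun v _ => v - M) (fun i _ => i + M) ?_ ?_ ?_ ?_ ?_
      · intro v hv; simp only [mem_Ico, mem_Icc] at hv ⊢; omega
      · intro v hv; simp only [mem_Ico, mem_Icc] at hv ⊢; omega
      · intro v hv; simp only [mem_Ico] at hv; omega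
      · intro v hv; simp only [mem_Icc] at hv; omega
      · intro v hv
        simp only [mem_Ico] at hv
        obtain ⟨h7, h8⟩ := htop v (by omega)
        rw [h7, h8, if_pos (by omega)]
        congr 1 <;> omega
    rw [s1, s2]
    unfold TA
    rw [show M - b + 1 - 1 = M - b by omega]
    ring
  · -- low
    obtain ⟨h7, h8⟩ := h5 h6
    have l1 : wh a = M - b := by unfold wh; rw [if_neg h6]
    have l2 : wk a = w + 2 - M := by unfold wk; rw [if_neg h6]
    rw [l1, l2]
    have s1 : ∑ v ∈ Ico b M, f (wh (Fin.snoc (α := fun _ => ℕ) a v : Fin (m + 2) → ℕ)) (wk (Fin.snoc (α := fun _ => ℕ) a v : Fin (m + 2) → ℕ)) =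
        f (M - b) (w + 2 - M) + ∑ i ∈ Icc 1 (M - b - 1), f i (w + 2 - M + 1) := by
      rw [Finset.sum_eq_sum_Ico_succ_bot (by omega)]
      obtain ⟨h9, h10⟩ := hlow b le_rfl h8
      rw [h9, h10, if_neg (by omega), Nat.add_zero]
      congr 1
      refine Finset.sum_bij' (fun v _ => M - v) (fun i _ => M - i) ?_ ?_ ?_ ?_ ?_
      · intro v hv; simp only [mem_Ico, mem_Icc] at hv ⊢; omega
      · intro v hv; simp only [mem_Ico, mem_Icc] at hv ⊢; omega
      · intro v hv; simp only [mem_Ico] at hv; omega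
      · intro v hv; simp only [mem_Icc] at hv; omega
      · intro v hv
        rw [mem_Ico] at hv
        obtain ⟨h7, h8⟩ := hlow v (by omega) hv.2
        rw [h7, h8, if_pos (by omega)]
        congr 1
        omega
    have s2 : ∑ v ∈ Ico M (w + 2), f (wh (Fin.snoc (α := fun _ => ℕ) a v : Fin (m + 2) → ℕ))
        (wk (Fin.snoc (α := fun _ => ℕ) a v : Fin (m + 2) → ℕ)) =
          ∑ i ∈ Icc 1 (w + 2 - M), f (M - b + i) (w + 2 - M + 1 - i) := by
      refine Finset.sum_bij' (fun v _ => v + 1 - M) (fun i _ => i + M - 1) ?_ ?_ ?_ ?_ ?_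
      · intro v hv; simp only [mem_Ico, mem_Icc] at hv ⊢; omega
      · intro v hv; simp only [mem_Ico, mem_Icc] at hv ⊢; omega
      · intro v hv; simp only [mem_Ico] at hv; omega
      · intro v hv; simp only [mem_Icc] at hv; omega
      · intro v hv
        simp only [mem_Ico] at hv
        obtain ⟨h9, h10⟩ := htop v (by omega)
        rw [h9, h10, if_pos (by omega)]
        congr 1 <;> omega
    rw [s1, s2]
    rfl

/-- weighted count of the weak ascent sequences -/
noncomputable def WW (m : ℕ) (f : ℕ → ℕ → ℕ) : ℕ :=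
  ∑ e ∈ IS (m + 1), if IsAscentSeq e ∧ Avoids210 e then f (wh e) (wk e) else 0

lemma wa_le {m : ℕ} (a : Fin (m + 1) → ℕ) : wa a ≤ m := by
  unfold wa asc
  rw [Fin.sum_univ_succ]
  rw [if_neg (by simp), zero_add]
  calc _ ≤ ∑ _j : Fin m, 1 := sum_le_sum fun j _ => by split_ifs <;> omega
    _ = m := by simp

lemma inv_all : ∀ (m : ℕ) (a : Fin (m + 1) → ℕ), IsAscentSeq a → Avoids210 a → Inv a := by
  intro m
  induction m with
  | zero =>
    intro a h1 _
    have h2 : a (Fin.last 0) = 0 := (h1 (Fin.last 0)).1 rfl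
    have h3 : mx a = 0 := by
      apply Nat.le_zero.1
      apply Finset.sup_le
      intro i _
      have : i = Fin.last 0 := Fin.ext (by simp)
      rw [this, h2]
    have h4 : lo a = 0 := by
      unfold lo
      rw [filter_false_of_mem]
      · rfl
      · rintro j _ ⟨i, hi, _⟩
        rw [Fin.lt_def] at hi
        omega
    unfold Inv
    rw [h3, h4, h2]
    simp
  | succ m ih =>
    intro a h1 h2
    have h3 : a = (Fin.snoc (α := fun _ => ℕ) (fun i : Fin (m + 1) => a i.castSucc) (a (Fin.last (m + 1))) : Fin (m + 2) → ℕ) := by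
      funext i
      induction i using Fin.lastCases with
      | last => simp
      | cast i => simp
    rw [h3] at h1 h2 ⊢
    rw [was_snoc] at h1
    rw [av_snoc] at h2
    exact inv_snoc _ _ (ih _ h1.1 h2.1) h2.2 h1.2

lemma WW_succ (m : ℕ) (f : ℕ → ℕ → ℕ) : WW (m + 1) f = WW m (TA f) := by
  unfold WW
  rw [sum_IS]
  apply sum_congr rfl
  intro e he
  by_cases hτ : IsAscentSeq e ∧ Avoids210 e
  · rw [if_pos hτ, ← stepW e (inv_all m e hτ.1 hτ.2) (wa_le e) f]
    apply sum_congr rfl
    intro v _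
    by_cases hb : lo e ≤ v ∧ v ≤ 1 + wa e
    · rw [if_pos (by rw [was_snoc, av_snoc]; tauto), if_pos hb]
    · rw [if_neg (by rw [was_snoc, av_snoc]; tauto), if_neg hb]
  · rw [if_neg hτ]
    apply sum_eq_zero
    intro v _
    rw [if_neg]
    rw [was_snoc, av_snoc]
    tauto

lemma WW_zero (f : ℕ → ℕ → ℕ) : WW 0 f = f 1 1 := by
  unfold WW
  have h1 : IS 1 = {fun _ => 0} := by
    ext e
    simp only [IS, Fintype.mem_piFinset, mem_range, mem_singleton]
    constructor
    · intro h
      funext i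
      have := h i
      have := i.2
      omega
    · rintro rfl i
      simp
  change (∑ e ∈ IS 1, if IsAscentSeq e ∧ Avoids210 e then f (wh (m := 0) e) (wk (m := 0) e)
    else 0) = f 1 1
  rw [h1, sum_singleton]
  have hw : IsAscentSeq (fun _ : Fin 1 => 0) := fun i => ⟨fun _ => rfl, fun _ => by omega⟩
  have ha : Avoids210 (fun _ : Fin 1 => 0) := by
    rintro ⟨i, j, k, h1, _⟩
    have := Subsingleton.elim i j
    subst this
    exact absurd h1 (lt_irrefl _)
  rw [if_pos ⟨hw, ha⟩]
  have h3 : mx (fun _ : Fin 1 => 0) = 0 := by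
    unfold mx
    simp
  have h4 : lo (fun _ : Fin 1 => 0) = 0 := by
    unfold lo
    simp
  have h5 : wa (fun _ : Fin 1 => 0) = 0 := by
    unfold wa asc
    simp
  unfold wh wk
  rw [h3, h4, h5]
  simp

lemma WW_eq (m : ℕ) (f : ℕ → ℕ → ℕ) : WW m f = (TA^[m] f) 1 1 := by
  induction m generalizing f with
  | zero => exact WW_zero f
  | succ m ih => rw [WW_succ, ih, ← Function.iterate_succ_apply]

lemma entry_le {n : ℕ} (a : Fin n → ℕ) (h : IsAscentSeq a) (i : Fin n) : a i ≤ i := by
  rcases Nat.eq_zero_or_pos i.1 with h1 | h1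
  · rw [(h i).1 h1]
    omega
  · have h2 := (h i).2 h1
    have h3 : asc a i.1 ≤ i.1 - 1 := by
      unfold asc
      rw [← card_filter]
      have : (univ.filter fun j : Fin n => 0 < j.1 ∧ j.1 < i.1 ∧ a ⟨j.1 - 1, by omega⟩ < a j).card ≤
          (Ico 1 i.1).card := by
        refine card_le_card_of_injOn (fun j => j.1) ?_ ?_
        · intro j hj
          simp only [coe_filter, mem_univ, true_and, Set.mem_ofPred_eq] at hj
          simp only [coe_Ico, Set.mem_Ico]
          omega
        · intro j _ j' _ hjj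
          exact Fin.ext hjj
      rw [Nat.card_Ico] at this
      exact this
    omega

/-- the number of the ascent sequences avoiding `210` -/
theorem card_asc (m : ℕ) :
    Nat.card {a : Fin (m + 1) → ℕ // IsAscentSeq a ∧ Avoids210 a} =
      (TA^[m] (fun _ _ => 1)) 1 1 := by
  rw [← WW_eq]
  unfold WW
  rw [← card_filter, ← Fintype.card_coe, ← Nat.card_eq_fintype_card]
  apply Nat.card_congr
  refine Equiv.subtypeEquivRight ?_
  intro a
  simp only [mem_filter, IS, Fintype.mem_piFinset, mem_range]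
  constructor
  · intro h
    exact ⟨fun i => by have := entry_le a h.1 i; omega, h⟩
  · intro h
    exact h.2

end Pool.Agent.R746.AS
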