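import Mathlib
import Pool.Agent.R746.AS210

/-!
# The kernel-method algebra for 210-avoiding ascent sequences
-/

namespace Pool.Agent.R746.AS

open Finset Polynomial

/-- polynomials in `x` (inner variable) and `y` (outer variable) -/
abbrev RR := Polynomial (Polynomial ℤ)

/-- the inner variable -/
noncomputable def vx : RR := C X
/-- the outer variable -/
noncomputable def vy : RR := X

/-- setting `x = 0` -/
noncomputable def e0 : RR →+* RR := mapRingHom ((C : ℤ →+* ℤ[X]).comp (evalRingHom 0))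
/-- setting `y = 0` -/
noncomputable def e1 : RR →+* RR := (C : ℤ[X] →+* RR).comp (evalRingHom 0)

@[simp] lemma e0_x : e0 vx = 0 := by simp [e0, vx]
@[simp] lemma e0_y : e0 vy = vy := by simp [e0, vy]
@[simp] lemma e1_x : e1 vx = vx := by simp [e1, vx]
@[simp] lemma e1_y : e1 vy = 0 := by simp [e1, vy]

lemma vx_ne : vx ≠ 0 := by
  rw [vx, Ne, C_eq_zero]; exact X_ne_zero
lemma vy_ne : vy ≠ 0 := X_ne_zero
lemma vxy_ne : vx * vy ≠ 0 := mul_ne_zero vx_ne vy_ne

lemma vx_ne_vy : vx - vy ≠ 0 := by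
  intro h
  have h2 := congrArg e1 h
  rw [map_sub, e1_x, e1_y, map_zero, sub_zero] at h2
  exact vx_ne h2

lemma dvd_y (G : RR) : vy ∣ G - e1 G := by
  rw [vy, X_dvd_iff]
  simp [e1, coeff_zero_eq_eval_zero]

lemma dvd_x (G : RR) : vx ∣ G - e0 G := by
  rw [vx, C_dvd_iff_dvd_coeff]
  intro i
  rw [X_dvd_iff]
  simp [e0, coeff_zero_eq_eval_zero]

lemma exists_B (G : RR) : ∃ H : RR, vx * vy * H = vy * (G - e0 G) + vx * (G - e1 G) := by
  obtain ⟨H1, h1⟩ := dvd_x G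
  obtain ⟨H2, h2⟩ := dvd_y G
  exact ⟨H1 + H2, by rw [h1, h2]; ring⟩

/-- `x^a y^b ↦ [a>0] x^(a-1) y^b + [b>0] x^a y^(b-1)` -/
noncomputable def B0 (G : RR) : RR := (exists_B G).choose

lemma B0_spec (G : RR) : vx * vy * B0 G = vy * (G - e0 G) + vx * (G - e1 G) :=
  (exists_B G).choose_spec

/-- the additive map `B0` -/
noncomputable def BB : RR →+ RR :=
  AddMonoidHom.mk' B0 (fun G H => by
    apply mul_left_cancel₀ vxy_ne
    rw [mul_add, B0_spec, B0_spec, B0_spec, map_add, map_add]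
    ring)

lemma BB_spec (G : RR) : vx * vy * BB G = vy * (G - e0 G) + vx * (G - e1 G) := B0_spec G

lemma BB_eq {G H : RR} (h : vx * vy * H = vy * (G - e0 G) + vx * (G - e1 G)) : BB G = H := by
  apply mul_left_cancel₀ vxy_ne
  rw [BB_spec, h]

/-- the operator `G ↦ (1+x+y)(G + B G)` -/
noncomputable def TT : RR →+ RR :=
  (AddMonoidHom.mulLeft (1 + vx + vy)).comp ((AddMonoidHom.id RR) + BB)

lemma TT_apply (G : RR) : TT G = (1 + vx + vy) * (G + BB G) := rfl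

/-- coefficient of `x` -/
noncomputable def l0 : RR →+ ℤ where
  toFun G := (G.coeff 0).coeff 1
  map_zero' := by simp
  map_add' := by simp

lemma l0_x (F : RR) : l0 (vx * F) = (F.coeff 0).coeff 0 := by
  show ((vx * F).coeff 0).coeff 1 = _
  rw [vx, mul_coeff_zero, coeff_C_zero, mul_comm, coeff_mul_X]

lemma l0_y (F : RR) : l0 (vy * F) = 0 := by
  show ((vy * F).coeff 0).coeff 1 = _
  rw [vy, mul_coeff_zero, coeff_X_zero, zero_mul, coeff_zero]

/-- `ℓ₀ ∘ 𝒯^n` -/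
noncomputable def LL : ℕ → (RR →+ ℤ)
  | 0 => l0
  | n + 1 => (LL n).comp TT

lemma LL_succ (n : ℕ) (G : RR) : LL (n + 1) G = LL n (TT G) := rfl

/-- the polynomials `G_{h+1,k+1}` -/
noncomputable def GG (h k : ℕ) : RR :=
  (1 + vx + vy) * ((1 + vx) * (1 + vy)) ^ k * (vx * (1 + vx) ^ h - vy * (1 + vy) ^ h)

lemma geom (z : RR) (n : ℕ) : z * ∑ i ∈ range n, (1 + z) ^ i = (1 + z) ^ n - 1 := by
  have := mul_geom_sum (1 + z) n
  rw [add_sub_cancel_left] at this
  exact this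

lemma sum_s (s z : RR) (h k : ℕ) :
    z * ∑ j ∈ range (k + 1), (s * (1 + z)) ^ (k - j) * s ^ (h + j + 1) =
      s ^ (h + k + 1) * ((1 + z) ^ (k + 1) - 1) := by
  have h1 : ∑ j ∈ range (k + 1), (s * (1 + z)) ^ (k - j) * s ^ (h + j + 1) =
      s ^ (h + k + 1) * ∑ j ∈ range (k + 1), (1 + z) ^ j := by
    rw [← Finset.sum_range_reflect (fun j => (1 + z) ^ j), mul_sum]
    apply sum_congr rfl
    intro j hj
    rw [mem_range] at hj
    rw [mul_pow, show k + 1 - 1 - j = k - j by omega]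
    have : s ^ (h + k + 1) = s ^ (k - j) * s ^ (h + j + 1) := by
      rw [← pow_add]; congr 1; omega
    rw [this]; ring
  rw [h1, mul_left_comm, geom]

/-- (B1) -/
lemma TT_GG (h k : ℕ) : TT (GG h k) = GG h k + ∑ i ∈ range h, GG i (k + 1) +
    ∑ j ∈ range (k + 1), GG (h + j + 1) (k - j) := by
  apply mul_left_cancel₀ vxy_ne
  have e0G : e0 (GG h k) = - (vy * (1 + vy) ^ (h + k + 1)) := by
    simp only [GG, map_mul, map_add, map_one, map_pow, map_sub, e0_x, e0_y]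
    ring
  have e1G : e1 (GG h k) = vx * (1 + vx) ^ (h + k + 1) := by
    simp only [GG, map_mul, map_add, map_one, map_pow, map_sub, e1_x, e1_y]
    ring
  have hL : vx * vy * TT (GG h k) = (1 + vx + vy) * (vx * vy * GG h k +
      (vy * (GG h k + vy * (1 + vy) ^ (h + k + 1)) + vx * (GG h k - vx * (1 + vx) ^ (h + k + 1)))) := by
    rw [TT_apply]
    have := BB_spec (GG h k)
    rw [e0G, e1G] at this
    calc _ = (1 + vx + vy) * (vx * vy * GG h k + vx * vy * BB (GG h k)) := by ring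
      _ = _ := by rw [this]; ring
  have hS1 : vx * vy * ∑ i ∈ range h, GG i (k + 1) =
      (1 + vx + vy) * ((1 + vx) * (1 + vy)) ^ (k + 1) * (vx * vy) * ((1 + vx) ^ h - (1 + vy) ^ h) := by
    have : ∑ i ∈ range h, GG i (k + 1) = (1 + vx + vy) * ((1 + vx) * (1 + vy)) ^ (k + 1) *
        (vx * ∑ i ∈ range h, (1 + vx) ^ i - vy * ∑ i ∈ range h, (1 + vy) ^ i) := by
      rw [mul_sum, mul_sum, ← sum_sub_distrib, mul_sum]
      rfl
    rw [this, geom, geom]
    ring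
  have hS2 : vx * vy * ∑ j ∈ range (k + 1), GG (h + j + 1) (k - j) =
      (1 + vx + vy) * (vx ^ 2 * ((1 + vx) ^ (h + k + 1) * ((1 + vy) ^ (k + 1) - 1)) -
        vy ^ 2 * ((1 + vy) ^ (h + k + 1) * ((1 + vx) ^ (k + 1) - 1))) := by
    have : ∑ j ∈ range (k + 1), GG (h + j + 1) (k - j) = (1 + vx + vy) *
        (vx * ∑ j ∈ range (k + 1), ((1 + vx) * (1 + vy)) ^ (k - j) * (1 + vx) ^ (h + j + 1) -
         vy * ∑ j ∈ range (k + 1), ((1 + vy) * (1 + vx)) ^ (k - j) * (1 + vy) ^ (h + j + 1)) := by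
      rw [mul_sum, mul_sum, ← sum_sub_distrib, mul_sum]
      apply sum_congr rfl
      intro j _
      rw [GG, mul_comm (1 + vy) (1 + vx)]
      ring
    rw [this, ← sum_s (1 + vx) vy h k, ← sum_s (1 + vy) vx h k]
    ring
  rw [hL, mul_add (vx * vy), mul_add (vx * vy), hS1, hS2]
  simp only [GG, mul_pow]
  ring

lemma l0_GG (h k : ℕ) : l0 (GG h k) = 1 := by
  have : GG h k = vx * ((1 + vx + vy) * ((1 + vx) * (1 + vy)) ^ k * (1 + vx) ^ h) -
      vy * ((1 + vx + vy) * ((1 + vx) * (1 + vy)) ^ k * (1 + vy) ^ h) := by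
    rw [GG]; ring
  rw [this, map_sub, l0_x, l0_y, sub_zero]
  simp only [coeff_zero_eq_eval_zero, eval_mul, eval_add, eval_pow, eval_one, vx, vy,
    eval_C, eval_X]
  simp

/-- the shifted transfer operator -/
lemma TA_shift (f : ℕ → ℕ → ℕ) (h k : ℕ) : TA f (h + 1) (k + 1) =
    f (h + 1) (k + 1) + ∑ i ∈ range h, f (i + 1) (k + 1 + 1) +
      ∑ j ∈ range (k + 1), f (h + j + 1 + 1) (k - j + 1) := by
  unfold TA
  have e1 : ∑ i ∈ Icc 1 (h + 1 - 1), f i (k + 1 + 1) = ∑ i ∈ range h, f (i + 1) (k + 1 + 1) := by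
    have : ∑ i ∈ Icc 1 (h + 1 - 1), f i (k + 1 + 1) =
      ∑ i ∈ Ico (0 + 1) (h + 1), f i (k + 1 + 1) := rfl
    rw [this, Finset.range_eq_Ico, ← Finset.sum_Ico_add' (fun i => f i (k + 1 + 1)) 0 h 1]
  have e2 : ∑ j ∈ Icc 1 (k + 1), f (h + 1 + j) (k + 1 + 1 - j) =
      ∑ j ∈ range (k + 1), f (h + j + 1 + 1) (k - j + 1) := by
    rw [Finset.range_eq_Ico]
    have : ∑ j ∈ Icc 1 (k + 1), f (h + 1 + j) (k + 1 + 1 - j) =
      ∑ j ∈ Ico (0 + 1) (k + 1 + 1), f (h + 1 + j) (k + 1 + 1 - j) := rfl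
    rw [this, ← Finset.sum_Ico_add' (fun j => f (h + 1 + j) (k + 1 + 1 - j)) 0 (k + 1) 1]
    apply sum_congr rfl
    intro j hj
    rw [mem_Ico] at hj
    congr 1 <;> omega
  rw [e1, e2]

/-- (B3) -/
lemma LL_GG (n : ℕ) : ∀ h k : ℕ, LL n (GG h k) = ((TA^[n] (fun _ _ => 1)) (h + 1) (k + 1) : ℕ) := by
  induction n with
  | zero =>
    intro h k
    show l0 (GG h k) = _
    rw [l0_GG]
    simp
  | succ n ih =>
    intro h k
    rw [LL_succ, TT_GG, map_add, map_add, map_sum, map_sum, Function.iterate_succ_apply', TA_shift]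
    push_cast
    simp only [ih]

/-- (B4) -/
lemma LL_start (m : ℕ) : LL (m + 1) (vx - vy) = ((TA^[m] (fun _ _ => 1)) 1 1 : ℕ) := by
  rw [LL_succ, TT_apply]
  have : BB (vx - vy) = 0 := by
    apply BB_eq
    rw [map_sub, map_sub, e0_x, e0_y, e1_x, e1_y]
    ring
  rw [this, add_zero, ← LL_GG]
  congr 1
  rw [GG]
  ring

end Pool.Agent.R746.AS
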