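import Mathlib
import Pool.Agent.R746.ASAlg

/-!
# The weights of lists of open half-arcs
-/

namespace Pool.Agent.R746.AS

open Finset Polynomial

attribute [local instance] Classical.propDecidable

/-- `(x^n - y^n)/(x-y)` -/
noncomputable def hh (n : ℕ) : RR := ∑ i ∈ range n, vx ^ i * vy ^ (n - 1 - i)

lemma hh_spec (n : ℕ) : hh n * (vx - vy) = vx ^ n - vy ^ n := Commute.geom_sum₂_mul (Commute.all _ _) n

@[simp] lemma hh_one : hh 1 = 1 := by simp [hh]

lemma hh_two : hh 2 = vx + vy := by
  simp [hh, sum_range_succ]; ring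

lemma hh_H (a b : ℕ) : hh (a + 1) * hh (b + 2) = hh (a + b + 2) + vx * vy * (hh a * hh (b + 1)) := by
  apply mul_right_cancel₀ vx_ne_vy
  apply mul_right_cancel₀ vx_ne_vy
  calc hh (a + 1) * hh (b + 2) * (vx - vy) * (vx - vy) =
      (hh (a + 1) * (vx - vy)) * (hh (b + 2) * (vx - vy)) := by ring
    _ = (hh (a + b + 2) * (vx - vy)) * (vx - vy) +
        vx * vy * ((hh a * (vx - vy)) * (hh (b + 1) * (vx - vy))) := by
      rw [hh_spec, hh_spec, hh_spec, hh_spec, hh_spec]; ring
    _ = _ := by ring

lemma hh_rec (n : ℕ) : vx * vy * hh n = (vx + vy) * hh (n + 1) - hh (n + 2) := by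
  apply mul_right_cancel₀ vx_ne_vy
  calc vx * vy * hh n * (vx - vy) = vx * vy * (hh n * (vx - vy)) := by ring
    _ = (vx + vy) * (hh (n + 1) * (vx - vy)) - hh (n + 2) * (vx - vy) := by
      rw [hh_spec, hh_spec, hh_spec]; ring
    _ = _ := by ring

/-- the weight -/
noncomputable def rho (Cov : ℕ → ℕ → Prop) : ℕ → List ℕ → RR
  | i, [] => hh (i + 1)
  | i, [_] => hh (i + 2)
  | i, (u :: v :: T) => if Cov u v then rho Cov (i + 1) (v :: T) else hh (i + 2) * rho Cov 0 (v :: T)

/-- the weight of all the closings -/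
noncomputable def KK (Cov : ℕ → ℕ → Prop) : ℕ → List ℕ → RR
  | _, [] => 0
  | i, [_] => hh (i + 1)
  | i, (u :: v :: T) => if Cov u v then KK Cov (i + 1) (v :: T) else
      hh (i + 1) * hh (T.length + 2) + hh (i + 2) * KK Cov 0 (v :: T)

/-- (C1) -/
lemma C1 (Cov : ℕ → ℕ → Prop) : ∀ (l : List ℕ) (i : ℕ), (l ≠ [] ∨ i = 0) →
    vx * vy * KK Cov i l = (vx + vy) * rho Cov i l - hh (i + l.length + 2)
  | [], i, h => by
    have hi : i = 0 := by simpa using h
    subst hi
    simp only [KK, rho, List.length_nil, Nat.zero_add, hh_one, hh_two]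
    ring
  | [_], i, _ => by
    simp only [KK, rho, List.length_singleton]
    rw [hh_rec]
  | (u :: v :: T), i, _ => by
    by_cases hc : Cov u v
    · simp only [KK, rho, if_pos hc]
      rw [C1 Cov (v :: T) (i + 1) (Or.inl (by simp))]
      congr 2
      simp only [List.length_cons]
      omega
    · simp only [KK, rho, if_neg hc]
      have h1 := C1 Cov (v :: T) 0 (Or.inl (by simp))
      have h2 := hh_H (i + 1) (T.length + 1)
      have e1 : i + (u :: v :: T).length + 2 = i + 1 + (T.length + 1) + 2 := by
        simp only [List.length_cons]; omega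
      have e2 : 0 + (v :: T).length + 2 = T.length + 1 + 2 := by
        simp only [List.length_cons]; omega
      rw [e2] at h1
      rw [e1]
      calc _ = vx * vy * (hh (i + 1) * hh (T.length + 2)) +
            hh (i + 2) * (vx * vy * KK Cov 0 (v :: T)) := by ring
        _ = vx * vy * (hh (i + 1) * hh (T.length + 1 + 1)) +
            hh (i + 2) * ((vx + vy) * rho Cov 0 (v :: T)) -
              hh (i + 1 + 1) * hh (T.length + 1 + 2) := by rw [h1]; ring
        _ = _ := by rw [h2]; ring

lemma rho_congr {C1 C2 : ℕ → ℕ → Prop} : ∀ (l : List ℕ) (i : ℕ),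
    (∀ u ∈ l, ∀ v ∈ l, (C1 u v ↔ C2 u v)) → rho C1 i l = rho C2 i l
  | [], _, _ => rfl
  | [_], _, _ => rfl
  | (u :: v :: T), i, h => by
    have h1 := h u (by simp) v (by simp)
    have h2 : ∀ u' ∈ (v :: T), ∀ v' ∈ (v :: T), (C1 u' v' ↔ C2 u' v') :=
      fun u' hu v' hv => h u' (List.mem_cons_of_mem _ hu) v' (List.mem_cons_of_mem _ hv)
    by_cases hc : C1 u v
    · simp only [rho, if_pos hc, if_pos (h1.1 hc)]
      exact rho_congr _ _ h2
    · simp only [rho, if_neg hc, if_neg (fun h3 => hc (h1.2 h3))]
      rw [rho_congr _ _ h2]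

lemma rho_allcov {Cov : ℕ → ℕ → Prop} : ∀ (l : List ℕ) (i : ℕ),
    (∀ u ∈ l, ∀ v ∈ l, u < v → Cov u v) → l.Pairwise (· < ·) → rho Cov i l = hh (i + l.length + 1)
  | [], _, _, _ => rfl
  | [_], _, _, _ => rfl
  | (u :: v :: T), i, h, hp => by
    have huv : u < v := (List.pairwise_cons.1 hp).1 v (by simp)
    simp only [rho, if_pos (h u (by simp) v (by simp) huv)]
    rw [rho_allcov (v :: T) (i + 1)
      (fun u' hu v' hv => h u' (List.mem_cons_of_mem _ hu) v' (List.mem_cons_of_mem _ hv))
      (List.pairwise_cons.1 hp).2]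
    congr 1
    simp only [List.length_cons]
    omega

/-- (C3) -/
lemma rho_append {Cov : ℕ → ℕ → Prop} (k : ℕ) : ∀ (l : List ℕ) (i : ℕ),
    (∀ u ∈ l, ¬ Cov u k) → (l ≠ [] ∨ i = 0) → rho Cov i (l ++ [k]) = rho Cov i l * hh 2
  | [], i, _, h => by
    have hi : i = 0 := by simpa using h
    subst hi
    simp [rho]
  | [u], i, h, _ => by
    have h1 := h u (by simp)
    simp only [List.cons_append, List.nil_append, rho, if_neg h1]
  | (u :: v :: T), i, h, _ => by
    have h2 : ∀ u' ∈ (v :: T), ¬ Cov u' k := fun u' hu => h u' (List.mem_cons_of_mem _ hu)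
    by_cases hc : Cov u v
    · simp only [List.cons_append, rho, if_pos hc]
      rw [← List.cons_append, rho_append k (v :: T) (i + 1) h2 (Or.inl (by simp))]
    · simp only [List.cons_append, rho, if_neg hc]
      rw [← List.cons_append, rho_append k (v :: T) 0 h2 (Or.inr rfl)]
      ring

section hom

variable {S : Type} [CommRing S] (φ : RR →+* S)

lemma hom_hh (h : φ vx = 0) (n : ℕ) : φ (hh (n + 1)) = φ vy ^ n := by
  rw [hh, map_sum, Finset.sum_eq_single 0]
  · simp
  · intro i _ hi
    rw [map_mul, map_pow, h, zero_pow hi, zero_mul]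
  · simp

lemma hom_rho (h : φ vx = 0) (Cov : ℕ → ℕ → Prop) : ∀ (l : List ℕ) (i : ℕ),
    φ (rho Cov i l) = φ vy ^ (i + l.length)
  | [], i => by simp only [rho]; rw [hom_hh φ h]; simp
  | [_], i => by simp only [rho]; rw [hom_hh φ h]; simp
  | (u :: v :: T), i => by
    by_cases hc : Cov u v
    · simp only [rho, if_pos hc]
      rw [hom_rho h Cov (v :: T) (i + 1)]
      congr 1
      simp only [List.length_cons]; omega
    · simp only [rho, if_neg hc]
      rw [map_mul, hom_hh φ h, hom_rho h Cov (v :: T) 0, ← pow_add]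
      congr 1
      simp only [List.length_cons]; omega

lemma hom_hh' (h : φ vy = 0) (n : ℕ) : φ (hh (n + 1)) = φ vx ^ n := by
  rw [hh, map_sum, Finset.sum_eq_single n]
  · simp
  · intro i hi hne
    rw [mem_range] at hi
    rw [map_mul, map_pow φ vy, h, zero_pow (by omega), mul_zero]
  · simp

lemma hom_rho' (h : φ vy = 0) (Cov : ℕ → ℕ → Prop) : ∀ (l : List ℕ) (i : ℕ),
    φ (rho Cov i l) = φ vx ^ (i + l.length)
  | [], i => by simp only [rho]; rw [hom_hh' φ h]; simp
  | [_], i => by simp only [rho]; rw [hom_hh' φ h]; simp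
  | (u :: v :: T), i => by
    by_cases hc : Cov u v
    · simp only [rho, if_pos hc]
      rw [hom_rho' h Cov (v :: T) (i + 1)]
      congr 1
      simp only [List.length_cons]; omega
    · simp only [rho, if_neg hc]
      rw [map_mul, hom_hh' φ h, hom_rho' h Cov (v :: T) 0, ← pow_add]
      congr 1
      simp only [List.length_cons]; omega

end hom

lemma BB_rho (Cov : ℕ → ℕ → Prop) (l : List ℕ) :
    BB ((vx - vy) * rho Cov 0 l) = (vx - vy) * KK Cov 0 l := by
  apply BB_eq
  have h1 := C1 Cov l 0 (Or.inr rfl)
  have h2 := hh_spec (0 + l.length + 2)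
  rw [map_mul, map_mul, map_sub, map_sub, e0_x, e0_y, e1_x, e1_y, hom_rho e0 e0_x, hom_rho' e1 e1_y,
    e0_y, e1_x]
  calc _ = (vx - vy) * (vx * vy * KK Cov 0 l) := by ring
    _ = (vx - vy) * ((vx + vy) * rho Cov 0 l) - hh (0 + l.length + 2) * (vx - vy) := by
      rw [h1]; ring
    _ = _ := by rw [h2]; ring

lemma l0_rho (Cov : ℕ → ℕ → Prop) (l : List ℕ) :
    l0 ((vx - vy) * rho Cov 0 l) = if l = [] then 1 else 0 := by
  rw [sub_mul, map_sub, l0_x, l0_y, sub_zero]
  have h1 : ((rho Cov 0 l).coeff 0).coeff 0 = ((evalRingHom (0 : ℤ)).comp (evalRingHom (0 : ℤ[X]))) (rho Cov 0 l) := by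
    simp [coeff_zero_eq_eval_zero]
  rw [h1, hom_rho _ (by simp [vx])]
  cases l with
  | nil => simp
  | cons a l => simp [vy]

/-- `o` can be closed -/
def cl (Cov : ℕ → ℕ → Prop) (l : List ℕ) (o : ℕ) : Prop := ∀ v ∈ l, o < v → ¬ Cov o v

/-- the covering relation after closing `o` -/
def Cov' (Cov : ℕ → ℕ → Prop) (o : ℕ) : ℕ → ℕ → Prop := fun u v => Cov u v ∨ o < u

/-- (C2) -/
lemma C2 (Cov : ℕ → ℕ → Prop)
    (hm : ∀ u v u' v', Cov u v → u ≤ u' → v' ≤ v → Cov u' v') :
    ∀ (T : List ℕ) (u i : ℕ), (u :: T).Pairwise (· < ·) →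
    (if cl Cov (u :: T) u then hh (i + 1) * rho (Cov' Cov u) 0 T else 0) +
      (T.map (fun o => if cl Cov (u :: T) o then rho (Cov' Cov o) i (u :: T.erase o) else 0)).sum =
      KK Cov i (u :: T) := by
  intro T
  induction T with
  | nil =>
    intro u i _
    have : cl Cov [u] u := by
      intro v hv huv
      simp only [List.mem_singleton] at hv
      omega
    rw [if_pos this]
    simp [rho, KK]
  | cons v T ih =>
    intro u i hp
    obtain ⟨hu, hp2⟩ := List.pairwise_cons.1 hp
    obtain ⟨hv, hp3⟩ := List.pairwise_cons.1 hp2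
    have huv : u < v := hu v (by simp)
    have hcl : ∀ o ∈ v :: T, (cl Cov (u :: v :: T) o ↔ cl Cov (v :: T) o) := by
      intro o ho
      have huo := hu o ho
      constructor
      · intro h w hw
        exact h w (List.mem_cons_of_mem _ hw)
      · intro h w hw how
        rcases List.mem_cons.1 hw with rfl | hw
        · omega
        · exact h w hw how
    have hclv := hcl v (by simp)
    -- the term of `v`
    have F : cl Cov (v :: T) v → rho (Cov' Cov v) i (u :: T) = hh (i + 2) * rho (Cov' Cov v) 0 T := by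
      intro h
      cases T with
      | nil => simp [rho]
      | cons w T =>
        have hvw : v < w := hv w (by simp)
        have h1 : ¬ Cov' Cov v u w := by
          rintro (h2 | h2)
          · exact h w (by simp) hvw (hm u w v w h2 huv.le le_rfl)
          · omega
        simp only [rho, if_neg h1]
    have hfirst : (v :: T).erase v = T := by simp
    have hrest : ∀ o ∈ T, (v :: T).erase o = v :: T.erase o := by
      intro o ho
      have := hv o ho
      rw [List.erase_cons_tail]
      simp
      omega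
    have hsum : ((v :: T).map (fun o => if cl Cov (u :: v :: T) o then
        rho (Cov' Cov o) i (u :: (v :: T).erase o) else 0)).sum =
        (if cl Cov (v :: T) v then hh (i + 2) * rho (Cov' Cov v) 0 T else 0) +
        (T.map (fun o => if cl Cov (v :: T) o then
          (if Cov u v then rho (Cov' Cov o) (i + 1) (v :: T.erase o) else
            hh (i + 2) * rho (Cov' Cov o) 0 (v :: T.erase o)) else 0)).sum := by
      rw [List.map_cons, List.sum_cons, hfirst]
      congr 1
      · by_cases h : cl Cov (v :: T) v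
        · rw [if_pos h, if_pos (hclv.2 h), F h]
        · rw [if_neg h, if_neg (fun h' => h (hclv.1 h'))]
      · congr 1
        apply List.map_congr_left
        intro o ho
        have huo : u < o := hu o (List.mem_cons_of_mem _ ho)
        rw [hrest o ho]
        have h1 := hcl o (List.mem_cons_of_mem _ ho)
        by_cases h : cl Cov (v :: T) o
        · rw [if_pos h, if_pos (h1.2 h)]
          have h2 : Cov' Cov o u v ↔ Cov u v := by
            constructor
            · rintro (h | h)
              · exact h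
              · omega
            · exact Or.inl
          by_cases hc : Cov u v
          · simp only [rho, if_pos (h2.2 hc), if_pos hc]
          · simp only [rho, if_neg (fun h3 => hc (h2.1 h3)), if_neg hc]
        · rw [if_neg h, if_neg (fun h' => h (h1.1 h'))]
    rw [hsum]
    by_cases hc : Cov u v
    · have hnu : ¬ cl Cov (u :: v :: T) u := fun h => h v (by simp) huv hc
      rw [if_neg hnu, zero_add]
      simp only [if_pos hc, KK]
      exact ih v (i + 1) hp2
    · have hyu : cl Cov (u :: v :: T) u := by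
        intro w hw huw h
        rcases List.mem_cons.1 hw with rfl | hw
        · omega
        rcases List.mem_cons.1 hw with rfl | hw
        · exact hc h
        · exact hc (hm u w u v h le_rfl (hv w hw).le)
      rw [if_pos hyu]
      simp only [if_neg hc, KK]
      have h1 : rho (Cov' Cov u) 0 (v :: T) = hh (T.length + 2) := by
        rw [rho_allcov (Cov := Cov' Cov u) (v :: T) 0 (fun a ha b _ _ => Or.inr (hu a ha)) hp2]
        congr 1
        simp only [List.length_cons]
        omega
      rw [h1]
      congr 1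
      rw [← ih v 0 hp2, mul_add]
      congr 1
      · split_ifs
        · simp
        · simp
      · rw [← List.sum_map_mul_left]
        congr 1
        apply List.map_congr_left
        intro o _
        split_ifs
        · rfl
        · simp

/-- (C2) for a whole list -/
lemma C2' (Cov : ℕ → ℕ → Prop)
    (hm : ∀ u v u' v', Cov u v → u ≤ u' → v' ≤ v → Cov u' v') (l : List ℕ)
    (hl : l.Pairwise (· < ·)) :
    (l.map (fun o => if cl Cov l o then rho (Cov' Cov o) 0 (l.erase o) else 0)).sum =
      KK Cov 0 l := by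
  cases l with
  | nil => simp [KK]
  | cons u T =>
    obtain ⟨hu, _⟩ := List.pairwise_cons.1 hl
    rw [← C2 Cov hm T u 0 hl, List.map_cons, List.sum_cons]
    congr 1
    · simp
    · congr 1
      apply List.map_congr_left
      intro o ho
      have := hu o ho
      rw [List.erase_cons_tail]
      simp
      omega

end Pool.Agent.R746.AS
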