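import Mathlib
import Pool.Agent.R746.ASList

/-!
# Diagrams of arcs and open half-arcs, and the recursion of their weighted sums
-/

namespace Pool.Agent.R746.AS

open Finset Polynomial

attribute [local instance] Classical.propDecidable

/-- diagrams whose right ends are `< a` and whose left ends are `< b` -/
structure Vd (a b : ℕ) (A : Finset (ℕ × ℕ)) (S : Finset ℕ) : Prop where
  rg : ∀ i j, (i, j) ∈ A → i < j ∧ j < a ∧ i < b
  ru : ∀ i j j', (i, j) ∈ A → (i, j') ∈ A → j = j'
  lu : ∀ i i' j, (i, j) ∈ A → (i', j) ∈ A → i = i'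
  op : ∀ o ∈ S, o < b ∧ ∀ j, (o, j) ∉ A
  nc : ∀ i1 j1 i2 j2 i3 j3, (i1, j1) ∈ A → (i2, j2) ∈ A → (i3, j3) ∈ A →
    i1 < i2 → i2 < i3 → i3 < j1 → j1 < j2 → j2 < j3 → False
  no : ∀ i1 j1 i2 j2 o, (i1, j1) ∈ A → (i2, j2) ∈ A → o ∈ S →
    i1 < i2 → i2 < j1 → j1 < j2 → i2 < o → o < j1 → False

/-- the finite set of the diagrams -/
noncomputable def DD (a b : ℕ) : Finset (Finset (ℕ × ℕ) × Finset ℕ) :=
  ((range b ×ˢ range a).powerset ×ˢ (range b).powerset).filter fun p => Vd a b p.1 p.2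

lemma mem_DD {a b : ℕ} {p : Finset (ℕ × ℕ) × Finset ℕ} : p ∈ DD a b ↔ Vd a b p.1 p.2 := by
  unfold DD
  rw [mem_filter, mem_product, mem_powerset, mem_powerset]
  constructor
  · exact fun h => h.2
  · intro h
    refine ⟨⟨?_, ?_⟩, h⟩
    · rintro ⟨i, j⟩ hij
      have := h.rg i j hij
      simp only [mem_product, mem_range]
      exact ⟨this.2.2, this.2.1⟩
    · intro o ho
      rw [mem_range]
      exact (h.op o ho).1

/-- covering relation -/
def CA (A : Finset (ℕ × ℕ)) (u v : ℕ) : Prop := ∃ i j, (i, j) ∈ A ∧ i < u ∧ v < j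

lemma CA_mono (A : Finset (ℕ × ℕ)) : ∀ u v u' v', CA A u v → u ≤ u' → v' ≤ v → CA A u' v' := by
  rintro u v u' v' ⟨i, j, h, h1, h2⟩ h3 h4
  exact ⟨i, j, h, by omega, by omega⟩

/-- the half-arcs which can be closed -/
noncomputable def CL (p : Finset (ℕ × ℕ) × Finset ℕ) : Finset ℕ :=
  p.2.filter fun o => ∀ v ∈ p.2, o < v → ¬ CA p.1 o v

lemma vd_close {k : ℕ} {A : Finset (ℕ × ℕ)} {S : Finset ℕ} (h : Vd k k A S) {o : ℕ} (ho : o ∈ S)
    (hc : ∀ v ∈ S, o < v → ¬ CA A o v) : Vd (k + 1) k (insert (o, k) A) (S.erase o) := by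
  have hok := (h.op o ho).1
  have hoA := (h.op o ho).2
  constructor
  · intro i j hij
    rw [mem_insert, Prod.mk.injEq] at hij
    rcases hij with ⟨rfl, rfl⟩ | hij
    · omega
    · have := h.rg i j hij; omega
  · intro i j j' h1 h2
    rw [mem_insert, Prod.mk.injEq] at h1 h2
    rcases h1 with ⟨rfl, rfl⟩ | h1
    · rcases h2 with ⟨_, rfl⟩ | h2
      · rfl
      · exact absurd h2 (hoA _)
    · rcases h2 with ⟨rfl, rfl⟩ | h2
      · exact absurd h1 (hoA _)
      · exact h.ru i j j' h1 h2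
  · intro i i' j h1 h2
    rw [mem_insert, Prod.mk.injEq] at h1 h2
    rcases h1 with ⟨rfl, rfl⟩ | h1
    · rcases h2 with ⟨rfl, _⟩ | h2
      · rfl
      · have := h.rg _ _ h2; omega
    · rcases h2 with ⟨rfl, rfl⟩ | h2
      · have := h.rg _ _ h1; omega
      · exact h.lu i i' j h1 h2
  · intro o' ho'
    rw [mem_erase] at ho'
    refine ⟨(h.op o' ho'.2).1, fun j hj => ?_⟩
    rw [mem_insert, Prod.mk.injEq] at hj
    rcases hj with ⟨rfl, _⟩ | hj
    · exact ho'.1 rfl
    · exact (h.op o' ho'.2).2 j hj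
  · intro i1 j1 i2 j2 i3 j3 h1 h2 h3 c1 c2 c3 c4 c5
    rw [mem_insert, Prod.mk.injEq] at h1 h2 h3
    have b3 : j3 ≤ k := by
      rcases h3 with ⟨rfl, rfl⟩ | h3
      · exact le_rfl
      · have := h.rg _ _ h3; omega
    have h1' : (i1, j1) ∈ A := by
      rcases h1 with ⟨rfl, rfl⟩ | h1
      · omega
      · exact h1
    have h2' : (i2, j2) ∈ A := by
      rcases h2 with ⟨rfl, rfl⟩ | h2
      · omega
      · exact h2
    rcases h3 with ⟨rfl, rfl⟩ | h3
    · exact h.no i1 j1 i2 j2 i3 h1' h2' ho c1 (by omega) c4 c2 c3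
    · exact h.nc i1 j1 i2 j2 i3 j3 h1' h2' h3 c1 c2 c3 c4 c5
  · intro i1 j1 i2 j2 o' h1 h2 ho' c1 c2 c3 c4 c5
    rw [mem_erase] at ho'
    rw [mem_insert, Prod.mk.injEq] at h1 h2
    have b2 : j2 ≤ k := by
      rcases h2 with ⟨rfl, rfl⟩ | h2
      · exact le_rfl
      · have := h.rg _ _ h2; omega
    have h1' : (i1, j1) ∈ A := by
      rcases h1 with ⟨rfl, rfl⟩ | h1
      · omega
      · exact h1
    rcases h2 with ⟨rfl, rfl⟩ | h2
    · exact hc o' ho'.2 c4 ⟨i1, j1, h1', c1, c5⟩
    · exact h.no i1 j1 i2 j2 o' h1' h2 ho'.2 c1 c2 c3 c4 c5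

lemma vd_unclose {k : ℕ} {A : Finset (ℕ × ℕ)} {S : Finset ℕ} (h : Vd (k + 1) k A S) {o : ℕ}
    (ho : (o, k) ∈ A) : Vd k k (A.erase (o, k)) (insert o S) ∧
      ∀ v ∈ insert o S, o < v → ¬ CA (A.erase (o, k)) o v := by
  have hok := (h.rg o k ho).1
  have hlt : ∀ i j, (i, j) ∈ A.erase (o, k) → j < k := by
    intro i j hij
    rw [mem_erase] at hij
    have h1 := h.rg i j hij.2
    rcases Nat.lt_or_ge j k with h2 | h2
    · exact h2
    · exfalso
      have h3 : j = k := by omega
      subst h3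
      exact hij.1 (by rw [h.lu i o j hij.2 ho])
  constructor
  · constructor
    · intro i j hij
      have h1 := hlt i j hij
      rw [mem_erase] at hij
      have := h.rg i j hij.2
      omega
    · intro i j j' h1 h2
      exact h.ru i j j' (mem_of_mem_erase h1) (mem_of_mem_erase h2)
    · intro i i' j h1 h2
      exact h.lu i i' j (mem_of_mem_erase h1) (mem_of_mem_erase h2)
    · intro o' ho'
      rw [mem_insert] at ho'
      rcases ho' with rfl | ho'
      · refine ⟨hok, fun j hj => ?_⟩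
        rw [mem_erase] at hj
        exact hj.1 (by rw [h.ru o' j k hj.2 ho])
      · exact ⟨(h.op o' ho').1, fun j hj => (h.op o' ho').2 j (mem_of_mem_erase hj)⟩
    · intro i1 j1 i2 j2 i3 j3 h1 h2 h3
      exact h.nc i1 j1 i2 j2 i3 j3 (mem_of_mem_erase h1) (mem_of_mem_erase h2) (mem_of_mem_erase h3)
    · intro i1 j1 i2 j2 o' h1 h2 ho' c1 c2 c3 c4 c5
      rw [mem_insert] at ho'
      have l2 := hlt i2 j2 h2
      rcases ho' with rfl | ho'
      · exact h.nc i1 j1 i2 j2 o' k (mem_of_mem_erase h1) (mem_of_mem_erase h2) ho c1 c4 c5 c3 l2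
      · exact h.no i1 j1 i2 j2 o' (mem_of_mem_erase h1) (mem_of_mem_erase h2) ho' c1 c2 c3 c4 c5
  · intro v hv hov
    rw [mem_insert] at hv
    rcases hv with rfl | hv
    · omega
    · rintro ⟨i, j, hij, c1, c2⟩
      have l := hlt i j hij
      exact h.no i j o k v (mem_of_mem_erase hij) ho hv c1 (by omega) l hov c2

lemma sum_close {M : Type} [AddCommMonoid M] (k : ℕ) (F : Finset (ℕ × ℕ) × Finset ℕ → M) :
    ∑ p ∈ DD (k + 1) k, F p = ∑ p ∈ DD k k, (F p + ∑ o ∈ CL p, F (insert (o, k) p.1, p.2.erase o)) := by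
  rw [sum_add_distrib, ← sum_filter_add_sum_filter_not (DD (k + 1) k) (fun p => ∃ o, (o, k) ∈ p.1),
    add_comm]
  congr 1
  · apply sum_congr _ (fun _ _ => rfl)
    ext p
    rw [mem_filter, mem_DD, mem_DD]
    constructor
    · rintro ⟨h, hn⟩
      push Not at hn
      exact ⟨fun i j hij => by
        have h1 := h.rg i j hij
        have : j ≠ k := by rintro rfl; exact hn i hij
        omega, h.ru, h.lu, h.op, h.nc, h.no⟩
    · intro h
      refine ⟨⟨fun i j hij => ?_, h.ru, h.lu, h.op, h.nc, h.no⟩, ?_⟩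
      · have := h.rg i j hij; omega
      · rintro ⟨o, ho⟩
        have := h.rg o k ho
        omega
  · rw [sum_sigma']
    symm
    refine sum_bij (fun x _ => (insert (x.2, k) x.1.1, x.1.2.erase x.2)) ?_ ?_ ?_ ?_
    · rintro ⟨p, o⟩ hx
      rw [mem_sigma, mem_DD, CL, mem_filter] at hx
      rw [mem_filter, mem_DD]
      exact ⟨vd_close hx.1 hx.2.1 hx.2.2, o, mem_insert_self _ _⟩
    · rintro ⟨⟨A, S⟩, o⟩ hx ⟨⟨A', S'⟩, o'⟩ hx' he
      rw [mem_sigma, mem_DD, CL, mem_filter] at hx hx'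
      simp only [Prod.mk.injEq] at he hx hx'
      obtain ⟨h1, h2⟩ := he
      have hA : ∀ z, (z, k) ∉ A := fun z hz => by have := hx.1.rg z k hz; omega
      have hA' : ∀ z, (z, k) ∉ A' := fun z hz => by have := hx'.1.rg z k hz; omega
      have hoo : o = o' := by
        have : (o, k) ∈ insert (o', k) A' := h1 ▸ mem_insert_self _ _
        rw [mem_insert] at this
        rcases this with h | h
        · exact (Prod.mk.inj h).1
        · exact absurd h (hA' _)
      subst hoo
      have e1 : A = A' := by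
        rw [← erase_insert (hA o), h1, erase_insert (hA' o)]
      have e2 : S = S' := by
        rw [← insert_erase hx.2.1, h2, insert_erase hx'.2.1]
      subst e1 e2
      rfl
    · rintro ⟨A, S⟩ hx
      rw [mem_filter, mem_DD] at hx
      obtain ⟨h, o, ho⟩ := hx
      simp only at h ho
      obtain ⟨h1, h2⟩ := vd_unclose h ho
      have hoS : o ∉ S := fun h3 => (h.op o h3).2 k ho
      refine ⟨⟨(A.erase (o, k), insert o S), o⟩, ?_, ?_⟩
      · rw [mem_sigma, mem_DD, CL, mem_filter]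
        exact ⟨h1, mem_insert_self _ _, h2⟩
      · simp only
        rw [insert_erase ho, erase_insert hoS]
    · rintro ⟨p, o⟩ _
      rfl

lemma sum_open {M : Type} [AddCommMonoid M] (k : ℕ) (F : Finset (ℕ × ℕ) × Finset ℕ → M) :
    ∑ p ∈ DD (k + 1) (k + 1), F p = ∑ p ∈ DD (k + 1) k, (F p + F (p.1, insert k p.2)) := by
  rw [sum_add_distrib, ← sum_filter_add_sum_filter_not (DD (k + 1) (k + 1)) (fun p => k ∈ p.2),
    add_comm]
  congr 1
  · apply sum_congr _ (fun _ _ => rfl)
    ext p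
    rw [mem_filter, mem_DD, mem_DD]
    constructor
    · rintro ⟨h, hn⟩
      refine ⟨fun i j hij => ?_, h.ru, h.lu, fun o ho => ⟨?_, (h.op o ho).2⟩, h.nc, h.no⟩
      · have := h.rg i j hij; omega
      · have := (h.op o ho).1
        have : o ≠ k := by rintro rfl; exact hn ho
        omega
    · intro h
      refine ⟨⟨fun i j hij => ?_, h.ru, h.lu, fun o ho => ⟨?_, (h.op o ho).2⟩, h.nc, h.no⟩, ?_⟩
      · have := h.rg i j hij; omega
      · have := (h.op o ho).1; omega
      · intro hk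
        have := (h.op k hk).1
        omega
  · symm
    refine sum_bij (fun p _ => (p.1, insert k p.2)) ?_ ?_ ?_ ?_
    · rintro ⟨A, S⟩ hx
      rw [mem_DD] at hx
      rw [mem_filter, mem_DD]
      refine ⟨⟨fun i j hij => ?_, hx.ru, hx.lu, fun o ho => ?_, hx.nc, ?_⟩, mem_insert_self _ _⟩
      · have := hx.rg i j hij; omega
      · rw [mem_insert] at ho
        rcases ho with rfl | ho
        · refine ⟨by omega, fun j hj => ?_⟩
          have := hx.rg _ _ hj
          omega
        · have := hx.op o ho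
          exact ⟨by omega, this.2⟩
      · intro i1 j1 i2 j2 o h1 h2 ho c1 c2 c3 c4 c5
        rw [mem_insert] at ho
        rcases ho with rfl | ho
        · have := hx.rg _ _ h1
          have := hx.rg _ _ h2
          omega
        · exact hx.no i1 j1 i2 j2 o h1 h2 ho c1 c2 c3 c4 c5
    · rintro ⟨A, S⟩ hx ⟨A', S'⟩ hx' he
      rw [mem_DD] at hx hx'
      simp only [Prod.mk.injEq] at he hx hx' ⊢
      have h1 : k ∉ S := fun h => by have := (hx.op k h).1; omega
      have h2 : k ∉ S' := fun h => by have := (hx'.op k h).1; omega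
      refine ⟨he.1, ?_⟩
      rw [← erase_insert h1, he.2, erase_insert h2]
    · rintro ⟨A, S⟩ hx
      rw [mem_filter, mem_DD] at hx
      obtain ⟨h, hk⟩ := hx
      simp only at h hk
      refine ⟨(A, S.erase k), ?_, ?_⟩
      · rw [mem_DD]
        refine ⟨fun i j hij => ?_, h.ru, h.lu, fun o ho => ?_, h.nc, ?_⟩
        · have := h.rg i j hij; omega
        · rw [mem_erase] at ho
          have := h.op o ho.2
          exact ⟨by omega, this.2⟩
        · intro i1 j1 i2 j2 o h1 h2 ho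
          exact h.no i1 j1 i2 j2 o h1 h2 (mem_of_mem_erase ho)
      · simp only
        rw [insert_erase hk]
    · intro p _
      rfl

/-- the weight of a diagram -/
noncomputable def wt (p : Finset (ℕ × ℕ) × Finset ℕ) : RR :=
  (vx - vy) * rho (CA p.1) 0 (p.2.sort (· ≤ ·))

/-- the weighted sum of the diagrams -/
noncomputable def Gk (k : ℕ) : RR := ∑ p ∈ DD k k, wt p

lemma sort_pairwise_lt (S : Finset ℕ) : (S.sort (· ≤ ·)).Pairwise (· < ·) := by
  have h1 := S.pairwise_sort (· ≤ ·)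
  have h2 := S.sort_nodup (· ≤ ·)
  exact (h1.and h2).imp fun h => lt_of_le_of_ne h.1 h.2

lemma sort_erase (S : Finset ℕ) (o : ℕ) :
    (S.erase o).sort (· ≤ ·) = (S.sort (· ≤ ·)).erase o := by
  have h2 := S.sort_nodup (· ≤ ·)
  have h3 : ((S.sort (· ≤ ·)).erase o).Nodup := h2.erase o
  have h4 := (List.toFinset_sort (· ≤ ·) h3).2 ((S.pairwise_sort (· ≤ ·)).sublist List.erase_sublist)
  rw [← h4]
  congr 1
  ext x
  rw [List.mem_toFinset, h2.mem_erase_iff, mem_erase, mem_sort]

lemma sort_insert (S : Finset ℕ) (k : ℕ) (h : ∀ o ∈ S, o < k) :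
    (insert k S).sort (· ≤ ·) = S.sort (· ≤ ·) ++ [k] := by
  have h2 := S.sort_nodup (· ≤ ·)
  have h3 : (S.sort (· ≤ ·) ++ [k]).Nodup := by
    rw [List.nodup_append]
    refine ⟨h2, by simp, ?_⟩
    intro a ha b hb
    rw [mem_sort] at ha
    rw [List.mem_singleton] at hb
    have := h a ha
    omega
  have h4 := (List.toFinset_sort (· ≤ ·) h3).2 (by
    rw [List.pairwise_append]
    refine ⟨S.pairwise_sort (· ≤ ·), by simp, ?_⟩
    intro a ha b hb
    rw [mem_sort] at ha
    rw [List.mem_singleton] at hb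
    have := h a ha
    omega)
  rw [← h4]
  congr 1
  ext x
  rw [List.mem_toFinset, List.mem_append, mem_insert, mem_sort, List.mem_singleton]
  tauto

lemma wt_close {k : ℕ} {p : Finset (ℕ × ℕ) × Finset ℕ} (hp : p ∈ DD k k) :
    ∑ o ∈ CL p, wt (insert (o, k) p.1, p.2.erase o) = BB (wt p) := by
  rw [mem_DD] at hp
  unfold wt
  rw [BB_rho, ← C2' (CA p.1) (CA_mono p.1) _ (sort_pairwise_lt p.2), ← mul_sum]
  congr 1
  set l := p.2.sort (· ≤ ·) with hl
  have hlS : l.toFinset = p.2 := sort_toFinset _ _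
  rw [← List.sum_toFinset _ (p.2.sort_nodup (· ≤ ·)), ← hl, hlS, CL, sum_filter]
  apply sum_congr rfl
  intro o ho
  have e1 : (∀ v ∈ p.2, o < v → ¬ CA p.1 o v) ↔ cl (CA p.1) l o := by
    unfold cl
    constructor
    · intro h v hv
      exact h v (by rwa [hl, mem_sort] at hv)
    · intro h v hv
      exact h v (by rwa [hl, mem_sort])
  by_cases hc : ∀ v ∈ p.2, o < v → ¬ CA p.1 o v
  · rw [if_pos hc, if_pos (e1.1 hc)]
    simp only
    rw [sort_erase, ← hl]
    apply rho_congr
    intro u hu v hv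
    have hu' : u ∈ p.2 := by
      have := List.mem_of_mem_erase hu
      rwa [hl, mem_sort] at this
    have hv' : v ∈ p.2 := by
      have := List.mem_of_mem_erase hv
      rwa [hl, mem_sort] at this
    have hvk := (hp.op v hv').1
    constructor
    · rintro ⟨i, j, hij, h1, h2⟩
      rw [mem_insert, Prod.mk.injEq] at hij
      rcases hij with ⟨rfl, rfl⟩ | hij
      · exact Or.inr h1
      · exact Or.inl ⟨i, j, hij, h1, h2⟩
    · rintro (⟨i, j, hij, h1, h2⟩ | h1)
      · exact ⟨i, j, mem_insert_of_mem hij, h1, h2⟩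
      · exact ⟨o, k, mem_insert_self _ _, h1, hvk⟩
  · rw [if_neg hc, if_neg (fun h => hc (e1.2 h))]

lemma wt_open {k : ℕ} {p : Finset (ℕ × ℕ) × Finset ℕ} (hp : p ∈ DD (k + 1) k) :
    wt (p.1, insert k p.2) = wt p * (vx + vy) := by
  rw [mem_DD] at hp
  unfold wt
  simp only
  rw [sort_insert p.2 k (fun o ho => (hp.op o ho).1), rho_append, hh_two, mul_assoc]
  · intro u hu
    rintro ⟨i, j, hij, _, h2⟩
    have := hp.rg i j hij
    omega
  · exact Or.inr rfl

lemma Gk_succ (k : ℕ) : Gk (k + 1) = TT (Gk k) := by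
  unfold Gk
  have h1 : ∑ p ∈ DD (k + 1) (k + 1), wt p = (1 + vx + vy) * ∑ p ∈ DD (k + 1) k, wt p := by
    rw [sum_open, mul_sum]
    apply sum_congr rfl
    intro p hp
    rw [wt_open hp]
    ring
  rw [h1, sum_close, map_sum, mul_sum]
  apply sum_congr rfl
  intro p hp
  rw [wt_close hp, TT_apply]

lemma Gk_zero : Gk 0 = vx - vy := by
  have : DD 0 0 = {(∅, ∅)} := by
    ext p
    rw [mem_DD, mem_singleton]
    constructor
    · intro h
      ext1
      · ext ⟨i, j⟩
        simp only [notMem_empty, iff_false]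
        intro hij
        have := h.rg i j hij
        omega
      · ext o
        simp only [notMem_empty, iff_false]
        intro ho
        have := (h.op o ho).1
        omega
    · rintro rfl
      constructor <;> simp
  unfold Gk
  rw [this, sum_singleton]
  unfold wt
  simp [rho]

lemma LL_Gk (n : ℕ) : ∀ k, LL n (Gk k) = l0 (Gk (k + n)) := by
  induction n with
  | zero => intro k; rfl
  | succ n ih =>
    intro k
    rw [LL_succ, ← Gk_succ, ih]
    congr 2
    omega

/-- the number of the closed diagrams -/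
theorem card_closed (m : ℕ) :
    (((DD (m + 1) (m + 1)).filter fun p => p.2 = ∅).card : ℤ) = ((TA^[m] (fun _ _ => 1)) 1 1 : ℕ) := by
  rw [← LL_start, ← Gk_zero, LL_Gk, Nat.zero_add, Gk, map_sum, card_filter]
  push_cast
  apply sum_congr rfl
  intro p _
  unfold wt
  rw [l0_rho]
  have : p.2.sort (· ≤ ·) = [] ↔ p.2 = ∅ := by
    constructor
    · intro h
      have h2 := p.2.sort_toFinset (· ≤ ·)
      rw [h] at h2
      simpa using h2.symm
    · intro h
      rw [h]
      simp
  by_cases h : p.2 = ∅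
  · rw [if_pos h, if_pos (this.2 h)]
  · rw [if_neg h, if_neg (fun h' => h (this.1 h'))]

end Pool.Agent.R746.AS
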