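import Mathlib
import Pool.Agent.R746.ASDiag

/-!
# Set partitions and their arcs
-/

namespace Pool.Agent.R746.AS

open Finset

attribute [local instance] Classical.propDecidable

/-- `(i, j)` is an arc of the partition `r`: `i < j` are in the same block, and no element strictly
between them is in this block -/
def IsArc {n : ℕ} (r : Setoid (Fin n)) (i j : Fin n) : Prop :=
  i < j ∧ r i j ∧ ∀ c, i < c → c < j → ¬ r i c

/-- the partition has a 3-crossing -/
def Has3Crossing {n : ℕ} (r : Setoid (Fin n)) : Prop :=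
  ∃ i1 j1 i2 j2 i3 j3, IsArc r i1 j1 ∧ IsArc r i2 j2 ∧ IsArc r i3 j3 ∧
    i1 < i2 ∧ i2 < i3 ∧ i3 < j1 ∧ j1 < j2 ∧ j2 < j3

/-- the arcs as pairs of naturals -/
noncomputable def arcs {n : ℕ} (r : Setoid (Fin n)) : Finset (ℕ × ℕ) :=
  (univ.filter fun p : Fin n × Fin n => IsArc r p.1 p.2).image fun p => (p.1.1, p.2.1)

lemma mem_arcs {n : ℕ} (r : Setoid (Fin n)) (i j : ℕ) :
    (i, j) ∈ arcs r ↔ ∃ (hi : i < n) (hj : j < n), IsArc r ⟨i, hi⟩ ⟨j, hj⟩ := by
  unfold arcs
  rw [mem_image]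
  constructor
  · rintro ⟨⟨⟨a, ha⟩, ⟨b, hb⟩⟩, h, he⟩
    rw [mem_filter] at h
    simp only [Prod.mk.injEq] at he
    obtain ⟨rfl, rfl⟩ := he
    exact ⟨ha, hb, h.2⟩
  · rintro ⟨hi, hj, h⟩
    exact ⟨(⟨i, hi⟩, ⟨j, hj⟩), by rw [mem_filter]; exact ⟨mem_univ _, h⟩, rfl⟩

lemma IsArc.ru {n : ℕ} {r : Setoid (Fin n)} {i j j' : Fin n} (h : IsArc r i j) (h' : IsArc r i j') :
    j = j' := by
  rcases lt_trichotomy j j' with h1 | h1 | h1
  · exact absurd h.2.1 (h'.2.2 j h.1 h1)
  · exact h1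
  · exact absurd h'.2.1 (h.2.2 j' h'.1 h1)

lemma IsArc.lu {n : ℕ} {r : Setoid (Fin n)} {i i' j : Fin n} (h : IsArc r i j) (h' : IsArc r i' j) :
    i = i' := by
  have h2 : r i i' := r.trans h.2.1 (r.symm h'.2.1)
  rcases lt_trichotomy i i' with h1 | h1 | h1
  · exact absurd h2 (h.2.2 i' h1 h'.1)
  · exact h1
  · exact absurd (r.symm h2) (h'.2.2 i h1 h.1)

lemma arcs_vd {n : ℕ} (r : Setoid (Fin n)) (h : ¬ Has3Crossing r) : Vd n n (arcs r) ∅ := by
  refine ⟨?_, ?_, ?_, by simp, ?_, by simp⟩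
  · intro i j hij
    obtain ⟨hi, hj, h1⟩ := (mem_arcs r i j).1 hij
    exact ⟨h1.1, hj, hi⟩
  · intro i j j' h1 h2
    obtain ⟨hi, hj, h1⟩ := (mem_arcs r _ _).1 h1
    obtain ⟨_, hj', h2⟩ := (mem_arcs r _ _).1 h2
    exact congrArg Fin.val (h1.ru h2)
  · intro i i' j h1 h2
    obtain ⟨hi, hj, h1⟩ := (mem_arcs r _ _).1 h1
    obtain ⟨hi', hj', h2⟩ := (mem_arcs r _ _).1 h2
    exact congrArg Fin.val (h1.lu h2)
  · intro i1 j1 i2 j2 i3 j3 h1 h2 h3 c1 c2 c3 c4 c5
    obtain ⟨_, _, h1⟩ := (mem_arcs r _ _).1 h1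
    obtain ⟨_, _, h2⟩ := (mem_arcs r _ _).1 h2
    obtain ⟨_, _, h3⟩ := (mem_arcs r _ _).1 h3
    exact h ⟨_, _, _, _, _, _, h1, h2, h3, c1, c2, c3, c4, c5⟩

/-- related elements are joined by a path of arcs -/
lemma path_of_rel {n : ℕ} (r : Setoid (Fin n)) : ∀ (d : ℕ) (i j : Fin n), i ≤ j → (j : ℕ) - i ≤ d →
    r i j → Relation.ReflTransGen (IsArc r) i j := by
  intro d
  induction d with
  | zero =>
    intro i j hij hd _
    have : i = j := by
      apply le_antisymm hij
      rw [Fin.le_def]; omega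
    subst this
    exact Relation.ReflTransGen.refl
  | succ d ih =>
    intro i j hij hd hr
    rcases hij.lt_or_eq with hlt | rfl
    · -- least related element above `i`
      have hne : (univ.filter fun c : Fin n => i < c ∧ r i c).Nonempty :=
        ⟨j, by rw [mem_filter]; exact ⟨mem_univ _, hlt, hr⟩⟩
      set c := (univ.filter fun c : Fin n => i < c ∧ r i c).min' hne with hc
      have hcm := Finset.min'_mem _ hne
      rw [← hc, mem_filter] at hcm
      have harc : IsArc r i c := by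
        refine ⟨hcm.2.1, hcm.2.2, fun c' h1 h2 h3 => ?_⟩
        have : c ≤ c' := Finset.min'_le _ _ (by rw [mem_filter]; exact ⟨mem_univ _, h1, h3⟩)
        exact absurd h2 (not_lt.2 this)
      have hcj : c ≤ j := Finset.min'_le _ _ (by rw [mem_filter]; exact ⟨mem_univ _, hlt, hr⟩)
      refine Relation.ReflTransGen.head harc (ih c j hcj ?_ (r.trans (r.symm hcm.2.2) hr))
      have h1 : (i : ℕ) < c := hcm.2.1
      have h2 : (c : ℕ) ≤ j := hcj
      omega
    · exact Relation.ReflTransGen.refl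

lemma rel_of_path {n : ℕ} (r : Setoid (Fin n)) {i j : Fin n}
    (h : Relation.ReflTransGen (IsArc r) i j) : r i j := by
  induction h with
  | refl => exact r.refl _
  | tail _ h ih => exact r.trans ih h.2.1

lemma arcs_inj {n : ℕ} {r r' : Setoid (Fin n)} (h : arcs r = arcs r') : r = r' := by
  have h1 : ∀ i j, IsArc r i j ↔ IsArc r' i j := by
    intro i j
    have h2 := mem_arcs r i j
    rw [h, mem_arcs r' i j] at h2
    constructor
    · intro h3
      obtain ⟨_, _, h4⟩ := h2.2 ⟨i.2, j.2, h3⟩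
      exact h4
    · intro h3
      obtain ⟨_, _, h4⟩ := h2.1 ⟨i.2, j.2, h3⟩
      exact h4
  have h2 : IsArc r = IsArc r' := by
    funext i j; exact propext (h1 i j)
  have key : ∀ (r r' : Setoid (Fin n)), IsArc r = IsArc r' → ∀ i j, i ≤ j → r i j → r' i j := by
    intro r r' h i j hij hr
    apply rel_of_path
    rw [← h]
    exact path_of_rel r _ i j hij le_rfl hr
  have key2 : ∀ (r r' : Setoid (Fin n)), IsArc r = IsArc r' → ∀ i j, r i j → r' i j := by
    intro r r' h i j hr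
    rcases le_total i j with hij | hij
    · exact key r r' h i j hij hr
    · exact r'.symm (key r r' h j i hij (r.symm hr))
  ext i j
  exact ⟨key2 r r' h2 i j, key2 r' r h2.symm i j⟩

section surj

variable {n : ℕ} {A : Finset (ℕ × ℕ)} (hA : Vd n n A ∅)

/-- the relation of the arcs -/
def RA (n : ℕ) (A : Finset (ℕ × ℕ)) (u v : Fin n) : Prop := (u.1, v.1) ∈ A

include hA in
lemma RA_lt {u v : Fin n} (h : RA n A u v) : u < v := (hA.rg _ _ h).1

include hA in
lemma path_le {u v : Fin n} (h : Relation.ReflTransGen (RA n A) u v) : u ≤ v := by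
  induction h with
  | refl => exact le_rfl
  | tail _ h ih => exact ih.trans (RA_lt hA h).le

include hA in
lemma RA_right {u v w : Fin n} (h1 : Relation.ReflTransGen (RA n A) u v)
    (h2 : Relation.ReflTransGen (RA n A) u w) :
    Relation.ReflTransGen (RA n A) v w ∨ Relation.ReflTransGen (RA n A) w v :=
  Relation.ReflTransGen.total_of_right_unique
    (fun _ _ _ h h' => Fin.ext (hA.ru _ _ _ h h')) h1 h2

include hA in
lemma RA_left {u v w : Fin n} (h1 : Relation.ReflTransGen (RA n A) v u)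
    (h2 : Relation.ReflTransGen (RA n A) w u) :
    Relation.ReflTransGen (RA n A) v w ∨ Relation.ReflTransGen (RA n A) w v := by
  have h1' := Relation.reflTransGen_swap.2 h1
  have h2' := Relation.reflTransGen_swap.2 h2
  have hu : Relator.RightUnique (Function.swap (RA n A)) :=
    fun a b c h h' => Fin.ext (hA.lu b.1 c.1 a.1 h h')
  rcases Relation.ReflTransGen.total_of_right_unique hu h1' h2' with h | h
  · exact Or.inr (Relation.reflTransGen_swap.1 h)
  · exact Or.inl (Relation.reflTransGen_swap.1 h)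

/-- the partition of the arcs -/
def SA (hA : Vd n n A ∅) : Setoid (Fin n) where
  r u v := Relation.ReflTransGen (RA n A) u v ∨ Relation.ReflTransGen (RA n A) v u
  iseqv := by
    refine ⟨fun _ => Or.inl Relation.ReflTransGen.refl, fun h => h.symm, ?_⟩
    rintro u v w (h1 | h1) (h2 | h2)
    · exact Or.inl (h1.trans h2)
    · exact RA_left hA h1 h2
    · exact RA_right hA h1 h2
    · exact Or.inr (h2.trans h1)

lemma isArc_SA (u v : Fin n) : IsArc (SA hA) u v ↔ RA n A u v := by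
  constructor
  · rintro ⟨h1, h2, h3⟩
    have h2' : Relation.ReflTransGen (RA n A) u v := by
      rcases h2 with h2 | h2
      · exact h2
      · exact absurd (path_le hA h2) (not_le.2 h1)
    rcases h2'.cases_head with h4 | ⟨c, h4, h5⟩
    · exact absurd h4 h1.ne
    · have h6 : c ≤ v := path_le hA h5
      have h7 : c = v := by
        by_contra hne
        exact h3 c (RA_lt hA h4) (lt_of_le_of_ne h6 hne) (Or.inl (Relation.ReflTransGen.single h4))
      rwa [h7] at h4
  · intro h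
    refine ⟨RA_lt hA h, Or.inl (Relation.ReflTransGen.single h), ?_⟩
    rintro c h1 h2 (h3 | h3)
    · rcases h3.cases_head with h4 | ⟨d, h4, h5⟩
      · exact absurd h4 h1.ne
      · have h6 : d = v := Fin.ext (hA.ru _ _ _ h4 h)
        rw [h6] at h5
        exact absurd (path_le hA h5) (not_le.2 h2)
    · exact absurd (path_le hA h3) (not_le.2 h1)

lemma arcs_SA : arcs (SA hA) = A := by
  ext ⟨i, j⟩
  rw [mem_arcs]
  constructor
  · rintro ⟨hi, hj, h⟩
    exact (isArc_SA hA _ _).1 h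
  · intro h
    have := hA.rg i j h
    exact ⟨this.2.2, this.2.1, (isArc_SA hA _ _).2 h⟩

lemma SA_nc : ¬ Has3Crossing (SA hA) := by
  rintro ⟨i1, j1, i2, j2, i3, j3, h1, h2, h3, c1, c2, c3, c4, c5⟩
  exact hA.nc _ _ _ _ _ _ ((isArc_SA hA _ _).1 h1) ((isArc_SA hA _ _).1 h2)
    ((isArc_SA hA _ _).1 h3) c1 c2 c3 c4 c5

end surj

/-- the number of the non-3-crossing partitions -/
theorem card_part (n : ℕ) : Nat.card {r : Setoid (Fin n) // ¬ Has3Crossing r} =
    ((DD n n).filter fun p => p.2 = ∅).card := by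
  rw [← Fintype.card_coe, ← Nat.card_eq_fintype_card]
  refine Nat.card_eq_of_bijective (fun r => ⟨(arcs r.1, ∅), ?_⟩) ⟨?_, ?_⟩
  · rw [mem_filter, mem_DD]
    exact ⟨arcs_vd r.1 r.2, rfl⟩
  · rintro ⟨r, hr⟩ ⟨r', hr'⟩ h
    simp only [Subtype.mk.injEq, Prod.mk.injEq, and_true] at h
    exact Subtype.ext (arcs_inj h)
  · rintro ⟨⟨A, S⟩, h⟩
    rw [mem_filter, mem_DD] at h
    obtain ⟨h1, h2⟩ := h
    simp only at h1 h2
    subst h2
    refine ⟨⟨SA h1, SA_nc h1⟩, ?_⟩
    apply Subtype.ext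
    show (arcs (SA h1), (∅ : Finset ℕ)) = (A, ∅)
    rw [arcs_SA]

/-- the main theorem for lengths `m + 1` -/
theorem main (m : ℕ) : Nat.card {a : Fin (m + 1) → ℕ // IsAscentSeq a ∧ Avoids210 a} =
    Nat.card {r : Setoid (Fin (m + 1)) // ¬ Has3Crossing r} := by
  rw [card_asc, card_part]
  exact_mod_cast (card_closed m).symm

end Pool.Agent.R746.AS
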