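import Mathlib

/-!
# Functions algebraic over the polynomials on a set, smooth algebraic functions
-/

namespace Pool.Agent.R746.SD

open Polynomial Filter Topology
open scoped Polynomial.Bivariate

/-- evaluation of polynomials on a set -/
noncomputable def ev (I : Set ℝ) : ℝ[X] →+* (I → ℝ) :=
  RingHom.pi fun x => evalRingHom (x : ℝ)

/-- `h` satisfies a nonzero polynomial equation `P(x, h x) = 0` on `I` -/
def Alg (I : Set ℝ) (h : ℝ → ℝ) : Prop :=
  ∃ P : ℝ[X][Y], P ≠ 0 ∧ ∀ x ∈ I, P.evalEval x (h x) = 0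

lemma aeval_ev (I : Set ℝ) (h : I → ℝ) (P : ℝ[X][Y]) (x : I) :
    (letI := (ev I).toAlgebra; aeval h P) x = P.evalEval (x : ℝ) (h x) := by
  let _ := (ev I).toAlgebra
  have : Pi.evalRingHom (fun _ : I => ℝ) x (aeval h P) = P.evalEval (x : ℝ) (h x) := by
    rw [aeval_def, hom_eval₂, ← eval₂_evalRingHom]
    rfl
  exact this

lemma alg_iff (I : Set ℝ) (h : ℝ → ℝ) :
    Alg I h ↔ (letI := (ev I).toAlgebra; IsAlgebraic ℝ[X] (I.domRestrict h)) := by
  let _ := (ev I).toAlgebra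
  constructor
  · rintro ⟨P, hP, h0⟩
    refine ⟨P, hP, ?_⟩
    funext x
    rw [aeval_ev]
    exact h0 x x.2
  · rintro ⟨P, hP, h0⟩
    refine ⟨P, hP, fun x hx => ?_⟩
    have := congrFun h0 ⟨x, hx⟩
    rw [aeval_ev] at this
    exact this

lemma Alg.mono {I J : Set ℝ} {h : ℝ → ℝ} (hJ : Alg J h) (hIJ : I ⊆ J) : Alg I h := by
  obtain ⟨P, hP, h0⟩ := hJ
  exact ⟨P, hP, fun x hx => h0 x (hIJ hx)⟩

lemma Alg.union {I J : Set ℝ} {h : ℝ → ℝ} (hI : Alg I h) (hJ : Alg J h) : Alg (I ∪ J) h := by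
  obtain ⟨P, hP, h0⟩ := hI
  obtain ⟨Q, hQ, h1⟩ := hJ
  refine ⟨P * Q, mul_ne_zero hP hQ, fun x hx => ?_⟩
  rw [evalEval_mul]
  rcases hx with hx | hx
  · rw [h0 x hx, zero_mul]
  · rw [h1 x hx, mul_zero]

lemma Alg.add {I : Set ℝ} {g h : ℝ → ℝ} (hg : Alg I g) (hh : Alg I h) :
    Alg I (fun x => g x + h x) := by
  let _ := (ev I).toAlgebra
  rw [alg_iff] at hg hh ⊢
  exact hg.add hh

lemma Alg.sub {I : Set ℝ} {g h : ℝ → ℝ} (hg : Alg I g) (hh : Alg I h) :
    Alg I (fun x => g x - h x) := by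
  let _ := (ev I).toAlgebra
  rw [alg_iff] at hg hh ⊢
  exact hg.sub hh

lemma Alg.poly {I : Set ℝ} {h : ℝ → ℝ} (hh : Alg I h) (P : ℝ[X][Y]) :
    Alg I (fun x => P.evalEval x (h x)) := by
  let _ := (ev I).toAlgebra
  rw [alg_iff] at hh ⊢
  have h1 : I.domRestrict h ∈ Subalgebra.algebraicClosure ℝ[X] (I → ℝ) := hh
  have h2 : aeval (I.domRestrict h) P ∈ Subalgebra.algebraicClosure ℝ[X] (I → ℝ) := by
    have := (Subalgebra.algebraicClosure ℝ[X] (I → ℝ)).val.comp
      (aeval (⟨I.domRestrict h, h1⟩ : Subalgebra.algebraicClosure ℝ[X] (I → ℝ)))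
    have e : aeval (I.domRestrict h) P = ((aeval
      (⟨I.domRestrict h, h1⟩ : Subalgebra.algebraicClosure ℝ[X] (I → ℝ)) P :
        Subalgebra.algebraicClosure ℝ[X] (I → ℝ)) : I → ℝ) := by
      rw [← Subalgebra.coe_val, ← aeval_algHom_apply]
      rfl
    rw [e]
    exact Subtype.property _
  have h3 : I.domRestrict (fun x => P.evalEval x (h x)) = aeval (I.domRestrict h) P := by
    funext x
    rw [aeval_ev]
    rfl
  rw [h3]
  exact h2

lemma Alg.of_finite {I : Set ℝ} {h : ℝ → ℝ} (hf : (h '' I).Finite) : Alg I h := by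
  classical
  refine ⟨∏ k ∈ hf.toFinset, (X - C (C k)), ?_, fun x hx => ?_⟩
  · exact Finset.prod_ne_zero_iff.2 fun k _ => X_sub_C_ne_zero _
  · rw [evalEval_prod]
    refine Finset.prod_eq_zero (i := h x) ?_ ?_
    · simpa using ⟨x, hx, rfl⟩
    · rw [evalEval_sub, evalEval_X, evalEval_C, eval_C, sub_self]

lemma Alg.const (I : Set ℝ) (c : ℝ) : Alg I (fun _ => c) :=
  Alg.of_finite ((Set.finite_singleton c).subset (by rintro _ ⟨x, _, rfl⟩; rfl))

/-- shifting the first variable -/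
lemma exists_shift {P : ℝ[X][Y]} (hP : P ≠ 0) (a : ℝ) :
    ∃ P' : ℝ[X][Y], P' ≠ 0 ∧ ∀ x y, P'.evalEval x y = P.evalEval (x + a) y := by
  refine ⟨P.map (compRingHom (X + C a)), ?_, fun x y => ?_⟩
  · have hinj : Function.Injective (compRingHom (X + C a) : ℝ[X] →+* ℝ[X]) := by
      intro p q hpq
      apply taylor_injective a
      rw [taylor_apply, taylor_apply]
      exact hpq
    exact (Polynomial.map_ne_zero_iff hinj).2 hP
  · rw [← eval₂_evalRingHom, ← eval₂_evalRingHom, eval₂_map]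
    congr 1
    ext
    · simp
    · simp

lemma Alg.shift {I : Set ℝ} {h : ℝ → ℝ} (hh : Alg I h) (a : ℝ) :
    Alg {x | x + a ∈ I} (fun x => h (x + a)) := by
  obtain ⟨P, hP, h0⟩ := hh
  obtain ⟨P', hP', h1⟩ := exists_shift hP a
  exact ⟨P', hP', fun x hx => by rw [h1]; exact h0 _ hx⟩

lemma continuous_evalEval_right (P : ℝ[X][Y]) (x : ℝ) : Continuous (fun y => P.evalEval x y) := by
  have : (fun y => P.evalEval x y) = fun y => (P.map (evalRingHom x)).eval y := by
    funext y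
    rw [map_evalRingHom_eval]
  rw [this]
  exact Polynomial.continuous _

lemma contDiff_evalEval (P : ℝ[X][Y]) {h : ℝ → ℝ} {n : WithTop ℕ∞} (hh : ContDiff ℝ n h) :
    ContDiff ℝ n (fun x => P.evalEval x (h x)) := by
  have : (fun x => P.evalEval x (h x)) =
      fun x => ∑ i ∈ Finset.range (P.natDegree + 1), (P.coeff i).eval x * h x ^ i := by
    funext x
    rw [← eval₂_evalRingHom, eval₂_eq_sum_range]
    rfl
  rw [this]
  refine ContDiff.sum fun i _ => ContDiff.mul ?_ (hh.pow i)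
  simpa using Polynomial.contDiff_aeval (P.coeff i) n (𝕜 := ℝ)

/-- splitting off the power of `Y` -/
lemma exists_split {P : ℝ[X][Y]} (hP : P ≠ 0) :
    ∃ (m : ℕ) (r : ℝ[X]) (S : ℝ[X][Y]), r ≠ 0 ∧
      ∀ x y, P.evalEval x y = y ^ m * (r.eval x + y * S.evalEval x y) := by
  obtain ⟨R, hR, hdiv⟩ := exists_eq_pow_rootMultiplicity_mul_and_not_dvd P hP 0
  rw [map_zero, sub_zero] at hR hdiv
  refine ⟨rootMultiplicity 0 P, R.coeff 0, R.divX, fun h => hdiv (X_dvd_iff.2 h), fun x y => ?_⟩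
  conv_lhs => rw [hR, ← divX_mul_X_add R]
  rw [evalEval_mul, evalEval_pow, evalEval_X, evalEval_add, evalEval_mul, evalEval_X, evalEval_C]
  ring

/-- a smooth algebraic function which is flat at `c` vanishes near `c` -/
lemma flat {h : ℝ → ℝ} (hh : ContDiff ℝ (⊤ : ℕ∞) h) {c : ℝ} {U : Set ℝ} (hU : U ∈ 𝓝 c)
    (ha : Alg U h) (hd : ∀ k, iteratedDeriv k h c = 0) : ∀ᶠ x in 𝓝 c, h x = 0 := by
  obtain ⟨P, hP, h0⟩ := ha
  obtain ⟨m, r, S, hr, hs⟩ := exists_split hP
  obtain ⟨r1, hr1, hdiv⟩ := exists_eq_pow_rootMultiplicity_mul_and_not_dvd r hr c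
  set N := r.rootMultiplicity c with hN
  have hr1c : r1.eval c ≠ 0 := fun h => hdiv (dvd_iff_isRoot.2 h)
  have hT : h =o[𝓝 c] fun x => (x - c) ^ N := by
    have := taylor_isLittleO_univ (f := h) (x₀ := c) (n := N)
      (hh.of_le (by exact_mod_cast le_top))
    refine this.congr_left fun x => ?_
    rw [taylor_within_apply]
    have : ∀ k, iteratedDerivWithin k h Set.univ c = 0 := fun k => by
      rw [iteratedDerivWithin_univ]; exact hd k
    simp [this]
  have hcS : Continuous (fun x => S.evalEval x (h x)) := by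
    exact (contDiff_evalEval S (n := 0) (hh.of_le (by simp))).continuous
  set K : ℝ := |S.evalEval c (h c)| + 1 with hK
  have hK0 : 0 < K := by positivity
  have e1 : ∀ᶠ x in 𝓝 c, |S.evalEval x (h x)| < K :=
    (hcS.abs.tendsto c).eventually (gt_mem_nhds (lt_add_one _))
  set δ : ℝ := |r1.eval c| / 2 with hδ
  have hδ0 : 0 < δ := by have := abs_pos.2 hr1c; positivity
  have e2 : ∀ᶠ x in 𝓝 c, δ < |r1.eval x| :=
    ((Polynomial.continuous r1).abs.tendsto c).eventually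
      (lt_mem_nhds (half_lt_self (abs_pos.2 hr1c)))
  have e3 := hT.def (show 0 < δ / K by positivity)
  filter_upwards [e1, e2, e3, hU] with x x1 x2 x3 x4
  by_contra hne
  have hxc : x ≠ c := by
    rintro rfl
    exact hne (by simpa using hd 0)
  have h5 := h0 x x4
  rw [hs] at h5
  have h6 : r.eval x + h x * S.evalEval x (h x) = 0 := by
    rcases mul_eq_zero.1 h5 with h | h
    · exact absurd h (pow_ne_zero m hne)
    · exact h
  have h7 : r.eval x = (x - c) ^ N * r1.eval x := by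
    conv_lhs => rw [hr1]
    simp [eval_mul, eval_pow]
  rw [h7] at h6
  have h8 : |(x - c) ^ N| * |r1.eval x| = |h x| * |S.evalEval x (h x)| := by
    rw [← abs_mul, ← abs_mul, eq_neg_of_add_eq_zero_left h6, abs_neg]
  have h9 : 0 < |(x - c) ^ N| := abs_pos.2 (pow_ne_zero _ (sub_ne_zero.2 hxc))
  rw [Real.norm_eq_abs, Real.norm_eq_abs] at x3
  have h10 : |h x| * |S.evalEval x (h x)| ≤ (δ / K * |(x - c) ^ N|) * K :=
    mul_le_mul x3 x1.le (abs_nonneg _) (by positivity)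
  have h11 : (δ / K * |(x - c) ^ N|) * K = |(x - c) ^ N| * δ := by
    field_simp
  rw [h11, ← h8] at h10
  exact absurd (le_of_mul_le_mul_left h10 h9) (not_le.2 x2)

/-- identity theorem for smooth, locally algebraic functions -/
lemma ident {h : ℝ → ℝ} (hh : ContDiff ℝ (⊤ : ℕ∞) h) (ha : ∀ c, ∃ U ∈ 𝓝 c, Alg U h)
    {c₀ : ℝ} (h0 : ∀ᶠ x in 𝓝 c₀, h x = 0) (x : ℝ) : h x = 0 := by
  have hopen : IsOpen {c | ∀ᶠ x in 𝓝 c, h x = 0} := isOpen_setOfPred_eventually_nhds
  have hclosed : IsClosed {c | ∀ᶠ x in 𝓝 c, h x = 0} := by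
    refine isClosed_of_closure_subset fun c hc => ?_
    obtain ⟨U, hU, hUa⟩ := ha c
    refine flat hh hU hUa fun k => ?_
    have hcont : Continuous (iteratedDeriv k h) :=
      hh.continuous_iteratedDeriv k (by exact_mod_cast le_top)
    have hz : IsClosed {x | iteratedDeriv k h x = 0} := isClosed_eq hcont continuous_const
    refine closure_minimal ?_ hz hc
    intro z hz
    have e : h =ᶠ[𝓝 z] fun _ => (0 : ℝ) := hz
    have := e.iteratedDeriv_eq k
    rw [Set.mem_ofPred_eq, this]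
    simp
  have := IsClopen.eq_univ ⟨hclosed, hopen⟩ ⟨c₀, h0⟩
  have hx : x ∈ {c | ∀ᶠ x in 𝓝 c, h x = 0} := this ▸ Set.mem_univ x
  exact hx.self_of_nhds

end Pool.Agent.R746.SD
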