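import Mathlib
import Pool.Agent.H581R2.QE

/-!
# Definable sets of `(ℝ, <, +, ·|_(0,1)², ℤ)`: truth of a formula depends only on the integer
parts of the variables and on the signs of finitely many rational polynomials in the
fractional parts.
-/

namespace Pool.Agent.R746.SD

open Pool.Agent.H581R2 MvPolynomial

variable {ι κ : Type}

/-- fractional parts, coordinatewise -/
noncomputable def fr (v : ι → ℝ) : ι → ℝ := fun i => Int.fract (v i)

/-- the truth of `p` depends only on the integer parts and on finitely many signs of polynomials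
in the fractional parts -/
def Good (p : (ι → ℝ) → Prop) : Prop :=
  ∃ Q : Finset (MvPolynomial ι ℚ), ∀ v w : ι → ℝ, (∀ i, ⌊v i⌋ = ⌊w i⌋) →
    (∀ q ∈ Q, SignType.sign (aeval (fr v) q) = SignType.sign (aeval (fr w) q)) → p v → p w

lemma Good.congr {p q : (ι → ℝ) → Prop} (hp : Good p) (h : ∀ v, q v ↔ p v) : Good q := by
  have : q = p := funext fun v => propext (h v)
  rwa [this]

lemma Good.false : Good (fun _ : ι → ℝ => False) := ⟨∅, fun _ _ _ _ h => h⟩

lemma Good.not {p : (ι → ℝ) → Prop} (hp : Good p) : Good (fun v => ¬ p v) := by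
  obtain ⟨Q, hQ⟩ := hp
  exact ⟨Q, fun v w h1 h2 h3 h4 => h3 (hQ w v (fun i => (h1 i).symm) (fun q hq => (h2 q hq).symm) h4)⟩

lemma Good.and {p q : (ι → ℝ) → Prop} (hp : Good p) (hq : Good q) :
    Good (fun v => p v ∧ q v) := by
  classical
  obtain ⟨Q, hQ⟩ := hp
  obtain ⟨R, hR⟩ := hq
  refine ⟨Q ∪ R, fun v w h1 h2 h3 => ⟨hQ v w h1 (fun q hq => h2 q ?_) h3.1,
    hR v w h1 (fun q hq => h2 q ?_) h3.2⟩⟩
  · simp [hq]
  · simp [hq]

lemma Good.imp {p q : (ι → ℝ) → Prop} (hp : Good p) (hq : Good q) :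
    Good (fun v => p v → q v) :=
  (hp.and hq.not).not.congr fun v => by tauto

/-- reindexing -/
lemma Good.reindex {p : (κ → ℝ) → Prop} (hp : Good p) (s : κ → ι) :
    Good (fun v : ι → ℝ => p (v ∘ s)) := by
  classical
  obtain ⟨Q, hQ⟩ := hp
  refine ⟨Q.image (rename s), fun v w h1 h2 h3 => ?_⟩
  refine hQ (v ∘ s) (w ∘ s) (fun i => h1 (s i)) (fun q hq => ?_) h3
  have h := h2 (rename s q) (Finset.mem_image_of_mem _ hq)
  rw [aeval_rename, aeval_rename] at h
  exact h

/-- existential quantifier over the reals -/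
lemma Good.ex {p : (Option ι → ℝ) → Prop} (hp : Good p) :
    Good (fun v : ι → ℝ => ∃ t, p (ext t v)) := by
  classical
  obtain ⟨Q, hQ⟩ := hp
  -- the semialgebraic conditions
  have key : ∀ σ : Q → SignType, SAP (fun v : ι → ℝ => ∃ s : ℝ,
      (0 ≤ s ∧ s < 1) ∧ ∀ q : Q, SignType.sign (aeval (ext s v) (q : MvPolynomial (Option ι) ℚ)) = σ q) := by
    intro σ
    refine SAP.exists_real (p := fun u : Option ι → ℝ => (0 ≤ u none ∧ u none < 1) ∧
      ∀ q : Q, SignType.sign (aeval u (q : MvPolynomial (Option ι) ℚ)) = σ q) ?_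
    refine ((SAP.le PF.zero (PF.coord none)).and (SAP.lt (PF.coord none) PF.one)).and ?_
    have := SAP.forall_mem (ι := Option ι) (Finset.univ : Finset Q)
      (p := fun q u => SignType.sign (aeval u (q : MvPolynomial (Option ι) ℚ)) = σ q)
      (fun q _ => SAP.sign_eq (PF.aeval _) _)
    exact this.congr fun v => by simp
  choose R hR using fun σ => (key σ)
  refine ⟨Finset.univ.biUnion R, fun v w h1 h2 => ?_⟩
  rintro ⟨t, ht⟩
  have h3 := hR (fun q => SignType.sign (aeval (ext (Int.fract t) (fr v)) (q : MvPolynomial (Option ι) ℚ)))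
    (fr v) (fr w) (fun q hq => h2 q (Finset.mem_biUnion.2 ⟨_, Finset.mem_univ _, hq⟩))
    ⟨Int.fract t, ⟨Int.fract_nonneg t, Int.fract_lt_one t⟩, fun q => rfl⟩
  obtain ⟨s, ⟨hs0, hs1⟩, hs⟩ := h3
  refine ⟨⌊t⌋ + s, hQ (ext t v) (ext (⌊t⌋ + s) w) ?_ ?_ ht⟩
  · intro i
    cases i with
    | none =>
      show ⌊t⌋ = ⌊(⌊t⌋ : ℝ) + s⌋
      rw [Int.floor_intCast_add, Int.floor_eq_zero_iff.2 ⟨hs0, hs1⟩, add_zero]
    | some i => exact h1 i
  · intro q hq
    have e1 : fr (ext t v) = ext (Int.fract t) (fr v) := by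
      funext i; cases i <;> rfl
    have e2 : fr (ext (⌊t⌋ + s) w) = ext s (fr w) := by
      funext i
      cases i with
      | none =>
        show Int.fract ((⌊t⌋ : ℝ) + s) = s
        rw [Int.fract_intCast_add, Int.fract_eq_self.2 ⟨hs0, hs1⟩]
      | some i => rfl
    rw [e1, e2]
    exact (hs ⟨q, hq⟩).symm

lemma Good.all {p : (Option ι → ℝ) → Prop} (hp : Good p) :
    Good (fun v : ι → ℝ => ∀ t, p (ext t v)) :=
  hp.not.ex.not.congr fun v => by simp

lemma sub_eq_fl (a b : ℝ) : a - b = ((⌊a⌋ - ⌊b⌋ : ℤ) : ℝ) + (Int.fract a - Int.fract b) := by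
  have h1 := Int.floor_add_fract a
  have h2 := Int.floor_add_fract b
  push_cast
  linarith

lemma Good.eq (i j : ι) : Good (fun v : ι → ℝ => v i = v j) := by
  refine ⟨{X i - X j}, fun v w h1 h2 h3 => ?_⟩
  have h := h2 _ (Finset.mem_singleton_self _)
  simp only [map_sub, aeval_X, fr] at h
  rw [h3, sub_self, sign_zero, eq_comm, sign_eq_zero_iff] at h
  have := sub_eq_fl (w i) (w j)
  rw [h, ← h1 i, ← h1 j, h3] at this
  simp at this
  linarith

lemma Good.lt (i j : ι) : Good (fun v : ι → ℝ => v i < v j) := by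
  refine ⟨{X i - X j}, fun v w h1 h2 h3 => ?_⟩
  have h := h2 _ (Finset.mem_singleton_self _)
  simp only [map_sub, aeval_X, fr] at h
  have ev := sub_eq_fl (v i) (v j)
  have ew := sub_eq_fl (w i) (w j)
  rw [← h1 i, ← h1 j] at ew
  have w0 := Int.fract_nonneg (w i)
  have w1 := Int.fract_lt_one (w i)
  have w2 := Int.fract_nonneg (w j)
  have w3 := Int.fract_lt_one (w j)
  have v0 := Int.fract_nonneg (v i)
  have v1 := Int.fract_lt_one (v i)
  have v2 := Int.fract_nonneg (v j)
  have v3 := Int.fract_lt_one (v j)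
  rcases lt_trichotomy (⌊v i⌋ - ⌊v j⌋) 0 with hn | hn | hn
  · have : ((⌊v i⌋ - ⌊v j⌋ : ℤ) : ℝ) ≤ -1 := by
      have : (⌊v i⌋ - ⌊v j⌋) ≤ -1 := by omega
      exact_mod_cast this
    linarith
  · rw [hn] at ev ew
    simp only [Int.cast_zero, zero_add] at ev ew
    have hneg : Int.fract (v i) - Int.fract (v j) < 0 := by linarith
    rw [sign_neg hneg, eq_comm, sign_eq_neg_one_iff] at h
    linarith
  · have : (1 : ℝ) ≤ ((⌊v i⌋ - ⌊v j⌋ : ℤ) : ℝ) := by
      have : 1 ≤ (⌊v i⌋ - ⌊v j⌋) := by omega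
      exact_mod_cast this
    linarith

lemma Good.add (k i j : ι) : Good (fun v : ι → ℝ => v k = v i + v j) := by
  classical
  refine ⟨{X i + X j - X k, X i + X j - X k - 1}, fun v w h1 h2 h3 => ?_⟩
  have ha := h2 (X i + X j - X k) (by simp)
  have hb := h2 (X i + X j - X k - 1) (by simp)
  simp only [map_sub, map_add, aeval_X, fr, map_one] at ha hb
  have v0 := Int.fract_nonneg (v i)
  have v1 := Int.fract_lt_one (v i)
  have v2 := Int.fract_nonneg (v j)
  have v3 := Int.fract_lt_one (v j)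
  have v4 := Int.fract_nonneg (v k)
  have v5 := Int.fract_lt_one (v k)
  have e1 := Int.floor_add_fract (v i)
  have e2 := Int.floor_add_fract (v j)
  have e3 := Int.floor_add_fract (v k)
  have g1 := Int.floor_add_fract (w i)
  have g2 := Int.floor_add_fract (w j)
  have g3 := Int.floor_add_fract (w k)
  rw [← h1] at g1 g2 g3
  have key : ((⌊v k⌋ - ⌊v i⌋ - ⌊v j⌋ : ℤ) : ℝ) = Int.fract (v i) + Int.fract (v j) - Int.fract (v k) := by
    push_cast; linarith
  have hn1 : (⌊v k⌋ - ⌊v i⌋ - ⌊v j⌋) < 2 := by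
    have : ((⌊v k⌋ - ⌊v i⌋ - ⌊v j⌋ : ℤ) : ℝ) < 2 := by linarith
    exact_mod_cast this
  have hn0 : -1 < (⌊v k⌋ - ⌊v i⌋ - ⌊v j⌋) := by
    have : (-1 : ℝ) < ((⌊v k⌋ - ⌊v i⌋ - ⌊v j⌋ : ℤ) : ℝ) := by linarith
    exact_mod_cast this
  rcases (by omega : (⌊v k⌋ - ⌊v i⌋ - ⌊v j⌋) = 0 ∨ (⌊v k⌋ - ⌊v i⌋ - ⌊v j⌋) = 1) with hn | hn
  · rw [hn] at key
    have key' : Int.fract (v i) + Int.fract (v j) - Int.fract (v k) = 0 := by
      rw [← key]; simp
    rw [key', sign_zero, eq_comm, sign_eq_zero_iff] at ha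
    have : ((⌊v k⌋ - ⌊v i⌋ - ⌊v j⌋ : ℤ) : ℝ) = 0 := by rw [hn]; simp
    push_cast at this
    linarith
  · rw [hn] at key
    have key' : Int.fract (v i) + Int.fract (v j) - Int.fract (v k) - 1 = 0 := by
      rw [← key]; simp
    rw [key', sign_zero, eq_comm, sign_eq_zero_iff] at hb
    have : ((⌊v k⌋ - ⌊v i⌋ - ⌊v j⌋ : ℤ) : ℝ) = 1 := by rw [hn]; simp
    push_cast at this
    linarith

lemma Good.int (i : ι) : Good (fun v : ι → ℝ => ∃ n : ℤ, v i = n) := by
  refine ⟨{X i}, fun v w h1 h2 h3 => ?_⟩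
  have h := h2 _ (Finset.mem_singleton_self _)
  simp only [aeval_X, fr] at h
  obtain ⟨n, hn⟩ := h3
  rw [hn, Int.fract_intCast, sign_zero, eq_comm, sign_eq_zero_iff] at h
  refine ⟨⌊w i⌋, ?_⟩
  have := Int.floor_add_fract (w i)
  linarith

lemma fract_of_unit {x : ℝ} (h0 : 0 < x) (h1 : x < 1) : Int.fract x = x :=
  Int.fract_eq_self.2 ⟨h0.le, h1⟩

lemma unit_of {v w : ℝ} (hfl : ⌊v⌋ = ⌊w⌋) (h0 : 0 < v) (h1 : v < 1)
    (hs : SignType.sign (Int.fract v) = SignType.sign (Int.fract w)) :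
    (0 < w ∧ w < 1) ∧ Int.fract w = w := by
  have e : ⌊v⌋ = 0 := Int.floor_eq_zero_iff.2 ⟨h0.le, h1⟩
  have e2 : ⌊w⌋ = 0 := hfl ▸ e
  have e3 : Int.fract w = w := by
    have := Int.floor_add_fract w
    rw [e2] at this
    simpa using this
  rw [fract_of_unit h0 h1, sign_pos h0, eq_comm, sign_eq_one_iff, e3] at hs
  refine ⟨⟨hs, ?_⟩, e3⟩
  rw [← e3]
  exact Int.fract_lt_one w

lemma Good.mul (i j k : ι) : Good (fun v : ι → ℝ =>
    (0 < v i ∧ v i < 1) ∧ (0 < v j ∧ v j < 1) ∧ v k = v i * v j) := by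
  classical
  refine ⟨{X i, X j, X k, X k - X i * X j}, fun v w h1 h2 h3 => ?_⟩
  have ha := h2 (X i) (by simp)
  have hb := h2 (X j) (by simp)
  have hc := h2 (X k) (by simp)
  have hd := h2 (X k - X i * X j) (by simp)
  simp only [map_sub, map_mul, aeval_X, fr] at ha hb hc hd
  obtain ⟨⟨i0, i1⟩, ⟨j0, j1⟩, hk⟩ := h3
  have k0 : 0 < v k := by rw [hk]; positivity
  have k1 : v k < 1 := by rw [hk]; nlinarith
  obtain ⟨a1, a2⟩ := unit_of (h1 i) i0 i1 ha
  obtain ⟨b1, b2⟩ := unit_of (h1 j) j0 j1 hb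
  obtain ⟨c1, c2⟩ := unit_of (h1 k) k0 k1 hc
  refine ⟨a1, b1, ?_⟩
  rw [fract_of_unit i0 i1, fract_of_unit j0 j1, fract_of_unit k0 k1, a2, b2, c2, hk, sub_self,
    sign_zero, eq_comm, sign_eq_zero_iff] at hd
  linarith

/-! ## The structure -/

/-- relation symbols: order, graph of multiplication on the open unit square, integers -/
inductive Rels : ℕ → Type
  | lt : Rels 2
  | mul : Rels 3
  | int : Rels 1

/-- function symbols: addition -/
inductive Fns : ℕ → Type
  | add : Fns 2

/-- the language of `(ℝ, <, +, ·|_(0,1)², ℤ)` -/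
def LZ : FirstOrder.Language := ⟨Fns, Rels⟩

/-- the structure `(ℝ, <, +, ·|_(0,1)², ℤ)` -/
instance : LZ.Structure ℝ where
  funMap := fun {n} f => match n, f with
    | _, Fns.add => fun v => v 0 + v 1
  RelMap := fun {n} r => match n, r with
    | _, Rels.lt => fun v => v 0 < v 1
    | _, Rels.mul => fun v => (0 < v 0 ∧ v 0 < 1) ∧ (0 < v 1 ∧ v 1 < 1) ∧ v 2 = v 0 * v 1
    | _, Rels.int => fun v => ∃ n : ℤ, v 0 = n

open FirstOrder FirstOrder.Language

/-- graphs of terms are good -/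
lemma Good.term (t : LZ.Term ι) : Good (fun v : Option ι → ℝ => v none = t.realize (v ∘ some)) := by
  induction t with
  | var i => exact Good.eq _ _
  | @func n f ts ih =>
    match n, f, ts, ih with
    | _, Fns.add, ts, ih =>
      have h0 : Good (fun u : Option (Option (Option ι)) → ℝ =>
          (u none = (ts 0).realize (fun i => u (some (some (some i)))) ∧
          u (some none) = (ts 1).realize (fun i => u (some (some (some i))))) ∧
          u (some (some none)) = u none + u (some none)) := by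
        refine ((((ih 0).reindex (fun o : Option ι => (o.elim none
          (fun i => some (some (some i))) : Option (Option (Option ι))))).and
          ((ih 1).reindex (fun o : Option ι => (o.elim (some none)
          (fun i => some (some (some i))) : Option (Option (Option ι)))))).and
          (Good.add (some (some none)) none (some none)))
      refine h0.ex.ex.congr fun v => ?_
      show v none = (ts 0).realize (v ∘ some) + (ts 1).realize (v ∘ some) ↔
        ∃ a b : ℝ, (b = (ts 0).realize (v ∘ some) ∧ a = (ts 1).realize (v ∘ some)) ∧ v none = b + a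
      constructor
      · intro h
        exact ⟨_, _, ⟨rfl, rfl⟩, h⟩
      · rintro ⟨a, b, ⟨rfl, rfl⟩, h⟩
        exact h

lemma Good.equal (t s : LZ.Term ι) : Good (fun v : ι → ℝ => t.realize v = s.realize v) := by
  have h0 : Good (fun u : Option ι → ℝ => u none = t.realize (u ∘ some) ∧
      u none = s.realize (u ∘ some)) := (Good.term t).and (Good.term s)
  refine h0.ex.congr fun v => ?_
  show _ ↔ ∃ a : ℝ, a = t.realize v ∧ a = s.realize v
  constructor
  · intro h; exact ⟨_, rfl, h⟩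
  · rintro ⟨a, rfl, h⟩; exact h

/-- substitution of terms in a good predicate in one variable -/
lemma Good.subst1 {p : (Option ι → ℝ) → Prop} (hp : Good p) (t : LZ.Term ι) :
    Good (fun v : ι → ℝ => p (ext (t.realize v) v)) := by
  refine ((Good.term t).and hp).ex.congr fun v => ?_
  show _ ↔ ∃ a : ℝ, a = t.realize v ∧ p (ext a v)
  constructor
  · intro h; exact ⟨_, rfl, h⟩
  · rintro ⟨a, rfl, h⟩; exact h

lemma Good.rel1 {p : ℝ → Prop} (hp : Good (fun v : Fin 1 → ℝ => p (v 0))) (t : LZ.Term ι) :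
    Good (fun v : ι → ℝ => p (t.realize v)) :=
  (hp.reindex (fun _ : Fin 1 => (none : Option ι))).subst1 t

lemma Good.rel2 {p : ℝ → ℝ → Prop} (hp : Good (fun v : Fin 2 → ℝ => p (v 0) (v 1)))
    (t s : LZ.Term ι) : Good (fun v : ι → ℝ => p (t.realize v) (s.realize v)) := by
  have h0 : Good (fun u : Option (Option ι) → ℝ => p (u none) (u (some none))) := by
    exact hp.reindex (![none, some none] : Fin 2 → Option (Option ι))
  have h1 := ((Good.term s).reindex (fun o : Option ι => (o.elim (some none)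
          (fun i => some (some i)) : Option (Option ι))))
  have h2 := ((Good.term t).reindex (fun o : Option ι => (o.elim none
          (fun i => some (some i)) : Option (Option ι))))
  refine ((h2.and h1).and h0).ex.ex.congr fun v => ?_
  show _ ↔ ∃ a b : ℝ, (b = t.realize v ∧ a = s.realize v) ∧ p b a
  constructor
  · intro h; exact ⟨_, _, ⟨rfl, rfl⟩, h⟩
  · rintro ⟨a, b, ⟨rfl, rfl⟩, h⟩; exact h

lemma Good.rel3 {p : ℝ → ℝ → ℝ → Prop} (hp : Good (fun v : Fin 3 → ℝ => p (v 0) (v 1) (v 2)))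
    (t s r : LZ.Term ι) :
    Good (fun v : ι → ℝ => p (t.realize v) (s.realize v) (r.realize v)) := by
  have h0 : Good (fun u : Option (Option (Option ι)) → ℝ =>
      p (u none) (u (some none)) (u (some (some none)))) := by
    exact hp.reindex (![none, some none, some (some none)] : Fin 3 → Option (Option (Option ι)))
  have h1 := ((Good.term r).reindex (fun o : Option ι => (o.elim (some (some none))
          (fun i => some (some (some i))) : Option (Option (Option ι)))))
  have h2 := ((Good.term s).reindex (fun o : Option ι => (o.elim (some none)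
          (fun i => some (some (some i))) : Option (Option (Option ι)))))
  have h3 := ((Good.term t).reindex (fun o : Option ι => (o.elim none
          (fun i => some (some (some i))) : Option (Option (Option ι)))))
  refine ((h3.and (h2.and h1)).and h0).ex.ex.ex.congr fun v => ?_
  show _ ↔ ∃ a b c : ℝ, (c = t.realize v ∧ b = s.realize v ∧ a = r.realize v) ∧ p c b a
  constructor
  · intro h; exact ⟨_, _, _, ⟨rfl, rfl, rfl⟩, h⟩
  · rintro ⟨a, b, c, ⟨rfl, rfl, rfl⟩, h⟩; exact h

/-- every formula is good -/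
theorem Good.formula {α : Type} {n : ℕ} (φ : LZ.BoundedFormula α n) :
    Good (fun v : α ⊕ Fin n → ℝ => φ.Realize (v ∘ Sum.inl) (v ∘ Sum.inr)) := by
  induction φ with
  | falsum => exact Good.false
  | @equal n t s =>
    refine (Good.equal t s).congr fun v => ?_
    have : Sum.elim (v ∘ Sum.inl) (v ∘ Sum.inr) = v := by
      funext i; cases i <;> rfl
    change t.realize (Sum.elim (v ∘ Sum.inl) (v ∘ Sum.inr)) =
      s.realize (Sum.elim (v ∘ Sum.inl) (v ∘ Sum.inr)) ↔ _
    rw [this]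
  | @rel n l R ts =>
    have e : ∀ v : α ⊕ Fin n → ℝ, Sum.elim (v ∘ Sum.inl) (v ∘ Sum.inr) = v := by
      intro v; funext i; cases i <;> rfl
    match l, R, ts with
    | _, Rels.lt, ts =>
      refine (Good.rel2 (p := fun a b => a < b) (Good.lt 0 1) (ts 0) (ts 1)).congr fun v => ?_
      change (ts 0).realize (Sum.elim (v ∘ Sum.inl) (v ∘ Sum.inr)) <
        (ts 1).realize (Sum.elim (v ∘ Sum.inl) (v ∘ Sum.inr)) ↔ _
      rw [e]
    | _, Rels.mul, ts =>
      refine (Good.rel3 (p := fun a b c => (0 < a ∧ a < 1) ∧ (0 < b ∧ b < 1) ∧ c = a * b)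
        (Good.mul 0 1 2) (ts 0) (ts 1) (ts 2)).congr fun v => ?_
      have e' := e v
      change (fun w : α ⊕ Fin n → ℝ => (0 < (ts 0).realize w ∧ (ts 0).realize w < 1) ∧
        (0 < (ts 1).realize w ∧ (ts 1).realize w < 1) ∧
          (ts 2).realize w = (ts 0).realize w * (ts 1).realize w)
        (Sum.elim (v ∘ Sum.inl) (v ∘ Sum.inr)) ↔ _
      rw [e']
    | _, Rels.int, ts =>
      refine (Good.rel1 (p := fun a => ∃ n : ℤ, a = n) (Good.int 0) (ts 0)).congr fun v => ?_
      change (∃ m : ℤ, (ts 0).realize (Sum.elim (v ∘ Sum.inl) (v ∘ Sum.inr)) = m) ↔ _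
      rw [e]
  | @imp n φ ψ ih1 ih2 =>
    refine (ih1.imp ih2).congr fun v => ?_
    rw [BoundedFormula.realize_imp]
  | @all n φ ih =>
    have h := ih.reindex (fun o : α ⊕ Fin (n+1) => (Sum.elim (fun a => some (Sum.inl a))
      (fun i => Fin.snoc (α := fun _ => Option (α ⊕ Fin n)) (fun i => some (Sum.inr i)) none i) o :
        Option (α ⊕ Fin n)))
    refine h.all.congr fun v => ?_
    rw [BoundedFormula.realize_all]
    refine forall_congr' fun a => ?_
    have e1 : ((ext a v ∘ fun o : α ⊕ Fin (n+1) => (Sum.elim (fun a => some (Sum.inl a))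
      (fun i => Fin.snoc (α := fun _ => Option (α ⊕ Fin n)) (fun i => some (Sum.inr i)) none i) o :
        Option (α ⊕ Fin n))) ∘ Sum.inl) = v ∘ Sum.inl := by
      funext i; rfl
    have e2 : ((ext a v ∘ fun o : α ⊕ Fin (n+1) => (Sum.elim (fun a => some (Sum.inl a))
      (fun i => Fin.snoc (α := fun _ => Option (α ⊕ Fin n)) (fun i => some (Sum.inr i)) none i) o :
        Option (α ⊕ Fin n))) ∘ Sum.inr) = Fin.snoc (v ∘ Sum.inr) a := by
      funext i
      refine Fin.lastCases ?_ (fun i => ?_) i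
      · simp
      · simp
    rw [e1, e2]

end Pool.Agent.R746.SD
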