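import Mathlib
import Pool.Agent.R746.SDGood
import Pool.Agent.R746.SDAlg

/-!
# Smooth functions definable in `(ℝ, <, +, ·|_(0,1)², ℤ)` are affine
-/

namespace Pool.Agent.R746.SD

open Filter Topology

/-- the point with parameters and two variables -/
noncomputable def pt (t s : ℝ) : (Set.univ : Set ℝ) ⊕ Fin 2 → ℝ :=
  Sum.elim (fun a => Int.fract (a : ℝ)) ![t, s]

open Polynomial in
/-- polynomials in two variables with real coefficients from rational polynomials with
parameters -/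
noncomputable def pol (q : MvPolynomial ((Set.univ : Set ℝ) ⊕ Fin 2) ℚ) : ℝ[X][X] :=
  MvPolynomial.aeval (Sum.elim (fun a : (Set.univ : Set ℝ) => C (C (Int.fract (a : ℝ)))) ![C X, X]) q

lemma pol_eval (q : MvPolynomial ((Set.univ : Set ℝ) ⊕ Fin 2) ℚ) (t s : ℝ) :
    (pol q).evalEval t s = MvPolynomial.aeval (pt t s) q := by
  have : (Polynomial.evalEvalRingHom t s).comp
      (MvPolynomial.aeval (R := ℚ) (Sum.elim (fun a : (Set.univ : Set ℝ) =>
        Polynomial.C (Polynomial.C (Int.fract (a : ℝ)))) ![Polynomial.C Polynomial.X, Polynomial.X])).toRingHom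
      = (MvPolynomial.aeval (R := ℚ) (pt t s)).toRingHom := by
    apply MvPolynomial.ringHom_ext
    · intro r
      simp
    · intro i
      rcases i with a | i
      · simp [pt]
      · fin_cases i
        · simp [pt]
        · simp [pt]
  exact DFunLike.congr_fun this q

/-- the combinatorial content of definability -/
theorem shape {f : ℝ → ℝ}
    (hd : (Set.univ : Set ℝ).Definable LZ {v : Fin 2 → ℝ | v 1 = f (v 0)}) :
    ∃ Q : Finset (Polynomial (Polynomial ℝ)), ∀ x x' y' : ℝ, ⌊x⌋ = ⌊x'⌋ → ⌊f x⌋ = ⌊y'⌋ →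
      (∀ q ∈ Q, SignType.sign (q.evalEval (Int.fract x) (Int.fract (f x))) =
        SignType.sign (q.evalEval (Int.fract x') (Int.fract y'))) → y' = f x' := by
  classical
  rw [Set.definable_iff_exists_formula_sum] at hd
  obtain ⟨φ, hφ⟩ := hd
  have h1 := (Good.formula φ).reindex
    (Sum.elim id Fin.elim0 : ((Set.univ : Set ℝ) ⊕ Fin 2) ⊕ Fin 0 → (Set.univ : Set ℝ) ⊕ Fin 2)
  have h2 : Good (fun v : (Set.univ : Set ℝ) ⊕ Fin 2 → ℝ => φ.Realize v) := by
    refine h1.congr fun v => ?_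
    exact (FirstOrder.Language.Formula.boundedFormula_realize_eq_realize φ v _).symm
  obtain ⟨Q, hQ⟩ := h2
  have hmem : ∀ x y : ℝ, y = f x ↔ φ.Realize (Sum.elim (fun a : (Set.univ : Set ℝ) => (a : ℝ)) ![x, y]) := by
    intro x y
    have : (![x, y] : Fin 2 → ℝ) ∈ {v : Fin 2 → ℝ | v 1 = f (v 0)} ↔
      (![x, y] : Fin 2 → ℝ) ∈ {v : Fin 2 → ℝ | φ.Realize (Sum.elim (↑) v)} := by rw [hφ]
    exact this
  refine ⟨Q.image pol, fun x x' y' hx hy hs => ?_⟩
  rw [hmem]
  refine hQ _ _ ?_ ?_ ((hmem x (f x)).1 rfl)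
  · intro i
    rcases i with a | i
    · rfl
    · fin_cases i
      · exact hx
      · exact hy
  · intro q hq
    have := hs (pol q) (Finset.mem_image_of_mem _ hq)
    rw [pol_eval, pol_eval] at this
    have e : ∀ x y : ℝ, fr (Sum.elim (fun a : (Set.univ : Set ℝ) => (a : ℝ)) ![x, y]) =
        pt (Int.fract x) (Int.fract y) := by
      intro x y
      funext i
      rcases i with a | i
      · rfl
      · fin_cases i <;> rfl
    rw [e, e]
    exact this

section Analysis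

variable {f : ℝ → ℝ} (hf : ContDiff ℝ (⊤ : ℕ∞) f) {Q : Finset (Polynomial (Polynomial ℝ))}
  (hQ : ∀ x x' y' : ℝ, ⌊x⌋ = ⌊x'⌋ → ⌊f x⌋ = ⌊y'⌋ →
      (∀ q ∈ Q, SignType.sign (q.evalEval (Int.fract x) (Int.fract (f x))) =
        SignType.sign (q.evalEval (Int.fract x') (Int.fract y'))) → y' = f x')

/-- sign vector -/
noncomputable def sg (Q : Finset (Polynomial (Polynomial ℝ))) (t s : ℝ) : Q → SignType :=
  fun q => SignType.sign ((q : Polynomial (Polynomial ℝ)).evalEval t s)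

/-- the sign vectors met over `[n, n+1)` -/
def T (f : ℝ → ℝ) (Q : Finset (Polynomial (Polynomial ℝ))) (n : ℤ) : Set (Q → SignType) :=
  {σ | ∃ x, ⌊x⌋ = n ∧ sg Q (Int.fract x) (Int.fract (f x)) = σ}

include hQ in
lemma uniq {n : ℤ} {t s : ℝ} (t0 : 0 ≤ t) (t1 : t < 1) (s0 : 0 ≤ s) (s1 : s < 1)
    (h : sg Q t s ∈ T f Q n) : s = Int.fract (f (n + t)) := by
  obtain ⟨x, hx, hs⟩ := h
  have e1 : ⌊(n : ℝ) + t⌋ = n := by
    rw [Int.floor_intCast_add, Int.floor_eq_zero_iff.2 ⟨t0, t1⟩, add_zero]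
  have e2 : Int.fract ((n : ℝ) + t) = t := by
    rw [Int.fract_intCast_add, Int.fract_eq_self.2 ⟨t0, t1⟩]
  have e3 : ⌊(⌊f x⌋ : ℝ) + s⌋ = ⌊f x⌋ := by
    rw [Int.floor_intCast_add, Int.floor_eq_zero_iff.2 ⟨s0, s1⟩, add_zero]
  have e4 : Int.fract ((⌊f x⌋ : ℝ) + s) = s := by
    rw [Int.fract_intCast_add, Int.fract_eq_self.2 ⟨s0, s1⟩]
  have := hQ x (n + t) (⌊f x⌋ + s) (by rw [hx, e1]) e3.symm (fun q hq => by
    rw [e2, e4]
    exact congrFun hs ⟨q, hq⟩)
  rw [← this, e4]

lemma mem_T {n : ℤ} {t : ℝ} (t0 : 0 ≤ t) (t1 : t < 1) :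
    sg Q t (Int.fract (f (n + t))) ∈ T f Q n := by
  refine ⟨n + t, ?_, ?_⟩
  · rw [Int.floor_intCast_add, Int.floor_eq_zero_iff.2 ⟨t0, t1⟩, add_zero]
  · rw [Int.fract_intCast_add, Int.fract_eq_self.2 ⟨t0, t1⟩]

include hQ in
lemma fract_eq_of_T {n m : ℤ} (h : T f Q n = T f Q m) {t : ℝ} (t0 : 0 ≤ t) (t1 : t < 1) :
    Int.fract (f (n + t)) = Int.fract (f (m + t)) :=
  uniq hQ t0 t1 (Int.fract_nonneg _) (Int.fract_lt_one _) (h ▸ mem_T t0 t1)

include hf hQ in
lemma diff_eq_of_T {n m : ℤ} (h : T f Q n = T f Q m) {t : ℝ} (t0 : 0 ≤ t) (t1 : t < 1) :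
    f (n + t) - f n = f (m + t) - f m := by
  set g : ℝ → ℝ := fun t => f (n + t) - f (m + t) with hg
  have hgc : Continuous g := by
    have := hf.continuous
    fun_prop
  have hint : ∀ s ∈ Set.Ico (0 : ℝ) 1, ∃ k : ℤ, g s = k := by
    intro s hs
    have := fract_eq_of_T hQ h hs.1 hs.2
    rw [Int.fract_eq_fract] at this
    exact this
  have key : g t = g 0 := by
    by_contra hne
    obtain ⟨a, ha⟩ := hint 0 ⟨le_rfl, one_pos⟩
    obtain ⟨b, hb⟩ := hint t ⟨t0, t1⟩
    have hab : a ≠ b := fun hab => hne (by rw [ha, hb, hab])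
    have hsub := intermediate_value_uIcc (f := g) (a := 0) (b := t) hgc.continuousOn
    have hmem : (((min a b : ℤ) : ℝ) + 1 / 2) ∈ Set.uIcc (g 0) (g t) := by
      rw [ha, hb, Set.mem_uIcc]
      rcases lt_or_gt_of_ne hab with h1 | h1
      · left
        rw [min_eq_left h1.le]
        have : (a : ℝ) + 1 ≤ b := by exact_mod_cast h1
        constructor <;> linarith
      · right
        rw [min_eq_right h1.le]
        have : (b : ℝ) + 1 ≤ a := by exact_mod_cast h1
        constructor <;> linarith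
    obtain ⟨s, hs, hs2⟩ := hsub hmem
    rw [Set.uIcc_of_le t0] at hs
    obtain ⟨k, hk⟩ := hint s ⟨hs.1, hs.2.trans_lt t1⟩
    rw [hk] at hs2
    have h3 : ((2 * k : ℤ) : ℝ) = ((2 * min a b + 1 : ℤ) : ℝ) := by
      rw [Int.cast_mul, Int.cast_add, Int.cast_mul, hs2]
      push_cast
      ring
    have h4 : 2 * k = 2 * min a b + 1 := by exact_mod_cast h3
    omega
  simp only [hg, add_zero] at key
  linarith

include hQ in
/-- the equation satisfied by the fractional part of `f` -/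
lemma fract_alg : ∃ P : Polynomial (Polynomial ℝ), P ≠ 0 ∧
    ∀ x : ℝ, P.evalEval (Int.fract x) (Int.fract (f x)) = 0 := by
  classical
  refine ⟨Polynomial.X * ∏ q ∈ Q.filter (· ≠ 0), q, ?_, fun x => ?_⟩
  · refine mul_ne_zero Polynomial.X_ne_zero (Finset.prod_ne_zero_iff.2 fun q hq => ?_)
    exact (Finset.mem_filter.1 hq).2
  · rw [Polynomial.evalEval_mul, Polynomial.evalEval_X, Polynomial.evalEval_prod]
    by_contra hne
    have hs0 : Int.fract (f x) ≠ 0 := left_ne_zero_of_mul hne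
    have hq0 := Finset.prod_ne_zero_iff.1 (right_ne_zero_of_mul hne)
    set t := Int.fract x with ht
    set s := Int.fract (f x) with hs
    have hs0' : 0 < s := lt_of_le_of_ne (Int.fract_nonneg _) (Ne.symm hs0)
    have hs1 : s < 1 := Int.fract_lt_one _
    have e0 : ∀ᶠ s' in 𝓝 s, s' ∈ Set.Ioo (0 : ℝ) 1 := Ioo_mem_nhds hs0' hs1
    have e1 : ∀ᶠ s' in 𝓝 s, ∀ q ∈ Q, SignType.sign (q.evalEval t s') = SignType.sign (q.evalEval t s) := by
      rw [eventually_all_finset]
      intro q hq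
      by_cases hz : q = 0
      · rw [hz]
        exact Eventually.of_forall fun s' => by simp
      · have hne := hq0 q (Finset.mem_filter.2 ⟨hq, hz⟩)
        have hc := (continuous_evalEval_right q t).tendsto s
        rcases lt_or_gt_of_ne hne with h | h
        · filter_upwards [hc.eventually (gt_mem_nhds h)] with s' hs'
          rw [sign_neg h, sign_neg hs']
        · filter_upwards [hc.eventually (lt_mem_nhds h)] with s' hs'
          rw [sign_pos h, sign_pos hs']
    have e2 : ∀ᶠ s' in 𝓝 s, s' = s := by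
      filter_upwards [e0, e1] with s' h1 h2
      have hxn : ((⌊x⌋ : ℤ) : ℝ) + t = x := Int.floor_add_fract x
      have h3 : sg Q t s' ∈ T f Q ⌊x⌋ := by
        have : sg Q t s' = sg Q t s := funext fun q => h2 q q.2
        rw [this]
        exact ⟨x, rfl, rfl⟩
      have := uniq hQ (Int.fract_nonneg x) (Int.fract_lt_one x) h1.1.le h1.2 h3
      rw [this, hxn]
    have e3 : ∀ᶠ s' in 𝓝[≠] s, s' = s := e2.filter_mono nhdsWithin_le_nhds
    have e4 : ∀ᶠ s' in 𝓝[≠] s, s' ≠ s := eventually_mem_nhdsWithin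
    obtain ⟨z, hz1, hz2⟩ := (e3.and e4).exists
    exact hz2 hz1

include hf hQ

lemma alg_unit (n : ℤ) : Alg (Set.Ico (n : ℝ) (n + 1)) f := by
  obtain ⟨P, hP, h0⟩ := fract_alg hQ
  have hfl : ∀ x ∈ Set.Ico (n : ℝ) (n + 1), Int.fract x = x + (-(n : ℝ)) := by
    intro x hx
    have : ⌊x⌋ = n := Int.floor_eq_iff.2 hx
    rw [Int.fract, this]; ring
  have h1 : Alg (Set.Ico (n : ℝ) (n + 1)) (fun x => Int.fract (f x)) := by
    obtain ⟨P', hP', h1⟩ := exists_shift hP (-(n : ℝ))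
    refine ⟨P', hP', fun x hx => ?_⟩
    rw [h1, ← hfl x hx]
    exact h0 x
  have h2 : Alg (Set.Ico (n : ℝ) (n + 1)) (fun x => ((⌊f x⌋ : ℤ) : ℝ)) := by
    apply Alg.of_finite
    obtain ⟨C, hC⟩ := (isCompact_Icc (a := (n : ℝ)) (b := n + 1)).exists_bound_of_continuousOn
      hf.continuous.continuousOn
    refine ((Set.finite_Icc ⌊-C⌋ ⌊C⌋).image (fun k : ℤ => (k : ℝ))).subset ?_
    rintro _ ⟨x, hx, rfl⟩
    have := abs_le.1 (hC x ⟨hx.1, hx.2.le⟩)
    exact ⟨⌊f x⌋, ⟨Int.floor_mono this.1, Int.floor_mono this.2⟩, rfl⟩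
  have h3 := h2.add h1
  obtain ⟨P, hP, h0⟩ := h3
  refine ⟨P, hP, fun x hx => ?_⟩
  have := h0 x hx
  simpa only [Int.floor_add_fract] using this

lemma alg_loc (c : ℝ) : ∃ U ∈ 𝓝 c, Alg U f := by
  refine ⟨Set.Ioo ((⌊c⌋ : ℝ) - 1) (⌊c⌋ + 1), Ioo_mem_nhds ?_ ?_, ?_⟩
  · have := Int.floor_le c; linarith
  · exact Int.lt_floor_add_one c
  · refine ((alg_unit hf hQ (⌊c⌋ - 1)).union (alg_unit hf hQ ⌊c⌋)).mono fun x hx => ?_
    push_cast
    rcases lt_or_ge x ⌊c⌋ with h | h
    · left; exact ⟨hx.1.le, by linarith⟩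
    · right; exact ⟨h, hx.2⟩

lemma alg_univ : Alg Set.univ f := by
  obtain ⟨P, hP, h0⟩ := alg_unit hf hQ 0
  refine ⟨P, hP, fun x _ => ?_⟩
  refine ident (h := fun x => P.evalEval x (f x)) (contDiff_evalEval P hf) (fun c => ?_)
    (c₀ := 1 / 2) ?_ x
  · obtain ⟨U, hU, hUa⟩ := alg_loc hf hQ c
    exact ⟨U, hU, hUa.poly P⟩
  · have : Set.Ioo (0 : ℝ) 1 ∈ 𝓝 (1 / 2 : ℝ) := Ioo_mem_nhds (by norm_num) (by norm_num)
    filter_upwards [this] with x hx
    exact h0 x ⟨by simpa using hx.1.le, by simpa using hx.2⟩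

lemma translate {t : ℝ} (t0 : 0 < t) (t1 : t < 1) : ∃ L : ℝ, ∀ x, f (x + t) - f x = L := by
  have hA := alg_univ hf hQ
  obtain ⟨σ, hσ⟩ := Finite.exists_infinite_fiber (T f Q)
  have hinf : (T f Q ⁻¹' {σ}).Infinite := Set.infinite_coe_iff.1 hσ
  obtain ⟨n₀, hn₀⟩ := hinf.nonempty
  refine ⟨f (n₀ + t) - f n₀, fun x => ?_⟩
  set L := f (n₀ + t) - f n₀ with hL
  have hn : ∀ n ∈ T f Q ⁻¹' {σ}, f ((n : ℝ) + t) - f n = L := by
    intro n hn
    exact diff_eq_of_T hf hQ (by rw [show T f Q n = σ from hn, show T f Q n₀ = σ from hn₀]) t0.le t1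
  have hD : Alg Set.univ (fun x => f (x + t) - f x - L) := by
    refine Alg.sub (Alg.sub ?_ hA) (Alg.const _ _)
    exact (hA.shift t).mono fun _ _ => Set.mem_univ _
  have hDs : ContDiff ℝ (⊤ : ℕ∞) (fun x => f (x + t) - f x - L) :=
    ((hf.comp (contDiff_id.add contDiff_const)).sub hf).sub contDiff_const
  obtain ⟨P, hP, h0⟩ := id hD
  obtain ⟨m, r, S, hr, hs⟩ := exists_split hP
  -- an integer where `r` does not vanish
  have hex : ∃ n ∈ T f Q ⁻¹' {σ}, r.eval (n : ℝ) ≠ 0 := by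
    by_contra hcon
    push Not at hcon
    have hfin : {y : ℝ | r.eval y = 0}.Finite := by
      have := r.roots.toFinset.finite_toSet
      refine this.subset fun y hy => ?_
      simpa [hr] using hy
    refine hinf ?_
    refine (hfin.preimage (f := fun n : ℤ => (n : ℝ)) Int.cast_injective.injOn).subset ?_
    intro n hn
    exact hcon n hn
  obtain ⟨n, hnσ, hrn⟩ := hex
  have hz : (fun x => f (x + t) - f x - L) (n : ℝ) = 0 := by
    show f ((n : ℝ) + t) - f n - L = 0
    rw [hn n hnσ, sub_self]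
  have hev : ∀ᶠ x in 𝓝 (n : ℝ), (fun x => f (x + t) - f x - L) x = 0 := by
    have hcont : Continuous (fun x => r.eval x + (fun x => f (x + t) - f x - L) x *
        S.evalEval x ((fun x => f (x + t) - f x - L) x)) := by
      refine (Polynomial.continuous r).add (hDs.continuous.mul ?_)
      exact (contDiff_evalEval S (n := 0) (hDs.of_le (by simp))).continuous
    have hne : ∀ᶠ x in 𝓝 (n : ℝ), r.eval x + (fun x => f (x + t) - f x - L) x *
        S.evalEval x ((fun x => f (x + t) - f x - L) x) ≠ 0 := by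
      refine hcont.continuousAt.eventually_ne ?_
      rw [hz, zero_mul, add_zero]
      exact hrn
    filter_upwards [hne] with y hy
    have h5 := h0 y (Set.mem_univ y)
    rw [hs] at h5
    rcases mul_eq_zero.1 h5 with h | h
    · exact eq_zero_of_pow_eq_zero h
    · exact absurd h hy
  have : f (x + t) - f x - L = 0 := ident hDs (fun c => ⟨Set.univ, univ_mem, hD⟩) hev x
  linarith

theorem affine : ∃ a b : ℝ, ∀ x, f x = a * x + b := by
  have hdiff : Differentiable ℝ f := hf.differentiable (by simp)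
  have h1 : ∀ t, 0 < t → t < 1 → ∀ x, deriv f (x + t) = deriv f x := by
    intro t t0 t1 x
    obtain ⟨L, hL⟩ := translate hf hQ t0 t1
    have e : (fun x => f (x + t)) = fun x => f x + L := by
      funext y; rw [← hL y]; ring
    have h2 := congrFun (congrArg deriv e) x
    rw [deriv_comp_add_const, deriv_add_const] at h2
    exact h2
  have h2 : ∀ t, 0 < t → t < 1 → ∀ (n : ℕ) (x : ℝ), deriv f (x + n * t) = deriv f x := by
    intro t t0 t1 n x
    induction n with
    | zero => simp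
    | succ n ih =>
      rw [← ih, ← h1 t t0 t1 (x + n * t)]
      congr 1
      push_cast; ring
  have h3 : ∀ u, 0 < u → ∀ x, deriv f (x + u) = deriv f x := by
    intro u hu x
    obtain ⟨n, hn⟩ := exists_nat_gt u
    have hn0 : (0 : ℝ) < n := hu.trans hn
    have := h2 (u / n) (by positivity) ((div_lt_one hn0).2 hn) n x
    rwa [mul_div_cancel₀ _ hn0.ne'] at this
  have h4 : ∀ x, deriv f x = deriv f 0 := by
    intro x
    rcases lt_trichotomy x 0 with h | h | h
    · have := h3 (-x) (by linarith) x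
      rw [add_neg_cancel] at this
      exact this.symm
    · rw [h]
    · have := h3 x h 0
      rwa [zero_add] at this
  refine ⟨deriv f 0, f 0, fun x => ?_⟩
  have h5 : ∀ x, HasDerivAt (fun x => f x - deriv f 0 * x) 0 x := by
    intro x
    have := ((hdiff x).hasDerivAt).sub ((hasDerivAt_id x).const_mul (deriv f 0))
    rw [h4 x, mul_one, sub_self] at this
    exact this
  have h6 := is_const_of_deriv_eq_zero (f := fun x => f x - deriv f 0 * x)
    (fun x => (h5 x).differentiableAt) (fun x => (h5 x).deriv) x 0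
  simp only [mul_zero, sub_zero] at h6
  linarith

end Analysis

end Pool.Agent.R746.SD
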