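import Pool.Agent.R497.TD.Defs

/-!
# TD-KAP: averages of a bounded function over `[y/2, 3y]` depend on `y` in a Lipschitz way
-/

set_option autoImplicit false

open MeasureTheory

namespace Pool.Agent.R746

theorem kap_int {φ : ℝ → ℝ} {C : ℝ} (hm : Measurable φ) (hb : ∀ s, |φ s| ≤ C) (a b : ℝ) :
    IntervalIntegrable φ volume a b := by
  rw [intervalIntegrable_iff]
  refine Measure.integrableOn_of_bounded (M := C) ?_ hm.aestronglyMeasurable ?_
  · exact measure_Ioc_lt_top.ne
  · exact Filter.Eventually.of_forall fun s => by rw [Real.norm_eq_abs]; exact hb s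

theorem kap_bd {φ : ℝ → ℝ} {C : ℝ} (hb : ∀ s, |φ s| ≤ C) (a b : ℝ) :
    |∫ s in a..b, φ s| ≤ C * |b - a| := by
  have := intervalIntegral.norm_integral_le_of_norm_le_const (a := a) (b := b) (C := C) (f := φ)
    (fun x _ => by rw [Real.norm_eq_abs]; exact hb x)
  rwa [Real.norm_eq_abs] at this

theorem t_KAP : Pool.Agent.R497.TD.S_KAP := by
  intro φ C y y' hm hb hy
  have hC : 0 ≤ C := (abs_nonneg _).trans (hb 0)
  have hy0 : 0 < |y| := abs_pos.2 hy
  by_cases hy' : y' = 0
  · subst hy'
    have h1 := kap_bd (φ := fun a => φ (a * y)) (fun s => hb _) (1 / 2) 3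
    have h2 := kap_bd (φ := fun a => φ (a * 0)) (fun s => hb _) (1 / 2) 3
    have e : |(3 : ℝ) - 1 / 2| = 5 / 2 := by norm_num
    rw [e] at h1 h2
    rw [sub_zero, mul_div_assoc, div_self hy0.ne', mul_one]
    refine (abs_sub _ _).trans ?_
    linarith
  · have hy'0 : 0 < |y'| := abs_pos.2 hy'
    rw [intervalIntegral.integral_comp_mul_right φ hy, intervalIntegral.integral_comp_mul_right φ hy',
      smul_eq_mul, smul_eq_mul]
    set A := ∫ x in (1 / 2 * y)..(3 * y), φ x with hA
    set B := ∫ x in (1 / 2 * y')..(3 * y'), φ x with hB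
    have e1 : A - B = (∫ x in (1 / 2 * y)..(1 / 2 * y'), φ x) + ∫ x in (3 * y')..(3 * y), φ x := by
      have h1 := intervalIntegral.integral_add_adjacent_intervals
        (kap_int hm hb (1 / 2 * y) (1 / 2 * y')) (kap_int hm hb (1 / 2 * y') (3 * y'))
      have h2 := intervalIntegral.integral_add_adjacent_intervals
        (kap_int hm hb (1 / 2 * y) (3 * y')) (kap_int hm hb (3 * y') (3 * y))
      rw [hA, hB, ← h2, ← h1]
      ring
    have h1 : |A - B| ≤ 7 / 2 * C * |y - y'| := by
      rw [e1]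
      refine (abs_add_le _ _).trans ?_
      have h2 := kap_bd hb (1 / 2 * y) (1 / 2 * y')
      have h3 := kap_bd hb (3 * y') (3 * y)
      have e2 : |1 / 2 * y' - 1 / 2 * y| = 1 / 2 * |y - y'| := by
        rw [← mul_sub, abs_mul, abs_sub_comm]
        norm_num
      have e3 : |3 * y - 3 * y'| = 3 * |y - y'| := by
        rw [← mul_sub, abs_mul]
        norm_num
      rw [e2] at h2
      rw [e3] at h3
      linarith
    have h2 : |B| ≤ 5 / 2 * C * |y'| := by
      have h3 := kap_bd hb (1 / 2 * y') (3 * y')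
      have e2 : |3 * y' - 1 / 2 * y'| = 5 / 2 * |y'| := by
        rw [← sub_mul, abs_mul]
        norm_num
      rw [e2] at h3
      linarith
    have e4 : y⁻¹ * A - y'⁻¹ * B = (A - B) / y + (y' - y) * B / (y * y') := by
      field_simp
      ring
    rw [e4]
    refine (abs_add_le _ _).trans ?_
    rw [abs_div, abs_div, abs_mul, abs_mul, abs_sub_comm y' y]
    have h3 : |A - B| / |y| ≤ 7 / 2 * C * |y - y'| / |y| := div_le_div_of_nonneg_right h1 hy0.le
    have h4 : |y - y'| * |B| / (|y| * |y'|) ≤ 5 / 2 * C * |y - y'| / |y| := by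
      rw [div_le_div_iff₀ (by positivity) hy0]
      have h5 := mul_le_mul_of_nonneg_left h2 (abs_nonneg (y - y'))
      calc |y - y'| * |B| * |y| ≤ |y - y'| * (5 / 2 * C * |y'|) * |y| :=
            mul_le_mul_of_nonneg_right h5 hy0.le
        _ = 5 / 2 * C * |y - y'| * (|y| * |y'|) := by ring
    have e5 : 6 * C * |y - y'| / |y| = 7 / 2 * C * |y - y'| / |y| + 5 / 2 * C * |y - y'| / |y| := by
      rw [← add_div]
      congr 1
      ring
    rw [e5]
    exact add_le_add h3 h4

end Pool.Agent.R746
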