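import Pool.Agent.R978.UI.Stm

/-!
# MP_52097a: the union bounds B0 and B00
-/

set_option autoImplicit false

namespace Pool.Agent.R746.UIB0

open Finset Pool.Agent.R980 R978UI
open scoped Classical

/-- the number of pairs with one vertex in `A` and the other in `B` -/
lemma card_pairs {n : ℕ} (F : Finset (Edge n)) (A B : Finset (Fin n))
    (h : ∀ e ∈ F, ∃ a ∈ A, ∃ b ∈ B, e.1 = s(a, b)) : F.card ≤ A.card * B.card := by
  rw [← card_product]
  have h1 : (F.image fun e => e.1).card = F.card :=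
    card_image_of_injective _ Subtype.val_injective
  rw [← h1]
  refine (card_le_card (t := (A ×ˢ B).image fun q => s(q.1, q.2)) ?_).trans card_image_le
  intro e he
  rw [mem_image] at he ⊢
  obtain ⟨e', he', rfl⟩ := he
  obtain ⟨a, ha, b, hb, hab⟩ := h e' he'
  exact ⟨(a, b), mem_product.2 ⟨ha, hb⟩, hab.symm⟩

lemma tail (hU : StmtUpper) {n : ℕ} {p : ℝ} (h0 : 0 ≤ p) (h1 : p ≤ 1) (F : Finset (Edge n))
    (Q : SimpleGraph (Fin n) → Prop) {y θ : ℝ} (hθ : 1 ≤ θ)
    (hQ : ∀ x : Edge n → Bool, Q (ofBool x) → y ≤ ((F.filter fun e => x e = true).card : ℝ)) :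
    gnp n p Q ≤ θ ^ (-y) * Real.exp ((θ - 1) * p * F.card) := by
  rw [gnp_eq_bex]
  refine le_trans (bex_mono h0 h1 fun x => ?_) (hU (Edge n) _ _ p h0 h1 F y θ hθ)
  by_cases hx : Q (ofBool x)
  · rw [if_pos hx, if_pos (hQ x hx)]
  · rw [if_neg hx]
    split_ifs <;> norm_num

lemma gnp_false {n : ℕ} {p : ℝ} (Q : SimpleGraph (Fin n) → Prop) (h : ∀ G, ¬ Q G) :
    gnp n p Q = 0 := by
  unfold gnp
  exact Finset.sum_eq_zero fun G _ => if_neg (h G)

lemma eInc_eq {n : ℕ} (x : Edge n → Bool) (S : Finset (Fin n)) :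
    eInc (ofBool x) S = ((univ.filter fun e : Edge n => ∃ v ∈ e.1, v ∈ S).filter
      fun e => x e = true).card := by
  unfold eInc
  congr 1
  ext e
  simp only [mem_filter, mem_univ, true_and]
  rw [mem_ofBool]
  exact and_comm

lemma eIn_eq {n : ℕ} (x : Edge n → Bool) (S : Finset (Fin n)) :
    eIn (ofBool x) S = ((univ.filter fun e : Edge n => ∀ v ∈ e.1, v ∈ S).filter
      fun e => x e = true).card := by
  unfold eIn
  congr 1
  ext e
  simp only [mem_filter, mem_univ, true_and]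
  rw [mem_ofBool]
  exact and_comm

lemma card_inc {n : ℕ} (S : Finset (Fin n)) :
    (univ.filter fun e : Edge n => ∃ v ∈ e.1, v ∈ S).card ≤ S.card * n := by
  have h := card_pairs (univ.filter fun e : Edge n => ∃ v ∈ e.1, v ∈ S) S univ (by
    intro e he
    rw [mem_filter] at he
    obtain ⟨v, hv, hvS⟩ := he.2
    obtain ⟨w, hw⟩ := Sym2.mem_iff_exists.1 hv
    exact ⟨v, hvS, w, mem_univ _, hw⟩)
  rwa [card_univ, Fintype.card_fin] at h

lemma card_in {n : ℕ} (S : Finset (Fin n)) :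
    (univ.filter fun e : Edge n => ∀ v ∈ e.1, v ∈ S).card ≤ S.card * S.card := by
  refine card_pairs _ S S ?_
  rintro ⟨e, he0⟩ he
  rw [mem_filter] at he
  induction e with
  | _ a b =>
    exact ⟨a, he.2 a (Sym2.mem_mk_left a b), b, he.2 b (Sym2.mem_mk_right a b), rfl⟩

theorem stmtB00 (hU : StmtUpper) : StmtB00 := by
  intro K κ hK hκ
  obtain ⟨θ, hθ⟩ : ∃ θ, θ = Real.exp (2 / κ) := ⟨_, rfl⟩
  have hθ1 : 1 ≤ θ := by rw [hθ]; exact Real.one_le_exp (by positivity)
  have hθ0 : 0 < θ := by linarith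
  have hK0 : 0 < K := by linarith
  refine ⟨1 / (2 * K * θ), by positivity, fun η hη => ?_⟩
  have hlim : Filter.Tendsto (fun n : ℕ => Real.exp (-((n : ℝ) / 2))) Filter.atTop (nhds 0) := by
    refine Real.tendsto_exp_neg_atTop_nhds_zero.comp ?_
    exact Filter.Tendsto.atTop_div_const (by norm_num) tendsto_natCast_atTop_atTop
  obtain ⟨N1, hN1⟩ := Filter.eventually_atTop.1 ((tendsto_order.1 hlim).2 η hη)
  obtain ⟨N2, hN2⟩ := exists_nat_ge K
  refine ⟨N1 + N2 + 1, fun n hn p h0 hp => ?_⟩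
  have hnK : K ≤ n := hN2.trans (by exact_mod_cast (by omega : N2 ≤ n))
  have hn0 : (0 : ℝ) < n := by linarith
  have hp1 : p ≤ 1 := hp.trans ((div_le_one hn0).2 hnK)
  refine (gnp_exists_le h0 hp1 (fun (S : Finset (Fin n)) (G : SimpleGraph (Fin n)) =>
    (S.card : ℝ) ≤ 1 / (2 * K * θ) * n ∧ κ * n < (eInc G S : ℝ))).trans ?_
  have hS : ∀ S : Finset (Fin n), gnp n p (fun G : SimpleGraph (Fin n) =>
      (S.card : ℝ) ≤ 1 / (2 * K * θ) * n ∧ κ * n < (eInc G S : ℝ)) ≤
      Real.exp (-(3 / 2 * n)) := by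
    intro S
    by_cases hc : (S.card : ℝ) ≤ 1 / (2 * K * θ) * n
    · refine (tail hU h0 hp1 (univ.filter fun e : Edge n => ∃ v ∈ e.1, v ∈ S) _ (y := κ * n) hθ1
        (fun x hx => by
          have h := hx.2
          rw [eInc_eq] at h
          exact h.le)).trans ?_
      have e1 : θ ^ (-(κ * n)) = Real.exp (-(2 * n)) := by
        rw [hθ, ← Real.exp_mul]
        congr 1
        field_simp
      rw [e1, ← Real.exp_add]
      apply Real.exp_le_exp.2
      have hF : ((univ.filter fun e : Edge n => ∃ v ∈ e.1, v ∈ S).card : ℝ) ≤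
          1 / (2 * K * θ) * n * n := by
        have h1 : ((univ.filter fun e : Edge n => ∃ v ∈ e.1, v ∈ S).card : ℝ) ≤ S.card * n := by
          exact_mod_cast card_inc S
        exact h1.trans (mul_le_mul_of_nonneg_right hc hn0.le)
      have h2 : (θ - 1) * p * ((univ.filter fun e : Edge n => ∃ v ∈ e.1, v ∈ S).card : ℝ) ≤
          θ * (K / n) * (1 / (2 * K * θ) * n * n) := by
        refine mul_le_mul (mul_le_mul (by linarith) hp h0 hθ0.le) hF (Nat.cast_nonneg _)
          (by positivity)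
      have e3 : θ * (K / n) * (1 / (2 * K * θ) * n * n) = n / 2 := by
        field_simp
      rw [e3] at h2
      linarith
    · rw [gnp_false _ (fun G hG => hc hG.1)]
      exact (Real.exp_pos _).le
  refine (Finset.sum_le_sum fun S _ => hS S).trans ?_
  rw [Finset.sum_const, card_univ, Fintype.card_finset, Fintype.card_fin, nsmul_eq_mul]
  push_cast
  have h2n : (2 : ℝ) ^ n ≤ Real.exp n := by
    have h1 : (2 : ℝ) ≤ Real.exp 1 := by
      have := Real.add_one_le_exp (1 : ℝ)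
      linarith
    calc (2 : ℝ) ^ n ≤ (Real.exp 1) ^ n := pow_le_pow_left₀ (by norm_num) h1 n
      _ = Real.exp n := by rw [← Real.exp_nat_mul, mul_one]
  have hlast := hN1 n (by omega)
  calc (2 : ℝ) ^ n * Real.exp (-(3 / 2 * n)) ≤ Real.exp n * Real.exp (-(3 / 2 * n)) :=
        mul_le_mul_of_nonneg_right h2n (Real.exp_pos _).le
    _ = Real.exp (-((n : ℝ) / 2)) := by
        rw [← Real.exp_add]
        congr 1
        ring
    _ ≤ η := hlast.le

/-- the bound for one size -/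
lemma one_size {n m : ℕ} {τ K : ℝ} (hm : 1 ≤ m) (hmn : m ≤ n)
    (hq : ((m : ℝ) / n) ^ τ * Real.exp (1 + K) ≤ 1 / 2) :
    (n.choose m : ℝ) * (((m : ℝ) / n) ^ ((1 + τ) * m) * Real.exp (K * m)) ≤ (1 / 2 : ℝ) ^ m := by
  have hm0 : (0 : ℝ) < m := by exact_mod_cast hm
  have hn0 : (0 : ℝ) < n := by exact_mod_cast (by omega : 0 < n)
  obtain ⟨r, hr⟩ : ∃ r : ℝ, r = (m : ℝ) / n := ⟨_, rfl⟩
  have hr0 : 0 < r := by rw [hr]; positivity
  rw [← hr] at hq ⊢
  have e1 : r ^ ((1 + τ) * m) = r ^ m * (r ^ τ) ^ m := by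
    rw [add_mul, one_mul, Real.rpow_add hr0, Real.rpow_natCast, Real.rpow_mul hr0.le,
      Real.rpow_natCast]
  have h1 : (n.choose m : ℝ) * r ^ m ≤ Real.exp m := by
    have h2 : (n.choose m : ℝ) ≤ (n : ℝ) ^ m / (m.factorial : ℝ) := Nat.choose_le_pow_div m n
    have h3 := Real.pow_div_factorial_le_exp (m : ℝ) hm0.le m
    calc (n.choose m : ℝ) * r ^ m ≤ (n : ℝ) ^ m / (m.factorial : ℝ) * r ^ m :=
          mul_le_mul_of_nonneg_right h2 (by positivity)
      _ = (m : ℝ) ^ m / (m.factorial : ℝ) := by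
          rw [hr, div_pow]
          field_simp
      _ ≤ Real.exp m := h3
  have e2 : Real.exp (K * m) = (Real.exp K) ^ m := by
    rw [← Real.exp_nat_mul, mul_comm]
  have e3 : Real.exp (m : ℝ) = (Real.exp 1) ^ m := by
    rw [← Real.exp_nat_mul, mul_one]
  calc (n.choose m : ℝ) * (r ^ ((1 + τ) * m) * Real.exp (K * m)) =
        ((n.choose m : ℝ) * r ^ m) * ((r ^ τ) ^ m * (Real.exp K) ^ m) := by rw [e1, e2]; ring
    _ ≤ (Real.exp 1) ^ m * ((r ^ τ) ^ m * (Real.exp K) ^ m) := by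
        rw [← e3]
        exact mul_le_mul_of_nonneg_right h1 (by positivity)
    _ = (r ^ τ * Real.exp (1 + K)) ^ m := by
        rw [Real.exp_add, ← mul_pow, ← mul_pow]
        congr 1
        ring
    _ ≤ (1 / 2 : ℝ) ^ m := pow_le_pow_left₀ (by positivity) hq m

theorem stmtB0 (hU : StmtUpper) : StmtB0 := by
  intro K τ hK hτ
  have hK0 : 0 < K := by linarith
  obtain ⟨γ₁, hγ₁⟩ : ∃ γ₁ : ℝ, γ₁ = 1 / 2 * (1 / 2 * Real.exp (-(1 + K))) ^ (1 / τ) := ⟨_, rfl⟩
  have hb0 : 0 < 1 / 2 * Real.exp (-(1 + K)) := by positivity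
  refine ⟨γ₁, by rw [hγ₁]; positivity, fun γ hγ hγ1 η hη => ?_⟩
  obtain ⟨c, hc⟩ : ∃ c : ℝ, c = (1 / 2 : ℝ) ^ (γ / 2) := ⟨_, rfl⟩
  have hc0 : 0 < c := by rw [hc]; positivity
  have hc1 : c < 1 := by
    rw [hc]
    exact Real.rpow_lt_one (by norm_num) (by norm_num) (by positivity)
  have hlim : Filter.Tendsto (fun n : ℕ => (n : ℝ) * c ^ n + c ^ n) Filter.atTop (nhds 0) := by
    have h1 := tendsto_self_mul_const_pow_of_lt_one hc0.le hc1
    have h2 := tendsto_pow_atTop_nhds_zero_of_lt_one hc0.le hc1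
    have h3 := h1.add h2
    rwa [add_zero] at h3
  obtain ⟨N1, hN1⟩ := Filter.eventually_atTop.1 ((tendsto_order.1 hlim).2 η hη)
  obtain ⟨N2, hN2⟩ := exists_nat_ge K
  refine ⟨N1 + N2 + 1, fun n hn p h0 hp => ?_⟩
  have hnK : K ≤ n := hN2.trans (by exact_mod_cast (by omega : N2 ≤ n))
  have hn0 : (0 : ℝ) < n := by linarith
  have hp1 : p ≤ 1 := hp.trans ((div_le_one hn0).2 hnK)
  have hex : gnp n p (fun G : SimpleGraph (Fin n) => ∃ S : Finset (Fin n),
      γ * n / 2 ≤ (S.card : ℝ) ∧ (S.card : ℝ) ≤ 2 * γ * n ∧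
      (1 + τ) * (S.card : ℝ) < (eIn G S : ℝ)) ≤ ∑ S : Finset (Fin n),
      gnp n p (fun G : SimpleGraph (Fin n) => γ * n / 2 ≤ (S.card : ℝ) ∧
        (S.card : ℝ) ≤ 2 * γ * n ∧ (1 + τ) * (S.card : ℝ) < (eIn G S : ℝ)) :=
    gnp_exists_le h0 hp1 (fun (S : Finset (Fin n)) (G : SimpleGraph (Fin n)) =>
      γ * n / 2 ≤ (S.card : ℝ) ∧ (S.card : ℝ) ≤ 2 * γ * n ∧
        (1 + τ) * (S.card : ℝ) < (eIn G S : ℝ))
  refine hex.trans ?_
  obtain ⟨f, hf⟩ : ∃ f : ℕ → ℝ, f = fun m : ℕ => if γ * n / 2 ≤ (m : ℝ) ∧ (m : ℝ) ≤ 2 * γ * n then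
    ((m : ℝ) / n) ^ ((1 + τ) * m) * Real.exp (K * m) else 0 := ⟨_, rfl⟩
  have hS : ∀ S : Finset (Fin n), gnp n p (fun G : SimpleGraph (Fin n) =>
      γ * n / 2 ≤ (S.card : ℝ) ∧ (S.card : ℝ) ≤ 2 * γ * n ∧
        (1 + τ) * (S.card : ℝ) < (eIn G S : ℝ)) ≤ f S.card := by
    intro S
    rw [hf]
    beta_reduce
    by_cases hcond : γ * n / 2 ≤ (S.card : ℝ) ∧ (S.card : ℝ) ≤ 2 * γ * n
    · rw [if_pos hcond]
      have hm0 : (0 : ℝ) < S.card := lt_of_lt_of_le (by positivity) hcond.1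
      have hmn : (S.card : ℝ) ≤ n := by
        have h := card_le_univ S
        rw [Fintype.card_fin] at h
        exact_mod_cast h
      have hθ1 : 1 ≤ (n : ℝ) / S.card := (one_le_div hm0).2 hmn
      refine (tail hU h0 hp1 (univ.filter fun e : Edge n => ∀ v ∈ e.1, v ∈ S) _
        (y := (1 + τ) * S.card) hθ1 (fun x hx => by
          have h := hx.2.2
          rw [eIn_eq] at h
          exact h.le)).trans ?_
      have e1 : ((n : ℝ) / S.card) ^ (-((1 + τ) * S.card)) =
          ((S.card : ℝ) / n) ^ ((1 + τ) * S.card) := by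
        rw [Real.rpow_neg (by positivity), ← Real.inv_rpow (by positivity), inv_div]
      rw [e1]
      refine mul_le_mul_of_nonneg_left (Real.exp_le_exp.2 ?_) (by positivity)
      have hF : ((univ.filter fun e : Edge n => ∀ v ∈ e.1, v ∈ S).card : ℝ) ≤
          S.card * S.card := by
        exact_mod_cast card_in S
      have h2 : ((n : ℝ) / S.card - 1) * p *
          ((univ.filter fun e : Edge n => ∀ v ∈ e.1, v ∈ S).card : ℝ) ≤
          (n : ℝ) / S.card * (K / n) * (S.card * S.card) := by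
        refine mul_le_mul (mul_le_mul (by linarith) hp h0 (by positivity)) hF (Nat.cast_nonneg _)
          (by positivity)
      have e3 : (n : ℝ) / S.card * (K / n) * (S.card * S.card) = K * S.card := by
        field_simp
      rw [e3] at h2
      exact h2
    · rw [if_neg hcond, gnp_false _ (fun G hG => hcond ⟨hG.1, hG.2.1⟩)]
  refine (Finset.sum_le_sum fun S _ => hS S).trans ?_
  have e4 : ∑ S : Finset (Fin n), f S.card =
      ∑ m ∈ range (n + 1), (n.choose m) • f m := by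
    have h := Finset.sum_powerset_apply_card f (x := (univ : Finset (Fin n)))
    rw [powerset_univ, card_univ, Fintype.card_fin] at h
    exact h
  rw [e4]
  have hterm : ∀ m ∈ range (n + 1), (n.choose m) • f m ≤ c ^ n := by
    intro m hm
    rw [mem_range] at hm
    rw [hf, nsmul_eq_mul]
    beta_reduce
    by_cases hcond : γ * n / 2 ≤ (m : ℝ) ∧ (m : ℝ) ≤ 2 * γ * n
    · rw [if_pos hcond]
      have hm0 : (0 : ℝ) < m := lt_of_lt_of_le (by positivity) hcond.1
      have hm1 : 1 ≤ m := by exact_mod_cast hm0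
      have hq : ((m : ℝ) / n) ^ τ * Real.exp (1 + K) ≤ 1 / 2 := by
        have h1 : (m : ℝ) / n ≤ (1 / 2 * Real.exp (-(1 + K))) ^ (1 / τ) := by
          rw [div_le_iff₀ hn0]
          have h2 : 2 * γ ≤ (1 / 2 * Real.exp (-(1 + K))) ^ (1 / τ) := by
            rw [hγ₁] at hγ1
            linarith
          exact hcond.2.trans (mul_le_mul_of_nonneg_right h2 hn0.le)
        have h3 : ((m : ℝ) / n) ^ τ ≤ 1 / 2 * Real.exp (-(1 + K)) := by
          refine (Real.rpow_le_rpow (by positivity) h1 hτ.le).trans (le_of_eq ?_)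
          rw [← Real.rpow_mul hb0.le, one_div_mul_cancel hτ.ne', Real.rpow_one]
        calc ((m : ℝ) / n) ^ τ * Real.exp (1 + K) ≤
              1 / 2 * Real.exp (-(1 + K)) * Real.exp (1 + K) :=
              mul_le_mul_of_nonneg_right h3 (Real.exp_pos _).le
          _ = 1 / 2 := by
              rw [mul_assoc, ← Real.exp_add, neg_add_cancel, Real.exp_zero, mul_one]
      refine (one_size hm1 (by omega) hq).trans ?_
      rw [hc, ← Real.rpow_natCast _ n, ← Real.rpow_mul (by norm_num), ← Real.rpow_natCast _ m]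
      refine Real.rpow_le_rpow_of_exponent_ge (by norm_num) (by norm_num) ?_
      have := hcond.1
      linarith
    · rw [if_neg hcond, mul_zero]
      positivity
  refine (Finset.sum_le_sum hterm).trans ?_
  rw [Finset.sum_const, card_range, nsmul_eq_mul]
  have hlast := hN1 n (by omega)
  push_cast
  linarith

end Pool.Agent.R746.UIB0
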